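import Pool.Agent.V7H89.PI.SieveC

set_option autoImplicit false

/-!
# Almost every perturbation: large values and the large sieve inequality
-/

namespace Pool.Agent.V7H89.PI

open Finset MeasureTheory ProbabilityTheory Pool.Agent.TH705.DL Pool.Agent.Y959.Her
  Pool.Agent.Y959.Smp Pool.Agent.Y959.Rs

variable {Ω : Type*} [MeasurableSpace Ω] {P : Measure Ω}

/-- the basic inequality holds almost surely for all large lengths -/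
theorem almost_bas [IsProbabilityMeasure P] (ξ : ℕ → Ω → ℝ) (hm : ∀ n, Measurable (ξ n))
    (hi : iIndepFun ξ P) (h01 : ∀ n ω, 0 ≤ ξ n ω ∧ ξ n ω ≤ 1) (κ : ℝ) (hκ : 0 ≤ κ)
    (hlaw : ∀ η : ℝ, 0 < η → ∃ K : ℝ, ∀ n : ℕ, 1 ≤ n → ∀ a b : ℝ, a ≤ b →
      P {ω | a ≤ ξ n ω ∧ ξ n ω ≤ b} ≤ ENNReal.ofReal (K * (n : ℝ) ^ (κ + η) * (b - a)))
    (ε : ℝ) (hε : 0 < ε) (hε1 : ε ≤ 1) :
    ∀ᵐ ω ∂P, ∃ (K C0 : ℝ) (Q R N0 : ℕ), 1 ≤ K ∧ 1 ≤ C0 ∧ 1 / ε ≤ Q ∧ κ + 2 * Q + 6 ≤ R ∧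
      ∀ N : ℕ, N0 ≤ N → BasP (N ^ R * (N + 1)) Q (K * (N : ℝ) ^ (κ + ε / 12) / (N : ℝ) ^ R)
      (C0 * ((N ^ R * (N + 1) : ℕ) : ℝ) ^ (ε / 12 / (R + 2)))
      ((Icc 1 N).image (fun n => jn (N ^ R) n (ξ n ω))) := by
  obtain ⟨Q, hQ⟩ : ∃ Q : ℕ, Q = ⌈1 / ε⌉₊ := ⟨_, rfl⟩
  have hQ1 : 1 / ε ≤ Q := by rw [hQ]; exact Nat.le_ceil _
  obtain ⟨R, hR⟩ : ∃ R : ℕ, R = ⌈κ⌉₊ + 2 * Q + 6 := ⟨_, rfl⟩
  have hR1 : κ + 2 * Q + 6 ≤ R := by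
    rw [hR]
    push_cast
    have := Nat.le_ceil κ
    linarith
  obtain ⟨K', hK'⟩ := hlaw (ε / 12) (by positivity)
  obtain ⟨K, hK⟩ : ∃ K : ℝ, K = max K' 1 := ⟨_, rfl⟩
  have hK1 : 1 ≤ K := by rw [hK]; exact le_max_right _ _
  have hlaw' : ∀ n : ℕ, 1 ≤ n → ∀ a b : ℝ, a ≤ b →
      P {ω | a ≤ ξ n ω ∧ ξ n ω ≤ b} ≤ ENNReal.ofReal (K * (n : ℝ) ^ (κ + ε / 12) * (b - a)) := by
    intro n hn a b hab
    refine (hK' n hn a b hab).trans (ENNReal.ofReal_le_ofReal ?_)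
    apply mul_le_mul_of_nonneg_right _ (by linarith)
    apply mul_le_mul_of_nonneg_right _ (by positivity)
    rw [hK]
    exact le_max_left _ _
  obtain ⟨C0, hC0, hpr⟩ := prob_N (Ω := Ω) (P := P) Q (ε / 12 / (R + 2)) (by positivity)
  have hpN := hpr ξ hm hi h01 (κ + ε / 12) K (by positivity) (by linarith) hlaw' R
  -- the bad events
  obtain ⟨N1, hN1⟩ : ∃ N1 : ℕ, N1 = ⌈K⌉₊ + 1 := ⟨_, rfl⟩
  have hp1 : ∀ N : ℕ, N1 ≤ N → K * (N : ℝ) ^ (κ + ε / 12) / (N : ℝ) ^ R ≤ 1 := by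
    intro N hN
    have hNK : K ≤ N := by
      have h1 := Nat.le_ceil K
      have h2 : (⌈K⌉₊ : ℝ) ≤ N := by exact_mod_cast (by omega : ⌈K⌉₊ ≤ N)
      linarith
    have hN1' : (1 : ℝ) ≤ N := by linarith
    have hN0' : (0 : ℝ) < N := by linarith
    rw [div_le_one (by positivity)]
    calc K * (N : ℝ) ^ (κ + ε / 12) ≤ N * (N : ℝ) ^ (κ + ε / 12) :=
          mul_le_mul_of_nonneg_right hNK (by positivity)
      _ = (N : ℝ) ^ (1 + (κ + ε / 12)) := by rw [Real.rpow_add hN0' 1 (κ + ε / 12), Real.rpow_one]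
      _ ≤ (N : ℝ) ^ (R : ℝ) := by
          apply Real.rpow_le_rpow_of_exponent_le hN1'
          have : (0 : ℝ) ≤ Q := Nat.cast_nonneg _
          linarith
      _ = (N : ℝ) ^ R := Real.rpow_natCast _ _
  obtain ⟨bad, hbad⟩ : ∃ bad : ℕ → Set Ω, bad = fun N => {ω | N1 ≤ N ∧
      ¬ BasP (N ^ R * (N + 1)) Q (K * (N : ℝ) ^ (κ + ε / 12) / (N : ℝ) ^ R)
      (C0 * ((N ^ R * (N + 1) : ℕ) : ℝ) ^ (ε / 12 / (R + 2)))
      ((Icc 1 N).image (fun n => jn (N ^ R) n (ξ n ω)))} := ⟨_, rfl⟩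
  have hbadP : ∀ N : ℕ, P (bad N) ≤ ENNReal.ofReal ((N : ℝ) ^ (-2 : ℝ)) := by
    intro N
    rcases lt_or_ge N N1 with h | h
    · have h1 : bad N = ∅ := by
        rw [hbad, Set.eq_empty_iff_forall_notMem]
        rintro ω ⟨h2, _⟩
        omega
      rw [h1, measure_empty]
      exact zero_le
    · refine le_trans (measure_mono ?_) (hpN N (by omega) (hp1 N h))
      intro ω hω
      rw [hbad] at hω
      exact hω.2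
  have hfin : ∑' N, P (bad N) ≠ ⊤ := by
    have hsum : Summable (fun N : ℕ => (N : ℝ) ^ (-2 : ℝ)) := Real.summable_nat_rpow.2 (by norm_num)
    exact ne_top_of_le_ne_top hsum.tsum_ofReal_ne_top (ENNReal.tsum_le_tsum hbadP)
  filter_upwards [ae_eventually_notMem hfin] with ω hω
  obtain ⟨N0, hN0⟩ := Filter.eventually_atTop.1 hω
  refine ⟨K, C0, Q, R, N0 + N1, hK1, hC0, hQ1, hR1, ?_⟩
  intro N hN
  by_contra hcon
  apply hN0 N (by omega)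
  rw [hbad]
  exact ⟨by omega, hcon⟩

/-- **Almost every perturbation.** -/
theorem almost_all2 [IsProbabilityMeasure P] (ξ : ℕ → Ω → ℝ) (hm : ∀ n, Measurable (ξ n))
    (hi : iIndepFun ξ P) (h01 : ∀ n ω, 0 ≤ ξ n ω ∧ ξ n ω ≤ 1) (κ : ℝ) (hκ : 0 ≤ κ)
    (hlaw : ∀ η : ℝ, 0 < η → ∃ K : ℝ, ∀ n : ℕ, 1 ≤ n → ∀ a b : ℝ, a ≤ b →
      P {ω | a ≤ ξ n ω ∧ ξ n ω ≤ b} ≤ ENNReal.ofReal (K * (n : ℝ) ^ (κ + η) * (b - a))) :
    ∀ᵐ ω ∂P, ∀ ε : ℝ, 0 < ε →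
      LS (fun n => (n : ℝ) + ξ n ω) κ ε ∧ LV (fun n => (n : ℝ) + ξ n ω) κ ε := by
  have h1 : ∀ᵐ ω ∂P, ∀ k : ℕ, LS (fun n => (n : ℝ) + ξ n ω) κ (1 / ((k : ℝ) + 1)) ∧
      LV (fun n => (n : ℝ) + ξ n ω) κ (1 / ((k : ℝ) + 1)) := by
    rw [ae_all_iff]
    intro k
    have hk1 : 1 / ((k : ℝ) + 1) ≤ 1 := by
      rw [div_le_one (by positivity)]
      have : (0 : ℝ) ≤ k := Nat.cast_nonneg _
      linarith
    filter_upwards [almost_bas ξ hm hi h01 κ hκ hlaw (1 / ((k : ℝ) + 1)) (by positivity) hk1] with ω hω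
    obtain ⟨K, C0, Q, R, N0, hK1, hC0, hQ1, hR1, hB⟩ := hω
    exact ⟨conclLS κ _ K C0 Q R N0 hκ (by positivity) hk1 hK1 hC0 hQ1 hR1 (fun n => ξ n ω)
        (fun n => h01 n ω) hB,
      concl κ _ K C0 Q R N0 hκ (by positivity) hk1 hK1 hC0 hQ1 hR1 (fun n => ξ n ω)
        (fun n => h01 n ω) hB⟩
  filter_upwards [h1] with ω hω
  intro ε hε
  obtain ⟨k, hk⟩ := exists_nat_one_div_lt hε
  exact ⟨LS_mono (hω k).1 hk.le, LV_mono (hω k).2 hk.le⟩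

/-- independent perturbations of size at most `δ n` -/
theorem exists_xi (δ : ℕ → ℝ) (κ : ℝ) (h0 : ∀ n, 0 < δ n) (h1 : ∀ n, δ n ≤ 1)
    (hδ : ∀ η : ℝ, 0 < η → ∃ c : ℝ, 0 < c ∧ ∀ n : ℕ, 1 ≤ n → c * (n : ℝ) ^ (-(κ + η)) ≤ δ n) :
    ∃ (P : Measure (ℕ → ℝ)) (ξ : ℕ → (ℕ → ℝ) → ℝ), IsProbabilityMeasure P ∧
      (∀ n, Measurable (ξ n)) ∧ iIndepFun ξ P ∧ (∀ n ω, 0 ≤ ξ n ω ∧ ξ n ω ≤ 1) ∧
      (∀ n ω, ξ n ω ≤ δ n) ∧
      (∀ η : ℝ, 0 < η → ∃ K : ℝ, ∀ n : ℕ, 1 ≤ n → ∀ a b : ℝ, a ≤ b →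
      P {ω | a ≤ ξ n ω ∧ ξ n ω ≤ b} ≤ ENNReal.ofReal (K * (n : ℝ) ^ (κ + η) * (b - a))) := by
  have hprob : IsProbabilityMeasure ((volume : Measure ℝ).restrict (Set.Icc 0 1)) :=
    ⟨by rw [Measure.restrict_apply_univ, Real.volume_Icc]; simp⟩
  obtain ⟨X, hX⟩ : ∃ X : ℕ → ℝ → ℝ, X = fun n v => δ n * max 0 (min 1 v) := ⟨_, rfl⟩
  have hXm : ∀ n, Measurable (X n) := by
    intro n
    rw [hX]
    exact (measurable_const.max (measurable_const.min measurable_id)).const_mul (δ n)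
  have hX0 : ∀ n v, 0 ≤ X n v ∧ X n v ≤ δ n := by
    intro n v
    rw [hX]
    have h2 : 0 ≤ max 0 (min 1 v) := le_max_left _ _
    have h3 : max 0 (min 1 v) ≤ 1 := max_le zero_le_one (min_le_left _ _)
    exact ⟨mul_nonneg (h0 n).le h2, mul_le_of_le_one_right (h0 n).le h3⟩
  refine ⟨Measure.infinitePi (fun _ : ℕ => (volume : Measure ℝ).restrict (Set.Icc 0 1)),
    fun n ω => X n (ω n), inferInstance, fun n => (hXm n).comp (measurable_pi_apply n),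
    iIndepFun_infinitePi (X := X) hXm, fun n ω => ⟨(hX0 n _).1, (hX0 n _).2.trans (h1 n)⟩,
    fun n ω => (hX0 n _).2, ?_⟩
  intro η hη
  obtain ⟨c, hc, hcδ⟩ := hδ η hη
  refine ⟨1 / c, ?_⟩
  intro n hn a b hab
  have hn0 : (0 : ℝ) < n := by exact_mod_cast hn
  obtain ⟨A, hA⟩ : ∃ A : Set ℝ, A = {v | a ≤ X n v ∧ X n v ≤ b} := ⟨_, rfl⟩
  have hAm : MeasurableSet A := by
    rw [hA]
    exact (measurableSet_le measurable_const (hXm n)).inter (measurableSet_le (hXm n) measurable_const)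
  have h2 := (measurePreserving_eval_infinitePi
    (fun _ : ℕ => (volume : Measure ℝ).restrict (Set.Icc 0 1)) n).measure_preimage
      hAm.nullMeasurableSet
  have h3 : (Function.eval n ⁻¹' A : Set (ℕ → ℝ)) = {ω | a ≤ X n (ω n) ∧ X n (ω n) ≤ b} := by
    rw [hA]
    rfl
  rw [h3] at h2
  rw [h2, Measure.restrict_apply hAm]
  have h4 : A ∩ Set.Icc 0 1 ⊆ Set.Icc (a / δ n) (b / δ n) := by
    rintro v ⟨hv, hv0, hv1⟩
    rw [hA] at hv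
    have h5 : X n v = δ n * v := by
      rw [hX]
      simp only
      rw [min_eq_right hv1, max_eq_right hv0]
    have hv' : a ≤ X n v ∧ X n v ≤ b := hv
    rw [h5] at hv'
    constructor
    · rw [div_le_iff₀ (h0 n)]
      linarith [hv'.1]
    · rw [le_div_iff₀ (h0 n)]
      linarith [hv'.2]
  refine (measure_mono h4).trans ?_
  rw [Real.volume_Icc]
  apply ENNReal.ofReal_le_ofReal
  rw [← sub_div, div_le_iff₀ (h0 n)]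
  have h6 := hcδ n hn
  have h7 : 0 < (n : ℝ) ^ (κ + η) := Real.rpow_pos_of_pos hn0 _
  rw [Real.rpow_neg hn0.le] at h6
  have h8 : 1 ≤ 1 / c * (n : ℝ) ^ (κ + η) * δ n := by
    have h9 := mul_le_mul_of_nonneg_left h6 (by positivity : 0 ≤ 1 / c * (n : ℝ) ^ (κ + η))
    have h10 : 1 / c * (n : ℝ) ^ (κ + η) * (c * ((n : ℝ) ^ (κ + η))⁻¹) = 1 := by
      field_simp
    linarith
  have h9 : 0 ≤ b - a := by linarith
  nlinarith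

/-- **Sequences close to the integers.** -/
theorem exists_near2 (δ : ℕ → ℝ) (κ : ℝ) (hκ : 0 ≤ κ) (h0 : ∀ n, 0 < δ n) (h1 : ∀ n, δ n ≤ 1)
    (hδ : ∀ η : ℝ, 0 < η → ∃ c : ℝ, 0 < c ∧ ∀ n : ℕ, 1 ≤ n → c * (n : ℝ) ^ (-(κ + η)) ≤ δ n) :
    ∃ x : ℕ → ℝ, (∀ n : ℕ, (n : ℝ) ≤ x n ∧ x n ≤ n + δ n) ∧
      ∀ ε : ℝ, 0 < ε → LS x κ ε ∧ LV x κ ε := by
  obtain ⟨P, ξ, hP, hm, hi, h01, hξδ, hlaw⟩ := exists_xi δ κ h0 h1 hδ
  obtain ⟨ω, hω⟩ := (almost_all2 ξ hm hi h01 κ hκ hlaw).exists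
  refine ⟨fun n => (n : ℝ) + ξ n ω, fun n => ⟨?_, ?_⟩, hω⟩
  · linarith [(h01 n ω).1]
  · linarith [hξδ n ω]

end Pool.Agent.V7H89.PI
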