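import Pool.Agent.V7H89.PI.Concl

set_option autoImplicit false

/-!
# Almost every perturbation of the integers
-/

namespace Pool.Agent.V7H89.PI

open Finset MeasureTheory ProbabilityTheory Pool.Agent.TH705.DL Pool.Agent.Y959.Her
  Pool.Agent.Y959.Smp Pool.Agent.Y959.Rs

variable {Ω : Type*} [MeasurableSpace Ω] {P : Measure Ω}

/-- one length -/
theorem prob_N (Q : ℕ) (ε₁ : ℝ) (hε₁ : 0 < ε₁) : ∃ C0 : ℝ, 1 ≤ C0 ∧
    ∀ (ξ : ℕ → Ω → ℝ), (∀ n, Measurable (ξ n)) → iIndepFun ξ P → (∀ n ω, 0 ≤ ξ n ω ∧ ξ n ω ≤ 1) →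
    ∀ (β K : ℝ), 0 ≤ β → 0 ≤ K →
    (∀ n : ℕ, 1 ≤ n → ∀ a b : ℝ, a ≤ b → P {ω | a ≤ ξ n ω ∧ ξ n ω ≤ b} ≤
      ENNReal.ofReal (K * (n : ℝ) ^ β * (b - a))) →
    ∀ (R N : ℕ), 1 ≤ N → K * (N : ℝ) ^ β / (N : ℝ) ^ R ≤ 1 →
    P {ω | ¬ BasP (N ^ R * (N + 1)) Q (K * (N : ℝ) ^ β / (N : ℝ) ^ R)
      (C0 * ((N ^ R * (N + 1) : ℕ) : ℝ) ^ ε₁)
      ((Icc 1 N).image (fun n => jn (N ^ R) n (ξ n ω)))} ≤ ENNReal.ofReal ((N : ℝ) ^ (-2 : ℝ)) := by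
  classical
  obtain ⟨C0, hC0, hab⟩ := absorbR ε₁ 2 hε₁ (by norm_num) Q
  refine ⟨C0, hC0, ?_⟩
  intro ξ hm hi h01 β K hβ hK hlaw R N hN hp1
  have hN1 : (1 : ℝ) ≤ N := by exact_mod_cast hN
  have hN0 : (0 : ℝ) < N := by linarith
  obtain ⟨M, hM⟩ : ∃ M : ℕ, M = N ^ R := ⟨_, rfl⟩
  have hM1 : 1 ≤ M := by rw [hM]; exact Nat.one_le_pow _ _ hN
  have hMc : (M : ℝ) = (N : ℝ) ^ R := by rw [hM]; push_cast; rfl
  have hM0 : (0 : ℝ) < M := by exact_mod_cast hM1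
  rw [← hM, ← hMc]
  rw [← hMc] at hp1
  obtain ⟨p, hp⟩ : ∃ p : ℝ, p = K * (N : ℝ) ^ β / M := ⟨_, rfl⟩
  rw [← hp] at hp1 ⊢
  have hp0 : 0 ≤ p := by rw [hp]; positivity
  obtain ⟨N', hN'⟩ : ∃ N' : ℕ, N' = M * (N + 1) := ⟨_, rfl⟩
  rw [← hN']
  have hNN' : N ≤ N' := by
    rw [hN']
    calc N ≤ 1 * (N + 1) := by omega
      _ ≤ M * (N + 1) := Nat.mul_le_mul_right _ hM1
  have hN'1 : 1 ≤ N' := by omega
  have hN'R : (1 : ℝ) ≤ N' := by exact_mod_cast hN'1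
  have hN'0 : (0 : ℝ) < N' := by linarith
  -- the random integers
  have hJind : iIndepFun (fun n ω => jn M n (ξ n ω)) P :=
    hi.comp (fun n y => jn M n y) (fun n => jn_meas M n)
  have hJp : ∀ n ∈ Icc 1 N, ∀ i, P {ω | jn M n (ξ n ω) = i} ≤ ENNReal.ofReal p := by
    intro n hn i
    have hn1 := (mem_Icc.1 hn).1
    have hnN : (n : ℝ) ≤ N := by exact_mod_cast (mem_Icc.1 hn).2
    obtain ⟨α, hα⟩ : ∃ α : ℝ, α = ((i : ℝ) - M * n) / M := ⟨_, rfl⟩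
    have h1 : {ω | jn M n (ξ n ω) = i} ⊆ {ω | α ≤ ξ n ω ∧ ξ n ω ≤ α + 1 / M} := by
      intro ω hω
      have h2 := jn_cast M n hM1 (ξ n ω) (h01 n ω).1 (h01 n ω).2
      have h3 : jn M n (ξ n ω) = i := hω
      rw [h3] at h2
      constructor
      · rw [hα, div_le_iff₀ hM0]
        linarith [h2.1]
      · rw [hα, ← add_div, le_div_iff₀ hM0]
        linarith [h2.2]
    refine (measure_mono h1).trans ((hlaw n hn1 α (α + 1 / M) (by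
      have : 0 ≤ 1 / (M : ℝ) := by positivity
      linarith)).trans (ENNReal.ofReal_le_ofReal ?_))
    rw [hp, add_sub_cancel_left, mul_one_div]
    apply div_le_div_of_nonneg_right _ hM0.le
    apply mul_le_mul_of_nonneg_left _ hK
    exact Real.rpow_le_rpow (Nat.cast_nonneg _) hnN hβ
  have hIF : ∀ ω, IS (fun n ω => jn M n (ξ n ω)) N ω ⊆ Icc 1 N' := by
    intro ω i hi'
    unfold IS at hi'
    rw [mem_image] at hi'
    obtain ⟨n, hn, rfl⟩ := hi'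
    have hn1 := (mem_Icc.1 hn).1
    have hn2 := (mem_Icc.1 hn).2
    have h1 := jn_div M n hM1 (ξ n ω)
    have h2 : M * n ≤ jn M n (ξ n ω) := Nat.le_add_right _ _
    have h3 : jn M n (ξ n ω) < M * (n + 1) := by
      have := Nat.lt_mul_div_succ (jn M n (ξ n ω)) (by omega : 0 < M)
      rw [h1] at this
      exact this
    rw [mem_Icc, hN']
    refine ⟨?_, h3.le.trans (Nat.mul_le_mul_left _ (by omega))⟩
    calc 1 = 1 * 1 := rfl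
      _ ≤ M * n := Nat.mul_le_mul hM1 hn1
      _ ≤ _ := h2
  have hδ : 0 < (N' : ℝ) ^ (-2 : ℝ) := Real.rpow_pos_of_pos hN'0 _
  have hδ1 : (N' : ℝ) ^ (-2 : ℝ) ≤ 1 := Real.rpow_le_one_of_one_le_of_nonpos hN'R (by norm_num)
  have hgm := good_meas N M (fun n ω => jn M n (ξ n ω)) (fun n ω => jn_div M n hM1 (ξ n ω)) hJind p hp0
    hJp (Icc 1 N') ⟨1, mem_Icc.2 ⟨le_rfl, hN'1⟩⟩ hIF (eg N' Q) ((N' : ℝ) ^ (-2 : ℝ)) hδ hδ1
    (by rw [Fintype.card_fin]; omega)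
  rw [Fintype.card_fin, Nat.card_Icc, Nat.add_sub_cancel] at hgm
  have hT1 : ((4 * N' ^ 2 * N' ^ Q + 1 : ℕ) : ℝ) = 4 * (N' : ℝ) ^ 2 * (N' : ℝ) ^ Q + 1 := by push_cast; rfl
  rw [hT1] at hgm
  obtain ⟨Lam, hLam⟩ : ∃ Lam : ℝ, Lam =
    Real.log (8 * (4 * (N' : ℝ) ^ 2 * (N' : ℝ) ^ Q + 1) * (N' : ℝ) ^ 2 / (N' : ℝ) ^ (-2 : ℝ)) := ⟨_, rfl⟩
  rw [← hLam] at hgm
  have hLam0 : 0 ≤ Lam := by
    rw [hLam]
    apply Real.log_nonneg
    rw [le_div_iff₀ hδ]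
    have h6 : (1 : ℝ) ≤ (N' : ℝ) ^ 2 := one_le_pow₀ hN'R
    have h7 : (1 : ℝ) ≤ 8 * (4 * (N' : ℝ) ^ 2 * (N' : ℝ) ^ Q + 1) := by
      have : 0 ≤ 4 * (N' : ℝ) ^ 2 * (N' : ℝ) ^ Q := by positivity
      linarith
    have h8 := one_le_mul_of_one_le_of_one_le h7 h6
    linarith
  refine le_trans (measure_mono ?_) (hgm.trans (ENNReal.ofReal_le_ofReal ?_))
  · intro ω hω hG
    apply hω
    exact basP_of_good N' Q hN'1 p hp0 hp1 Lam hLam0 _ (hIF ω) hG _ (fun w hw => by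
      have := hab N' hN'1 w hw
      rw [← hLam] at this
      exact this)
  · exact Real.rpow_le_rpow_of_nonpos hN0 (by exact_mod_cast hNN') (by norm_num)

/-- **Almost every perturbation, one exponent.** -/
theorem almost_all_one [IsProbabilityMeasure P] (ξ : ℕ → Ω → ℝ) (hm : ∀ n, Measurable (ξ n))
    (hi : iIndepFun ξ P) (h01 : ∀ n ω, 0 ≤ ξ n ω ∧ ξ n ω ≤ 1) (κ : ℝ) (hκ : 0 ≤ κ)
    (hlaw : ∀ η : ℝ, 0 < η → ∃ K : ℝ, ∀ n : ℕ, 1 ≤ n → ∀ a b : ℝ, a ≤ b →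
      P {ω | a ≤ ξ n ω ∧ ξ n ω ≤ b} ≤ ENNReal.ofReal (K * (n : ℝ) ^ (κ + η) * (b - a)))
    (ε : ℝ) (hε : 0 < ε) (hε1 : ε ≤ 1) :
    ∀ᵐ ω ∂P, LV (fun n => (n : ℝ) + ξ n ω) κ ε := by
  obtain ⟨Q, hQ⟩ : ∃ Q : ℕ, Q = ⌈1 / ε⌉₊ := ⟨_, rfl⟩
  have hQ1 : 1 / ε ≤ Q := by rw [hQ]; exact Nat.le_ceil _
  obtain ⟨R, hR⟩ : ∃ R : ℕ, R = ⌈κ⌉₊ + 2 * Q + 6 := ⟨_, rfl⟩
  have hR1 : κ + 2 * Q + 6 ≤ R := by
    rw [hR]
    push_cast
    have := Nat.le_ceil κ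
    linarith
  obtain ⟨K', hK'⟩ := hlaw (ε / 12) (by positivity)
  obtain ⟨K, hK⟩ : ∃ K : ℝ, K = max K' 1 := ⟨_, rfl⟩
  have hK1 : 1 ≤ K := by rw [hK]; exact le_max_right _ _
  have hlaw' : ∀ n : ℕ, 1 ≤ n → ∀ a b : ℝ, a ≤ b →
      P {ω | a ≤ ξ n ω ∧ ξ n ω ≤ b} ≤ ENNReal.ofReal (K * (n : ℝ) ^ (κ + ε / 12) * (b - a)) := by
    intro n hn a b hab
    refine (hK' n hn a b hab).trans (ENNReal.ofReal_le_ofReal ?_)
    apply mul_le_mul_of_nonneg_right _ (by linarith)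
    apply mul_le_mul_of_nonneg_right _ (by positivity)
    rw [hK]
    exact le_max_left _ _
  obtain ⟨C0, hC0, hpr⟩ := prob_N (Ω := Ω) (P := P) Q (ε / 12 / (R + 2)) (by positivity)
  have hpN := hpr ξ hm hi h01 (κ + ε / 12) K (by positivity) (by linarith) hlaw' R
  -- the bad events
  obtain ⟨N1, hN1⟩ : ∃ N1 : ℕ, N1 = ⌈K⌉₊ + 1 := ⟨_, rfl⟩
  have hp1 : ∀ N : ℕ, N1 ≤ N → K * (N : ℝ) ^ (κ + ε / 12) / (N : ℝ) ^ R ≤ 1 := by
    intro N hN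
    have hNK : K ≤ N := by
      have h1 := Nat.le_ceil K
      have h2 : (⌈K⌉₊ : ℝ) ≤ N := by exact_mod_cast (by omega : ⌈K⌉₊ ≤ N)
      linarith
    have hN1' : (1 : ℝ) ≤ N := by linarith
    have hN0' : (0 : ℝ) < N := by linarith
    rw [div_le_one (by positivity)]
    calc K * (N : ℝ) ^ (κ + ε / 12) ≤ N * (N : ℝ) ^ (κ + ε / 12) :=
          mul_le_mul_of_nonneg_right hNK (by positivity)
      _ = (N : ℝ) ^ (1 + (κ + ε / 12)) := by rw [Real.rpow_add hN0' 1 (κ + ε / 12), Real.rpow_one]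
      _ ≤ (N : ℝ) ^ (R : ℝ) := by
          apply Real.rpow_le_rpow_of_exponent_le hN1'
          have : (0 : ℝ) ≤ Q := Nat.cast_nonneg _
          linarith
      _ = (N : ℝ) ^ R := Real.rpow_natCast _ _
  obtain ⟨bad, hbad⟩ : ∃ bad : ℕ → Set Ω, bad = fun N => {ω | N1 ≤ N ∧
      ¬ BasP (N ^ R * (N + 1)) Q (K * (N : ℝ) ^ (κ + ε / 12) / (N : ℝ) ^ R)
      (C0 * ((N ^ R * (N + 1) : ℕ) : ℝ) ^ (ε / 12 / (R + 2)))
      ((Icc 1 N).image (fun n => jn (N ^ R) n (ξ n ω)))} := ⟨_, rfl⟩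
  have hbadP : ∀ N : ℕ, P (bad N) ≤ ENNReal.ofReal ((N : ℝ) ^ (-2 : ℝ)) := by
    intro N
    rcases lt_or_ge N N1 with h | h
    · have h1 : bad N = ∅ := by
        rw [hbad, Set.eq_empty_iff_forall_notMem]
        rintro ω ⟨h2, _⟩
        omega
      rw [h1, measure_empty]
      exact zero_le
    · refine le_trans (measure_mono ?_) (hpN N (by omega) (hp1 N h))
      intro ω hω
      rw [hbad] at hω
      exact hω.2
  have hfin : ∑' N, P (bad N) ≠ ⊤ := by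
    have hsum : Summable (fun N : ℕ => (N : ℝ) ^ (-2 : ℝ)) := Real.summable_nat_rpow.2 (by norm_num)
    exact ne_top_of_le_ne_top hsum.tsum_ofReal_ne_top (ENNReal.tsum_le_tsum hbadP)
  filter_upwards [ae_eventually_notMem hfin] with ω hω
  obtain ⟨N0, hN0⟩ := Filter.eventually_atTop.1 hω
  apply concl κ ε K C0 Q R (N0 + N1) hκ hε hε1 hK1 hC0 hQ1 hR1 (fun n => ξ n ω) (fun n => h01 n ω)
  intro N hN
  by_contra hcon
  apply hN0 N (by omega)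
  rw [hbad]
  exact ⟨by omega, hcon⟩

/-- **Almost every perturbation.** -/
theorem almost_all [IsProbabilityMeasure P] (ξ : ℕ → Ω → ℝ) (hm : ∀ n, Measurable (ξ n))
    (hi : iIndepFun ξ P) (h01 : ∀ n ω, 0 ≤ ξ n ω ∧ ξ n ω ≤ 1) (κ : ℝ) (hκ : 0 ≤ κ)
    (hlaw : ∀ η : ℝ, 0 < η → ∃ K : ℝ, ∀ n : ℕ, 1 ≤ n → ∀ a b : ℝ, a ≤ b →
      P {ω | a ≤ ξ n ω ∧ ξ n ω ≤ b} ≤ ENNReal.ofReal (K * (n : ℝ) ^ (κ + η) * (b - a))) :
    ∀ᵐ ω ∂P, ∀ ε : ℝ, 0 < ε → LV (fun n => (n : ℝ) + ξ n ω) κ ε := by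
  have h1 : ∀ᵐ ω ∂P, ∀ k : ℕ, LV (fun n => (n : ℝ) + ξ n ω) κ (1 / ((k : ℝ) + 1)) := by
    rw [ae_all_iff]
    intro k
    apply almost_all_one ξ hm hi h01 κ hκ hlaw _ (by positivity)
    rw [div_le_one (by positivity)]
    have : (0 : ℝ) ≤ k := Nat.cast_nonneg _
    linarith
  filter_upwards [h1] with ω hω
  intro ε hε
  obtain ⟨k, hk⟩ := exists_nat_one_div_lt hε
  exact LV_mono (hω k) hk.le

/-- **Sequences close to the integers.** -/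
theorem exists_near (δ : ℕ → ℝ) (κ : ℝ) (hκ : 0 ≤ κ) (h0 : ∀ n, 0 < δ n) (h1 : ∀ n, δ n ≤ 1)
    (hδ : ∀ η : ℝ, 0 < η → ∃ c : ℝ, 0 < c ∧ ∀ n : ℕ, 1 ≤ n → c * (n : ℝ) ^ (-(κ + η)) ≤ δ n) :
    ∃ x : ℕ → ℝ, (∀ n : ℕ, (n : ℝ) ≤ x n ∧ x n ≤ n + δ n) ∧ ∀ ε : ℝ, 0 < ε → LV x κ ε := by
  have hprob : IsProbabilityMeasure ((volume : Measure ℝ).restrict (Set.Icc 0 1)) :=
    ⟨by rw [Measure.restrict_apply_univ, Real.volume_Icc]; simp⟩
  obtain ⟨X, hX⟩ : ∃ X : ℕ → ℝ → ℝ, X = fun n v => δ n * max 0 (min 1 v) := ⟨_, rfl⟩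
  have hXm : ∀ n, Measurable (X n) := by
    intro n
    rw [hX]
    exact (measurable_const.max (measurable_const.min measurable_id)).const_mul (δ n)
  have hX0 : ∀ n v, 0 ≤ X n v ∧ X n v ≤ δ n := by
    intro n v
    rw [hX]
    have h2 : 0 ≤ max 0 (min 1 v) := le_max_left _ _
    have h3 : max 0 (min 1 v) ≤ 1 := max_le zero_le_one (min_le_left _ _)
    exact ⟨mul_nonneg (h0 n).le h2, mul_le_of_le_one_right (h0 n).le h3⟩
  have hmain := almost_all (P := Measure.infinitePi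
    (fun _ : ℕ => (volume : Measure ℝ).restrict (Set.Icc 0 1)))
    (fun n ω => X n (ω n)) (fun n => (hXm n).comp (measurable_pi_apply n))
    (iIndepFun_infinitePi (X := X) hXm) (fun n ω => ⟨(hX0 n _).1, (hX0 n _).2.trans (h1 n)⟩) κ hκ (by
      intro η hη
      obtain ⟨c, hc, hcδ⟩ := hδ η hη
      refine ⟨1 / c, ?_⟩
      intro n hn a b hab
      have hn0 : (0 : ℝ) < n := by exact_mod_cast hn
      obtain ⟨A, hA⟩ : ∃ A : Set ℝ, A = {v | a ≤ X n v ∧ X n v ≤ b} := ⟨_, rfl⟩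
      have hAm : MeasurableSet A := by
        rw [hA]
        exact (measurableSet_le measurable_const (hXm n)).inter (measurableSet_le (hXm n) measurable_const)
      have h2 := (measurePreserving_eval_infinitePi
        (fun _ : ℕ => (volume : Measure ℝ).restrict (Set.Icc 0 1)) n).measure_preimage
          hAm.nullMeasurableSet
      have h3 : (Function.eval n ⁻¹' A : Set (ℕ → ℝ)) = {ω | a ≤ X n (ω n) ∧ X n (ω n) ≤ b} := by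
        rw [hA]
        rfl
      rw [h3] at h2
      rw [h2, Measure.restrict_apply hAm]
      have h4 : A ∩ Set.Icc 0 1 ⊆ Set.Icc (a / δ n) (b / δ n) := by
        rintro v ⟨hv, hv0, hv1⟩
        rw [hA] at hv
        have h5 : X n v = δ n * v := by
          rw [hX]
          simp only
          rw [min_eq_right hv1, max_eq_right hv0]
        have hv' : a ≤ X n v ∧ X n v ≤ b := hv
        rw [h5] at hv'
        constructor
        · rw [div_le_iff₀ (h0 n)]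
          linarith [hv'.1]
        · rw [le_div_iff₀ (h0 n)]
          linarith [hv'.2]
      refine (measure_mono h4).trans ?_
      rw [Real.volume_Icc]
      apply ENNReal.ofReal_le_ofReal
      rw [← sub_div, div_le_iff₀ (h0 n)]
      have h6 := hcδ n hn
      have h7 : 0 < (n : ℝ) ^ (κ + η) := Real.rpow_pos_of_pos hn0 _
      rw [Real.rpow_neg hn0.le] at h6
      have h8 : 1 ≤ 1 / c * (n : ℝ) ^ (κ + η) * δ n := by
        have h9 := mul_le_mul_of_nonneg_left h6 (by positivity : 0 ≤ 1 / c * (n : ℝ) ^ (κ + η))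
        have h10 : 1 / c * (n : ℝ) ^ (κ + η) * (c * ((n : ℝ) ^ (κ + η))⁻¹) = 1 := by
          field_simp
        linarith
      have h9 : 0 ≤ b - a := by linarith
      nlinarith)
  obtain ⟨ω, hω⟩ := hmain.exists
  refine ⟨fun n => (n : ℝ) + X n (ω n), fun n => ⟨?_, ?_⟩, hω⟩
  · linarith [(hX0 n (ω n)).1]
  · linarith [(hX0 n (ω n)).2]

end Pool.Agent.V7H89.PI
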