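import Pool.Agent.V7H89.PI.Round
import Pool.Agent.Y959.Rs.RealC

set_option autoImplicit false

/-!
# The parameters
-/

namespace Pool.Agent.V7H89.PI

open Finset MeasureTheory ProbabilityTheory Pool.Agent.TH705.DL Pool.Agent.Y959.Her
  Pool.Agent.Y959.Smp Pool.Agent.Y959.Rs

theorem asym (κ η K C0 : ℝ) (Q R : ℕ) (hκ : 0 ≤ κ) (hη : 0 < η) (hη1 : η ≤ 1) (hK : 1 ≤ K)
    (hC0 : 1 ≤ C0) (hR : κ + 2 * Q + 6 ≤ R) : ∃ C3 : ℝ, 1 ≤ C3 ∧ ∀ N : ℕ, 2 ≤ N → ∀ T V w : ℝ,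
      1 ≤ T → T ≤ (N : ℝ) ^ Q → 1 ≤ w →
      V ^ 2 * w ^ 2 ≤ 4 * (C0 * ((N ^ R * (N + 1) : ℕ) : ℝ) ^ (η / (R + 2))) * N *
        (K * (N : ℝ) ^ (κ + η) / (N : ℝ) ^ R * (w * (((N ^ R * (N + 1) : ℕ) : ℝ) +
        ((Nat.log 2 (N ^ R * (N + 1)) : ℝ) + 1) *
        (84 * ((N ^ R * (N + 1) : ℕ) : ℝ) * (1 + Real.log (T + 1)) +
        w * (14 * Real.sqrt (T * (1 + Real.log ((N ^ R * (N + 1) : ℕ) : ℝ))))))) +
        w ^ 2 + N) →
      V ^ 2 * w ≤ C3 * (N : ℝ) ^ (1 + η) * ((N : ℝ) ^ (1 + κ + 2 * η) + w) := by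
  obtain ⟨CL, hCL, hL3⟩ := log_pow3 η hη
  obtain ⟨C1, hC1⟩ : ∃ C1 : ℝ, C1 = 2 * K * (169 * (R + 2) * (Q + 2) * CL) := ⟨_, rfl⟩
  obtain ⟨C2, hC2⟩ : ∃ C2 : ℝ, C2 = 28 * K * (R + 2) ^ 2 := ⟨_, rfl⟩
  have hR0 : (0 : ℝ) ≤ R := Nat.cast_nonneg _
  have hQ0 : (0 : ℝ) ≤ Q := Nat.cast_nonneg _
  have hC10 : 0 ≤ C1 := by rw [hC1]; positivity
  have hC20 : 0 ≤ C2 := by rw [hC2]; positivity
  refine ⟨4 * C0 * (C1 + C2 + 1), ?_, ?_⟩
  · nlinarith
  intro N hN T V w hT hTQ hw hmain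
  have hN2 : (2 : ℝ) ≤ N := by exact_mod_cast hN
  have hN1 : (1 : ℝ) ≤ N := by linarith
  have hN0 : (0 : ℝ) < N := by linarith
  have hw0 : 0 < w := by linarith
  obtain ⟨n', hn'⟩ : ∃ n' : ℕ, n' = N ^ R * (N + 1) := ⟨_, rfl⟩
  have hn'1 : 1 ≤ n' := by
    rw [hn']
    exact Nat.mul_pos (Nat.pow_pos (by omega)) (by omega)
  have hn'R : (1 : ℝ) ≤ (n' : ℝ) := by exact_mod_cast hn'1
  have hn'le : (n' : ℝ) ≤ (N : ℝ) ^ (R + 2) := by
    rw [hn']
    push_cast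
    rw [pow_add]
    apply mul_le_mul_of_nonneg_left _ (by positivity)
    nlinarith
  have hn'eq : (n' : ℝ) = (N : ℝ) ^ R * (N + 1) := by
    rw [hn']
    push_cast
    ring
  rw [← hn'] at hmain
  obtain ⟨L, hL⟩ : ∃ L : ℝ, L = 1 + Real.log N := ⟨_, rfl⟩
  have hl0 : 0 ≤ Real.log N := Real.log_nonneg hN1
  have hL1 : 1 ≤ L := by linarith
  have hLN : L ≤ N := by
    have := Real.log_le_sub_one_of_pos hN0
    linarith
  have hlogn : Real.log n' ≤ (R + 2) * Real.log N := by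
    have h1 := Real.log_le_log (by linarith) hn'le
    rw [Real.log_pow] at h1
    push_cast at h1
    exact h1
  have hlogn0 : 0 ≤ Real.log n' := Real.log_nonneg hn'R
  have hB : (n' : ℝ) ^ (η / (R + 2)) ≤ (N : ℝ) ^ η := by
    have h1 : (n' : ℝ) ^ (η / (R + 2)) ≤ ((N : ℝ) ^ (R + 2)) ^ (η / ((R : ℝ) + 2)) :=
      Real.rpow_le_rpow (by linarith) hn'le (by positivity)
    refine h1.trans (le_of_eq ?_)
    rw [← Real.rpow_natCast, ← Real.rpow_mul hN0.le]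
    congr 1
    push_cast
    field_simp
  have hlog2 : (Nat.log 2 n' : ℝ) + 1 ≤ 2 * (R + 2) * L := by
    have h1 := log2_leR n' hn'1
    nlinarith
  have hlog20 : (0 : ℝ) ≤ (Nat.log 2 n' : ℝ) + 1 := by positivity
  have hlogT : 1 + Real.log (T + 1) ≤ (Q + 2) * L := by
    have h1 : Real.log (T + 1) ≤ Real.log (2 * (N : ℝ) ^ Q) := by
      apply Real.log_le_log (by linarith)
      have : (1 : ℝ) ≤ (N : ℝ) ^ Q := one_le_pow₀ hN1
      linarith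
    rw [Real.log_mul (by norm_num) (by positivity), Real.log_pow] at h1
    have h2 := Real.log_two_lt_d9
    nlinarith
  have hlogT0 : 0 ≤ 1 + Real.log (T + 1) := by
    have := Real.log_nonneg (by linarith : (1 : ℝ) ≤ T + 1)
    linarith
  -- the first factor
  have h6 : 1 + ((Nat.log 2 n' : ℝ) + 1) * (84 * (1 + Real.log (T + 1))) ≤
      169 * (R + 2) * (Q + 2) * CL * (N : ℝ) ^ η := by
    have h1 : ((Nat.log 2 n' : ℝ) + 1) * (84 * (1 + Real.log (T + 1))) ≤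
        (2 * (R + 2) * L) * (84 * ((Q + 2) * L)) :=
      mul_le_mul hlog2 (by linarith) (by positivity) (by positivity)
    have h2 : L ^ 2 ≤ L ^ 3 := pow_le_pow_right₀ hL1 (by norm_num)
    have h3 : (1 : ℝ) ≤ L ^ 3 := one_le_pow₀ hL1
    have h4 : (1 : ℝ) ≤ (R + 2) * (Q + 2) := by nlinarith
    have h5 := hL3 N (by omega)
    rw [← hL] at h5
    have h7 : (R + 2 : ℝ) * (Q + 2) * L ^ 2 ≤ (R + 2) * (Q + 2) * L ^ 3 :=
      mul_le_mul_of_nonneg_left h2 (by positivity)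
    have h8 : 1 ≤ (R + 2 : ℝ) * (Q + 2) * L ^ 3 := one_le_mul_of_one_le_of_one_le h4 h3
    have h9 : (R + 2 : ℝ) * (Q + 2) * L ^ 3 ≤ (R + 2) * (Q + 2) * (CL * (N : ℝ) ^ η) :=
      mul_le_mul_of_nonneg_left h5 (by positivity)
    calc 1 + ((Nat.log 2 n' : ℝ) + 1) * (84 * (1 + Real.log (T + 1)))
        ≤ 1 + (2 * (R + 2) * L) * (84 * ((Q + 2) * L)) := by linarith
      _ = 1 + 168 * ((R + 2 : ℝ) * (Q + 2) * L ^ 2) := by ring
      _ ≤ 169 * ((R + 2) * (Q + 2) * (CL * (N : ℝ) ^ η)) := by linarith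
      _ = _ := by ring
  have hNR : (0 : ℝ) < (N : ℝ) ^ R := by positivity
  have hA0 : 0 < (N : ℝ) ^ (κ + η) := Real.rpow_pos_of_pos hN0 _
  obtain ⟨p, hp⟩ : ∃ p : ℝ, p = K * (N : ℝ) ^ (κ + η) / (N : ℝ) ^ R := ⟨_, rfl⟩
  rw [← hp] at hmain
  have hp0 : 0 ≤ p := by rw [hp]; positivity
  have hpn : p * n' ≤ 2 * K * (N : ℝ) ^ (1 + κ + η) := by
    rw [hp, hn'eq]
    have h1 : K * (N : ℝ) ^ (κ + η) / (N : ℝ) ^ R * ((N : ℝ) ^ R * (N + 1)) =
        K * (N : ℝ) ^ (κ + η) * (N + 1) := by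
      field_simp
    have h2 : (N : ℝ) ^ (1 + κ + η) = N * (N : ℝ) ^ (κ + η) := by
      rw [show 1 + κ + η = 1 + (κ + η) by ring, Real.rpow_add hN0, Real.rpow_one]
    rw [h1, h2]
    have h3 : K * (N : ℝ) ^ (κ + η) * (N + 1) ≤ K * (N : ℝ) ^ (κ + η) * (2 * N) :=
      mul_le_mul_of_nonneg_left (by linarith) (by positivity)
    linarith
  have hfirst : p * (w * (n' + ((Nat.log 2 n' : ℝ) + 1) * (84 * n' * (1 + Real.log (T + 1))))) ≤
      C1 * (w * (N : ℝ) ^ (1 + κ + 2 * η)) := by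
    have h1 : p * (w * (n' + ((Nat.log 2 n' : ℝ) + 1) * (84 * n' * (1 + Real.log (T + 1))))) =
        w * ((p * n') * (1 + ((Nat.log 2 n' : ℝ) + 1) * (84 * (1 + Real.log (T + 1))))) := by ring
    rw [h1]
    have h2 : (p * n') * (1 + ((Nat.log 2 n' : ℝ) + 1) * (84 * (1 + Real.log (T + 1)))) ≤
        (2 * K * (N : ℝ) ^ (1 + κ + η)) * (169 * (R + 2) * (Q + 2) * CL * (N : ℝ) ^ η) :=
      mul_le_mul hpn h6 (by positivity) (by positivity)
    have h3 : (N : ℝ) ^ (1 + κ + 2 * η) = (N : ℝ) ^ (1 + κ + η) * (N : ℝ) ^ η := by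
      rw [← Real.rpow_add hN0]
      congr 1
      ring
    calc w * ((p * n') * (1 + ((Nat.log 2 n' : ℝ) + 1) * (84 * (1 + Real.log (T + 1)))))
        ≤ w * ((2 * K * (N : ℝ) ^ (1 + κ + η)) * (169 * (R + 2) * (Q + 2) * CL * (N : ℝ) ^ η)) :=
          mul_le_mul_of_nonneg_left h2 hw0.le
      _ = _ := by rw [hC1, h3]; ring
  have hsecond : p * (w * (((Nat.log 2 n' : ℝ) + 1) *
      (w * (14 * Real.sqrt (T * (1 + Real.log n')))))) ≤ C2 * w ^ 2 := by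
    have h1 : Real.sqrt (T * (1 + Real.log n')) ≤ (N : ℝ) ^ Q * ((R + 2) * N) := by
      have h2 : 1 ≤ T * (1 + Real.log n') := one_le_mul_of_one_le_of_one_le hT (by linarith)
      have h3 : Real.sqrt (T * (1 + Real.log n')) ≤ T * (1 + Real.log n') := by
        rw [Real.sqrt_le_left (by linarith)]
        nlinarith
      refine h3.trans ?_
      apply mul_le_mul hTQ _ (by linarith) (by positivity)
      nlinarith
    have h2 : ((Nat.log 2 n' : ℝ) + 1) ≤ 2 * (R + 2) * N :=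
      hlog2.trans (mul_le_mul_of_nonneg_left hLN (by positivity))
    have h3 : ((Nat.log 2 n' : ℝ) + 1) * (14 * Real.sqrt (T * (1 + Real.log n'))) ≤
        (2 * (R + 2) * N) * (14 * ((N : ℝ) ^ Q * ((R + 2) * N))) :=
      mul_le_mul h2 (by linarith) (by positivity) (by positivity)
    have h4 : p * (N : ℝ) ^ (Q + 2) ≤ K := by
      rw [hp, div_mul_eq_mul_div, div_le_iff₀ hNR, mul_assoc]
      apply mul_le_mul_of_nonneg_left _ (by linarith)
      rw [← Real.rpow_natCast (N : ℝ) (Q + 2), ← Real.rpow_natCast (N : ℝ) R, ← Real.rpow_add hN0]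
      apply Real.rpow_le_rpow_of_exponent_le hN1
      push_cast
      linarith
    calc p * (w * (((Nat.log 2 n' : ℝ) + 1) * (w * (14 * Real.sqrt (T * (1 + Real.log n'))))))
        = w ^ 2 * (p * (((Nat.log 2 n' : ℝ) + 1) * (14 * Real.sqrt (T * (1 + Real.log n'))))) := by ring
      _ ≤ w ^ 2 * (p * ((2 * (R + 2) * N) * (14 * ((N : ℝ) ^ Q * ((R + 2) * N))))) := by
          apply mul_le_mul_of_nonneg_left _ (by positivity)
          exact mul_le_mul_of_nonneg_left h3 hp0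
      _ = w ^ 2 * (28 * (R + 2) ^ 2 * (p * (N : ℝ) ^ (Q + 2))) := by
          rw [pow_add]
          ring
      _ ≤ w ^ 2 * (28 * (R + 2) ^ 2 * K) := by
          apply mul_le_mul_of_nonneg_left _ (by positivity)
          exact mul_le_mul_of_nonneg_left h4 (by positivity)
      _ = _ := by rw [hC2]; ring
  have hNX : (N : ℝ) ≤ w * (N : ℝ) ^ (1 + κ + 2 * η) := by
    have h1 : (N : ℝ) ≤ (N : ℝ) ^ (1 + κ + 2 * η) := by
      nth_rw 1 [← Real.rpow_one (N : ℝ)]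
      exact Real.rpow_le_rpow_of_exponent_le hN1 (by linarith)
    have h2 : 0 ≤ (N : ℝ) ^ (1 + κ + 2 * η) := by positivity
    nlinarith
  obtain ⟨X, hX⟩ : ∃ X : ℝ, X = (N : ℝ) ^ (1 + κ + 2 * η) := ⟨_, rfl⟩
  rw [← hX] at hfirst hNX ⊢
  have hX0 : 0 ≤ X := by rw [hX]; positivity
  have hin : p * (w * (n' + ((Nat.log 2 n' : ℝ) + 1) * (84 * n' * (1 + Real.log (T + 1)) +
        w * (14 * Real.sqrt (T * (1 + Real.log n')))))) + w ^ 2 + N ≤
      (C1 + C2 + 1) * (w * (X + w)) := by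
    have e : p * (w * (n' + ((Nat.log 2 n' : ℝ) + 1) * (84 * n' * (1 + Real.log (T + 1)) +
        w * (14 * Real.sqrt (T * (1 + Real.log n')))))) =
      p * (w * (n' + ((Nat.log 2 n' : ℝ) + 1) * (84 * n' * (1 + Real.log (T + 1))))) +
      p * (w * (((Nat.log 2 n' : ℝ) + 1) * (w * (14 * Real.sqrt (T * (1 + Real.log n')))))) := by ring
    rw [e]
    have h1 : 0 ≤ C1 * w ^ 2 := by positivity
    have h2 : 0 ≤ C2 * (w * X) := by positivity
    nlinarith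
  have hfin : V ^ 2 * w ^ 2 ≤ 4 * (C0 * (N : ℝ) ^ η) * N * ((C1 + C2 + 1) * (w * (X + w))) := by
    refine hmain.trans ?_
    apply mul_le_mul _ hin (by
      have := Real.sqrt_nonneg (T * (1 + Real.log n'))
      positivity) (by positivity)
    apply mul_le_mul_of_nonneg_right _ hN0.le
    apply mul_le_mul_of_nonneg_left _ (by norm_num)
    exact mul_le_mul_of_nonneg_left hB (by linarith)
  have e2 : (N : ℝ) ^ (1 + η) = N * (N : ℝ) ^ η := by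
    rw [Real.rpow_add hN0, Real.rpow_one]
  rw [e2]
  have h9 : w * (V ^ 2 * w) ≤ w * (4 * C0 * (C1 + C2 + 1) * (N * (N : ℝ) ^ η) * (X + w)) := by
    calc w * (V ^ 2 * w) = V ^ 2 * w ^ 2 := by ring
      _ ≤ _ := hfin
      _ = _ := by ring
  exact le_of_mul_le_mul_left h9 hw0

end Pool.Agent.V7H89.PI
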