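import Pool.Agent.V7H89.PI.Asym

set_option autoImplicit false

/-!
# The large value bound from the basic inequality at all large `N`
-/

namespace Pool.Agent.V7H89.PI

open Finset MeasureTheory ProbabilityTheory Pool.Agent.TH705.DL Pool.Agent.Y959.Her
  Pool.Agent.Y959.Smp Pool.Agent.Y959.Rs

/-- The large value bound for the frequencies `log (x n)` with the exponents `κ` and `ε`. -/
def LV (x : ℕ → ℝ) (κ ε : ℝ) : Prop := ∃ C : ℝ, 0 < C ∧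
  ∀ (N : ℕ) (T V : ℝ) (a : ℕ → ℂ) (S : Finset ℝ),
    1 ≤ N → 1 ≤ T → 0 < V →
    (∀ n, ‖a n‖ ≤ 1) →
    (N : ℝ) * T ^ ε ≤ V ^ 2 →
    (∀ t ∈ S, 0 ≤ t ∧ t ≤ T ∧
      V ≤ ‖∑ n ∈ Finset.Icc 1 N, a n * ((x n : ℝ) : ℂ) ^ (-((t : ℂ) * Complex.I))‖) →
    (∀ t ∈ S, ∀ u ∈ S, t ≠ u → 1 ≤ |t - u|) →
    (S.card : ℝ) ≤ C * (N : ℝ) ^ (2 + κ) / V ^ 2 * T ^ ε

theorem LV_mono {x : ℕ → ℝ} {κ ε ε' : ℝ} (h : LV x κ ε) (hε : ε ≤ ε') : LV x κ ε' := by
  obtain ⟨C, hC, h1⟩ := h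
  refine ⟨C, hC, ?_⟩
  intro N T V a S hN hT hV ha hNV hS hsep
  have hN0 : (0 : ℝ) < N := by exact_mod_cast hN
  have h2 : T ^ ε ≤ T ^ ε' := Real.rpow_le_rpow_of_exponent_le hT hε
  have h3 := h1 N T V a S hN hT hV ha ((mul_le_mul_of_nonneg_left h2 hN0.le).trans hNV) hS hsep
  refine h3.trans ?_
  exact mul_le_mul_of_nonneg_left h2 (by positivity)

theorem concl (κ ε K C0 : ℝ) (Q R N0 : ℕ) (hκ : 0 ≤ κ) (hε : 0 < ε) (hε1 : ε ≤ 1) (hK : 1 ≤ K)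
    (hC0 : 1 ≤ C0) (hQ : 1 / ε ≤ Q) (hR : κ + 2 * Q + 6 ≤ R) (y : ℕ → ℝ) (hy : ∀ n, 0 ≤ y n ∧ y n ≤ 1)
    (hBas : ∀ N : ℕ, N0 ≤ N → BasP (N ^ R * (N + 1)) Q (K * (N : ℝ) ^ (κ + ε / 12) / (N : ℝ) ^ R)
      (C0 * ((N ^ R * (N + 1) : ℕ) : ℝ) ^ (ε / 12 / (R + 2)))
      ((Icc 1 N).image (fun n => jn (N ^ R) n (y n)))) :
    LV (fun n => (n : ℝ) + y n) κ ε := by
  obtain ⟨C3, hC3, h3⟩ := asym κ (ε / 12) K C0 Q R hκ (by positivity) (by linarith) hK hC0 hR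
  -- the threshold
  obtain ⟨N1, hN1⟩ : ∃ N1 : ℕ, ∀ N : ℕ, N1 ≤ N → 2 * C3 ≤ (N : ℝ) ^ (ε / 4) ∧ 4 ≤ (N : ℝ) ^ (ε / 3) := by
    have h1 := ((tendsto_rpow_atTop (by positivity : 0 < ε / 4)).comp
      tendsto_natCast_atTop_atTop).eventually_ge_atTop (2 * C3)
    have h2 := ((tendsto_rpow_atTop (by positivity : 0 < ε / 3)).comp
      tendsto_natCast_atTop_atTop).eventually_ge_atTop 4
    obtain ⟨N1, hN1⟩ := Filter.eventually_atTop.1 (h1.and h2)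
    exact ⟨N1, fun N hN => hN1 N hN⟩
  obtain ⟨N2, hN2⟩ : ∃ N2 : ℕ, N2 = N0 + N1 + 2 := ⟨_, rfl⟩
  have hR6 : (6 : ℝ) ≤ R := by
    have : (0 : ℝ) ≤ Q := Nat.cast_nonneg _
    linarith
  have hRQ : Q + 2 ≤ R := by
    have h1 : ((Q + 2 : ℕ) : ℝ) ≤ R := by
      push_cast
      have : (0 : ℝ) ≤ Q := Nat.cast_nonneg _
      linarith
    exact_mod_cast h1
  refine ⟨723 * (2 + 1 / ε) + 2 * C3 + (N2 : ℝ) ^ Q + 1, by positivity, ?_⟩
  intro N T V a S hN hT hV ha hNV hS hsep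
  have hN1' : (1 : ℝ) ≤ N := by exact_mod_cast hN
  have hN0' : (0 : ℝ) < N := by linarith
  have hV2 : 0 < V ^ 2 := by positivity
  have hTε : 1 ≤ T ^ ε := Real.one_le_rpow hT hε.le
  have hNκ : 1 ≤ (N : ℝ) ^ κ := Real.one_le_rpow hN1' hκ
  have hN2κ : (N : ℝ) ^ (2 + κ) = (N : ℝ) ^ 2 * (N : ℝ) ^ κ := by
    rw [Real.rpow_add hN0', Real.rpow_two]
  have hX0 : 0 ≤ (N : ℝ) ^ (2 + κ) / V ^ 2 * T ^ ε := by positivity
  have hC30 : 0 ≤ 2 * C3 := by linarith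
  have hNQ : (0 : ℝ) ≤ (N2 : ℝ) ^ Q := by positivity
  have h1ε : 0 < 1 / ε := by positivity
  -- reduction
  suffices hsuf : ∃ c : ℝ, c ≤ 723 * (2 + 1 / ε) + 2 * C3 + (N2 : ℝ) ^ Q + 1 ∧
      (S.card : ℝ) ≤ c * ((N : ℝ) ^ (2 + κ) / V ^ 2 * T ^ ε) by
    obtain ⟨c, hc, hcS⟩ := hsuf
    have h4 := mul_le_mul_of_nonneg_right hc hX0
    have e : (723 * (2 + 1 / ε) + 2 * C3 + (N2 : ℝ) ^ Q + 1) * (N : ℝ) ^ (2 + κ) / V ^ 2 * T ^ ε =
      (723 * (2 + 1 / ε) + 2 * C3 + (N2 : ℝ) ^ Q + 1) * ((N : ℝ) ^ (2 + κ) / V ^ 2 * T ^ ε) := by ring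
    rw [e]
    exact hcS.trans h4
  rcases S.eq_empty_or_nonempty with hS0 | hS0
  · subst hS0
    refine ⟨0, by positivity, by simp⟩
  have hwc : 1 ≤ S.card := card_pos.2 hS0
  have hw1 : (1 : ℝ) ≤ S.card := by exact_mod_cast hwc
  have hxpos : ∀ n : ℕ, 1 ≤ n → 0 < (n : ℝ) + y n := by
    intro n hn
    have h1 : (1 : ℝ) ≤ n := by exact_mod_cast hn
    linarith [(hy n).1]
  have hD := fun t => D_norm N (fun n => (n : ℝ) + y n) hxpos a t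
  have hW : ∀ t ∈ S, 0 ≤ t ∧ t ≤ T := fun t ht => ⟨(hS t ht).1, (hS t ht).2.1⟩
  have hVW : ∀ t ∈ S, V ≤ ‖∑ n ∈ Icc 1 N, (starRingEnd ℂ) (a n) * pr t ((n : ℝ) + y n)‖ := by
    intro t ht
    rw [← hD t]
    exact (hS t ht).2.2
  have ha' : ∀ n, ‖(starRingEnd ℂ) (a n)‖ ≤ 1 := fun n => by rw [Complex.norm_conj]; exact ha n
  have hVN : V ≤ N := by
    obtain ⟨t, ht⟩ := hS0
    refine (hVW t ht).trans ((norm_sum_le _ _).trans ?_)
    calc ∑ n ∈ Icc 1 N, ‖(starRingEnd ℂ) (a n) * pr t ((n : ℝ) + y n)‖ ≤ ∑ n ∈ Icc 1 N, (1 : ℝ) := by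
          apply sum_le_sum
          intro n _
          rw [norm_mul, pr_norm, mul_one]
          exact ha' n
      _ = N := by simp
  have hVN2 : V ^ 2 ≤ (N : ℝ) ^ 2 := pow_le_pow_left₀ hV.le hVN 2
  have hTN : T ^ ε ≤ N := by
    have h1 : (N : ℝ) * T ^ ε ≤ N * N := by
      rw [← pow_two]
      exact hNV.trans hVN2
    exact le_of_mul_le_mul_left h1 hN0'
  have hTQ : T ≤ (N : ℝ) ^ Q := by
    have h1 : T = (T ^ ε) ^ (1 / ε) := by
      rw [← Real.rpow_mul (by linarith), mul_one_div_cancel hε.ne', Real.rpow_one]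
    rw [h1]
    calc (T ^ ε) ^ (1 / ε) ≤ (N : ℝ) ^ (1 / ε) :=
          Real.rpow_le_rpow (by linarith) hTN (by positivity)
      _ ≤ (N : ℝ) ^ (Q : ℝ) := Real.rpow_le_rpow_of_exponent_le hN1' hQ
      _ = (N : ℝ) ^ Q := Real.rpow_natCast _ _
  have hcardT := sep_card T (by linarith) S hW hsep
  rcases le_or_gt (T ^ 3) N with hT3 | hT3
  · -- short intervals
    have h4 := small_T N hN T hT hT3 (fun n => (n : ℝ) + y n)
      (fun n _ => ⟨by linarith [(hy n).1], by linarith [(hy n).2]⟩) S hW hsep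
      (fun n => (starRingEnd ℂ) (a n)) ha' V hV hVW
    refine ⟨723 * (2 + 1 / ε), by linarith, ?_⟩
    have h5 : 1 + Real.log (T + 1) ≤ (2 + 1 / ε) * T ^ ε := by
      have h6 : Real.log (T + 1) ≤ Real.log (2 * T) := Real.log_le_log (by linarith) (by linarith)
      rw [Real.log_mul (by norm_num) (by linarith)] at h6
      have h7 := Real.log_two_lt_d9
      have h8 := Real.log_le_rpow_div (by linarith : (0 : ℝ) ≤ T) hε
      have h9 : (2 + 1 / ε) * T ^ ε = 2 * T ^ ε + T ^ ε / ε := by ring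
      rw [h9]
      linarith
    have h6 : V ^ 2 * (S.card : ℝ) ≤ 723 * (N : ℝ) ^ 2 * ((2 + 1 / ε) * T ^ ε) :=
      h4.trans (mul_le_mul_of_nonneg_left h5 (by positivity))
    have h7 : 723 * (2 + 1 / ε) * ((N : ℝ) ^ (2 + κ) / V ^ 2 * T ^ ε) =
        (723 * (N : ℝ) ^ (2 + κ) * ((2 + 1 / ε) * T ^ ε)) / V ^ 2 := by ring
    rw [h7, le_div_iff₀ hV2, mul_comm]
    refine h6.trans ?_
    apply mul_le_mul_of_nonneg_right _ (by positivity)
    rw [hN2κ]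
    have h8 : (0 : ℝ) ≤ (N : ℝ) ^ 2 := by positivity
    nlinarith
  · rcases lt_or_ge N N2 with hNs | hNl
    · -- small `N`
      refine ⟨(N2 : ℝ) ^ Q + 1, by linarith [mul_pos (by norm_num : (0:ℝ) < 723) (by positivity : 0 < 2 + 1 / ε)], ?_⟩
      have h4 : (N : ℝ) ^ Q ≤ (N2 : ℝ) ^ Q :=
        pow_le_pow_left₀ hN0'.le (by exact_mod_cast hNs.le) Q
      have h5 : 1 ≤ (N : ℝ) ^ (2 + κ) / V ^ 2 * T ^ ε := by
        apply one_le_mul_of_one_le_of_one_le _ hTε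
        rw [one_le_div hV2, hN2κ]
        nlinarith
      have h6 : (0 : ℝ) ≤ (N2 : ℝ) ^ Q + 1 := by positivity
      calc (S.card : ℝ) ≤ (N2 : ℝ) ^ Q + 1 := by linarith
        _ ≤ _ := le_mul_of_one_le_right h6 h5
    · -- the main range
      refine ⟨2 * C3, by linarith [mul_pos (by norm_num : (0:ℝ) < 723) (by positivity : 0 < 2 + 1 / ε)], ?_⟩
      obtain ⟨h4, h5⟩ := hN1 N (by omega)
      have hTN3 : (N : ℝ) ^ (ε / 3) ≤ T ^ ε := by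
        have h6 : (N : ℝ) ^ (ε / 3) ≤ (T ^ 3) ^ (ε / 3) :=
          Real.rpow_le_rpow hN0'.le hT3.le (by positivity)
        refine h6.trans (le_of_eq ?_)
        rw [← Real.rpow_natCast, ← Real.rpow_mul (by linarith)]
        congr 1
        push_cast
        ring
      have hV4 : 4 * (N : ℝ) ≤ V ^ 2 := by
        refine le_trans ?_ hNV
        nlinarith
      have hMbig : 2 * N ^ (Q + 1) ≤ N ^ R := by
        calc 2 * N ^ (Q + 1) ≤ N * N ^ (Q + 1) := Nat.mul_le_mul_right _ (by omega)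
          _ = N ^ (Q + 2) := by ring
          _ ≤ N ^ R := Nat.pow_le_pow_right (by omega) hRQ
      have hri := round_ineq N (N ^ R) Q hN (Nat.one_le_pow _ _ hN) hMbig y hy _ _
        (by positivity) (by positivity) (hBas N (by omega)) T (by linarith) hTQ S hW hsep hS0
        (fun n => (starRingEnd ℂ) (a n)) ha' V hV hV4 hVW
      have has := h3 N (by omega) T V S.card hT hTQ hw1 hri
      obtain ⟨w, hw⟩ : ∃ w : ℝ, w = (S.card : ℝ) := ⟨_, rfl⟩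
      rw [← hw] at has hw1 ⊢
      have h6 : 2 * (C3 * (N : ℝ) ^ (1 + ε / 12)) ≤ V ^ 2 := by
        have e1 : (N : ℝ) ^ (1 + ε / 12) = N * (N : ℝ) ^ (ε / 12) := by
          rw [Real.rpow_add hN0', Real.rpow_one]
        have e2 : (N : ℝ) ^ (ε / 4) * (N : ℝ) ^ (ε / 12) = (N : ℝ) ^ (ε / 3) := by
          rw [← Real.rpow_add hN0']
          congr 1
          ring
        have h7 : 2 * C3 * (N : ℝ) ^ (ε / 12) ≤ T ^ ε := by
          refine le_trans ?_ hTN3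
          rw [← e2]
          exact mul_le_mul_of_nonneg_right h4 (by positivity)
        calc 2 * (C3 * (N : ℝ) ^ (1 + ε / 12)) = N * (2 * C3 * (N : ℝ) ^ (ε / 12)) := by rw [e1]; ring
          _ ≤ N * T ^ ε := mul_le_mul_of_nonneg_left h7 hN0'.le
          _ ≤ _ := hNV
      obtain ⟨X, hX⟩ : ∃ X : ℝ, X = (N : ℝ) ^ (1 + κ + 2 * (ε / 12)) := ⟨_, rfl⟩
      rw [← hX] at has
      have h7 : V ^ 2 * w ≤ 2 * (C3 * (N : ℝ) ^ (1 + ε / 12)) * X := by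
        have h8 : 2 * (C3 * (N : ℝ) ^ (1 + ε / 12)) * w ≤ V ^ 2 * w :=
          mul_le_mul_of_nonneg_right h6 (by linarith)
        linarith
      have h8 : (N : ℝ) ^ (1 + ε / 12) * X ≤ (N : ℝ) ^ (2 + κ) * T ^ ε := by
        have e3 : (N : ℝ) ^ (1 + ε / 12) * X = (N : ℝ) ^ (2 + κ) * (N : ℝ) ^ (ε / 4) := by
          rw [hX, ← Real.rpow_add hN0', ← Real.rpow_add hN0']
          congr 1
          ring
        rw [e3]
        apply mul_le_mul_of_nonneg_left _ (by positivity)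
        refine le_trans ?_ hTN3
        exact Real.rpow_le_rpow_of_exponent_le hN1' (by linarith)
      have e4 : 2 * C3 * ((N : ℝ) ^ (2 + κ) / V ^ 2 * T ^ ε) =
          (2 * C3 * ((N : ℝ) ^ (2 + κ) * T ^ ε)) / V ^ 2 := by ring
      rw [e4, le_div_iff₀ hV2, mul_comm]
      refine h7.trans ?_
      have := mul_le_mul_of_nonneg_left h8 hC30
      linarith

end Pool.Agent.V7H89.PI
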