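import Pool.Agent.Y959.Rs.RealB

set_option autoImplicit false

/-!
# Sets of frequencies with a density bound

The deterministic part of the method for a set `I` of frequencies in `F` which meets every superlevel
set of every short sum in at most the expected number of points: `p` is an upper bound for the probability
that a given element of `F` is chosen.
-/

namespace Pool.Agent.V7H89.PI

open Finset Pool.Agent.TH705.DL Pool.Agent.Y959.Her Pool.Agent.Y959.Smp Pool.Agent.Y959.Rs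

variable {ι : Type*}

open Classical in
/-- the good sets of frequencies -/
def GoodP (F : Finset ℕ) (e : ι → ℕ → ℂ) (p Lam : ℝ) (I : Finset ℕ) : Prop :=
  ∀ (m : ℕ) (c : Fin m → ι × Fin 4) (v : ℝ), 1 ≤ m →
    ((I.filter (fun n => v ≤ ‖gsum e c n‖)).card : ℝ) ≤
      9 * (p * ((F.filter (fun n => v ≤ ‖gsum e c n‖)).card : ℝ)) + m * Lam + 1

open Classical in
/-- one level -/
theorem levelP (F : Finset ℕ) (hF : F.Nonempty) (e : ι → ℕ → ℂ) (he : ∀ i, ∀ n ∈ F, ‖e i n‖ ≤ 1)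
    (p : ℝ) (hp : 0 ≤ p) (Lam : ℝ) (hLam : 0 ≤ Lam) (I : Finset ℕ) (hIF : I ⊆ F)
    (hI : GoodP F e p Lam I) (W : Finset ι) (hW : W.Nonempty) (b : ι → Fin 4) (u : ℝ) (hu : 0 < u) :
    u ^ 2 * ((I.filter (fun n => u ≤ ‖∑ i ∈ W, phs (b i) * e i n‖)).card : ℝ) ≤
      36 * (p * ∑ n ∈ F, ‖∑ i ∈ W, phs (b i) * e i n‖ ^ 2) +
        272 * (W.card : ℝ) ^ 2 * Real.log (4 * F.card) * Lam + u ^ 2 * (Lam + 1) := by
  have hwc : (0 : ℝ) < W.card := by exact_mod_cast card_pos.2 hW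
  have hFc : (1 : ℝ) ≤ F.card := by exact_mod_cast card_pos.2 hF
  have hℓ0 : 0 < Real.log (4 * F.card) := Real.log_pos (by linarith)
  obtain ⟨ℓ, hℓd⟩ : ∃ ℓ, ℓ = Real.log (4 * F.card) := ⟨_, rfl⟩
  rw [← hℓd] at hℓ0 ⊢
  obtain ⟨f, hf⟩ : ∃ f : ℕ → ℂ, f = fun n => ∑ i ∈ W, phs (b i) * e i n := ⟨_, rfl⟩
  have hf' : ∀ n, ∑ i ∈ W, phs (b i) * e i n = f n := fun n => by rw [hf]
  simp only [hf']
  -- the length of the sample
  obtain ⟨m, hmd⟩ : ∃ m : ℕ, m = ⌈272 * (W.card : ℝ) ^ 2 * ℓ / u ^ 2⌉₊ := ⟨_, rfl⟩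
  have hm1 : 1 ≤ m := by
    rw [hmd]
    exact Nat.one_le_ceil_iff.2 (by positivity)
  have hm0 : (0 : ℝ) < m := by exact_mod_cast hm1
  have hmge : 272 * (W.card : ℝ) ^ 2 * ℓ ≤ m * u ^ 2 := by
    have h1 : 272 * (W.card : ℝ) ^ 2 * ℓ / u ^ 2 ≤ m := by rw [hmd]; exact Nat.le_ceil _
    rwa [div_le_iff₀ (by positivity)] at h1
  have hmle : m * u ^ 2 ≤ 272 * (W.card : ℝ) ^ 2 * ℓ + u ^ 2 := by
    have h1 : (m : ℝ) < 272 * (W.card : ℝ) ^ 2 * ℓ / u ^ 2 + 1 := by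
      rw [hmd]
      exact Nat.ceil_lt_add_one (by positivity)
    have h2 := mul_le_mul_of_nonneg_right h1.le (sq_nonneg u)
    have h3 : (272 * (W.card : ℝ) ^ 2 * ℓ / u ^ 2 + 1) * u ^ 2 = 272 * (W.card : ℝ) ^ 2 * ℓ + u ^ 2 := by
      rw [add_mul, div_mul_cancel₀ _ (by positivity), one_mul]
    linarith
  obtain ⟨s, hs, hs2⟩ := maurey W hW F hF (fun i n => phs (b i) * e i n) (fun i _ n hn => by
    rw [norm_mul, (phs_isPh _).norm, one_mul]; exact he i n hn) m hm1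
  -- the code
  obtain ⟨c, hc⟩ : ∃ c : Fin m → ι × Fin 4, c = fun l : Fin m => (s (l : ℕ), b (s (l : ℕ))) := ⟨_, rfl⟩
  have hg : ∀ n, gsum e c n = ∑ l ∈ range m, phs (b (s l)) * e (s l) n := by
    intro n
    unfold gsum
    rw [hc, ← Fin.sum_univ_eq_sum_range (fun l => phs (b (s l)) * e (s l) n)]
  obtain ⟨κ, hκ⟩ : ∃ κ : ℝ, κ = (m : ℝ) / W.card := ⟨_, rfl⟩
  have hκ0 : 0 < κ := by rw [hκ]; positivity
  have happ : ∀ n ∈ F, ‖gsum e c n - (κ : ℂ) * f n‖ ≤ κ * u / 4 := by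
    intro n hn
    rw [hg, ← hf', hκ]
    refine (hs2 n hn).trans ?_
    rw [← hℓd]
    apply Real.sqrt_le_iff.2
    refine ⟨by positivity, ?_⟩
    have h1 : ((m : ℝ) / W.card * u / 4) ^ 2 = (m * u ^ 2) * m / (16 * (W.card : ℝ) ^ 2) := by
      field_simp
      ring
    rw [h1, le_div_iff₀ (by positivity)]
    nlinarith [mul_le_mul_of_nonneg_right hmge hm0.le]
  have hκf : ∀ n, ‖(κ : ℂ) * f n‖ = κ * ‖f n‖ := by
    intro n
    rw [norm_mul, Complex.norm_real, Real.norm_of_nonneg hκ0.le]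
  have hG := hI m c (3 / 4 * κ * u) hm1
  have hsub1 : I.filter (fun n => u ≤ ‖f n‖) ⊆ I.filter (fun n => 3 / 4 * κ * u ≤ ‖gsum e c n‖) := by
    intro n hn
    rw [mem_filter] at hn ⊢
    refine ⟨hn.1, ?_⟩
    have h1 := happ n (hIF hn.1)
    have h2 : κ * u ≤ ‖(κ : ℂ) * f n‖ := by
      rw [hκf]
      exact mul_le_mul_of_nonneg_left hn.2 hκ0.le
    have h3 := norm_sub_norm_le ((κ : ℂ) * f n) (gsum e c n)
    rw [norm_sub_rev] at h3
    linarith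
  have hsub2 : F.filter (fun n => 3 / 4 * κ * u ≤ ‖gsum e c n‖) ⊆ F.filter (fun n => u / 2 ≤ ‖f n‖) := by
    intro n hn
    rw [mem_filter] at hn ⊢
    refine ⟨hn.1, ?_⟩
    have h1 := happ n hn.1
    have h3 := norm_sub_norm_le (gsum e c n) ((κ : ℂ) * f n)
    rw [hκf] at h3
    have h4 : κ * (u / 2) ≤ κ * ‖f n‖ := by linarith [hn.2]
    exact le_of_mul_le_mul_left h4 hκ0
  have h1 : ((I.filter (fun n => u ≤ ‖f n‖)).card : ℝ) ≤
      9 * (p * ((F.filter (fun n => u / 2 ≤ ‖f n‖)).card : ℝ)) + m * Lam + 1 := by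
    have h2 : ((I.filter (fun n => u ≤ ‖f n‖)).card : ℝ) ≤
        ((I.filter (fun n => 3 / 4 * κ * u ≤ ‖gsum e c n‖)).card : ℝ) := by
      exact_mod_cast card_le_card hsub1
    have h3 : ((F.filter (fun n => 3 / 4 * κ * u ≤ ‖gsum e c n‖)).card : ℝ) ≤
        ((F.filter (fun n => u / 2 ≤ ‖f n‖)).card : ℝ) := by
      exact_mod_cast card_le_card hsub2
    have h4 : 9 * (p * ((F.filter (fun n => 3 / 4 * κ * u ≤ ‖gsum e c n‖)).card : ℝ)) ≤
        9 * (p * ((F.filter (fun n => u / 2 ≤ ‖f n‖)).card : ℝ)) := by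
      apply mul_le_mul_of_nonneg_left _ (by norm_num)
      exact mul_le_mul_of_nonneg_left h3 (by positivity)
    linarith
  have h2 : u ^ 2 * ((F.filter (fun n => u / 2 ≤ ‖f n‖)).card : ℝ) ≤ 4 * ∑ n ∈ F, ‖f n‖ ^ 2 := by
    calc u ^ 2 * ((F.filter (fun n => u / 2 ≤ ‖f n‖)).card : ℝ)
        = ∑ n ∈ F.filter (fun n => u / 2 ≤ ‖f n‖), u ^ 2 := by rw [sum_const, nsmul_eq_mul]; ring
      _ ≤ ∑ n ∈ F.filter (fun n => u / 2 ≤ ‖f n‖), 4 * ‖f n‖ ^ 2 := by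
          apply sum_le_sum
          intro n hn
          have h3 := (mem_filter.1 hn).2
          have h4 : (u / 2) ^ 2 ≤ ‖f n‖ ^ 2 := pow_le_pow_left₀ (by positivity) h3 2
          linarith
      _ ≤ ∑ n ∈ F, 4 * ‖f n‖ ^ 2 :=
          sum_le_sum_of_subset_of_nonneg (filter_subset _ _) (fun _ _ _ => by positivity)
      _ = 4 * ∑ n ∈ F, ‖f n‖ ^ 2 := by rw [mul_sum]
  have h3 := mul_le_mul_of_nonneg_left h1 (sq_nonneg u)
  refine h3.trans ?_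
  have h4 : u ^ 2 * (9 * (p * ((F.filter (fun n => u / 2 ≤ ‖f n‖)).card : ℝ))) ≤
      36 * (p * ∑ n ∈ F, ‖f n‖ ^ 2) := by
    have h5 : (0 : ℝ) ≤ p := hp
    have h6 := mul_le_mul_of_nonneg_left h2 h5
    calc u ^ 2 * (9 * (p * ((F.filter (fun n => u / 2 ≤ ‖f n‖)).card : ℝ)))
        = 9 * (p * (u ^ 2 * ((F.filter (fun n => u / 2 ≤ ‖f n‖)).card : ℝ))) := by ring
      _ ≤ 9 * (p * (4 * ∑ n ∈ F, ‖f n‖ ^ 2)) := by linarith
      _ = _ := by ring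
  have h5 : u ^ 2 * (m * Lam) ≤ (272 * (W.card : ℝ) ^ 2 * ℓ + u ^ 2) * Lam := by
    have := mul_le_mul_of_nonneg_right hmle hLam
    linarith
  nlinarith

open Classical in
/-- **The mean square over a good set of frequencies.** -/
theorem main_detP (F : Finset ℕ) (hF : F.Nonempty) (e : ι → ℕ → ℂ) (he : ∀ i, ∀ n ∈ F, ‖e i n‖ ≤ 1)
    (p : ℝ) (hp : 0 ≤ p) (Lam : ℝ) (hLam : 0 ≤ Lam) (I : Finset ℕ) (hIF : I ⊆ F)
    (hI : GoodP F e p Lam I) (W : Finset ι) (hW : W.Nonempty) (b : ι → Fin 4) :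
    ∑ n ∈ I, ‖∑ i ∈ W, phs (b i) * e i n‖ ^ 2 ≤
      4 * (36 * (p * ∑ n ∈ F, ‖∑ i ∈ W, phs (b i) * e i n‖ ^ 2) +
        273 * (W.card : ℝ) ^ 2 * Real.log (4 * F.card) * (Lam + 1)) *
        ((Nat.log 2 W.card : ℝ) + 2) + I.card := by
  have hwc : (1 : ℝ) ≤ W.card := by exact_mod_cast card_pos.2 hW
  have hFc : (1 : ℝ) ≤ F.card := by exact_mod_cast card_pos.2 hF
  have hℓ1 : 1 ≤ Real.log (4 * F.card) := by
    rw [Real.le_log_iff_exp_le (by linarith)]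
    have := Real.exp_one_lt_d9
    linarith
  obtain ⟨f, hf⟩ : ∃ f : ℕ → ℂ, f = fun n => ∑ i ∈ W, phs (b i) * e i n := ⟨_, rfl⟩
  have hf' : ∀ n, ∑ i ∈ W, phs (b i) * e i n = f n := fun n => by rw [hf]
  have hfw : ∀ n ∈ I, ‖f n‖ ≤ W.card := by
    intro n hn
    rw [← hf']
    refine (norm_sum_le _ _).trans ?_
    calc ∑ i ∈ W, ‖phs (b i) * e i n‖ ≤ ∑ i ∈ W, (1 : ℝ) := by
          apply sum_le_sum
          intro i _
          rw [norm_mul, (phs_isPh _).norm, one_mul]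
          exact he i n (hIF hn)
      _ = W.card := by simp
  simp only [hf']
  obtain ⟨A0, hA0⟩ : ∃ A0 : ℝ, A0 = 36 * (p * ∑ n ∈ F, ‖f n‖ ^ 2) +
        273 * (W.card : ℝ) ^ 2 * Real.log (4 * F.card) * (Lam + 1) := ⟨_, rfl⟩
  rw [← hA0]
  have hSf : 0 ≤ ∑ n ∈ F, ‖f n‖ ^ 2 := sum_nonneg fun _ _ => sq_nonneg _
  have hA00 : 0 ≤ A0 := by
    rw [hA0]
    have h1 : 0 ≤ p := hp
    have h2 : 0 ≤ (W.card : ℝ) ^ 2 * Real.log (4 * F.card) * (Lam + 1) :=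
      mul_nonneg (mul_nonneg (sq_nonneg _) (by linarith)) (by linarith)
    have h3 := mul_nonneg h1 hSf
    linarith
  have hlev : ∀ u, 1 ≤ u → u ^ 2 * ((I.filter (fun n => u ≤ ‖f n‖)).card : ℝ) ≤ A0 := by
    intro u hu
    rcases le_or_gt u W.card with h1 | h1
    · have h2 := levelP F hF e he p hp Lam hLam I hIF hI W hW b u (by linarith)
      simp only [hf'] at h2
      refine h2.trans ?_
      rw [hA0]
      have h3 : u ^ 2 * (Lam + 1) ≤ (W.card : ℝ) ^ 2 * Real.log (4 * F.card) * (Lam + 1) := by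
        apply mul_le_mul_of_nonneg_right _ (by linarith)
        have h4 : u ^ 2 ≤ (W.card : ℝ) ^ 2 := pow_le_pow_left₀ (by linarith) h1 2
        nlinarith [sq_nonneg (W.card : ℝ)]
      have h5 : 272 * (W.card : ℝ) ^ 2 * Real.log (4 * F.card) * Lam ≤
          272 * (W.card : ℝ) ^ 2 * Real.log (4 * F.card) * (Lam + 1) := by
        apply mul_le_mul_of_nonneg_left (by linarith)
        exact mul_nonneg (mul_nonneg (by norm_num) (sq_nonneg _)) (by linarith)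
      linarith
    · have h2 : I.filter (fun n => u ≤ ‖f n‖) = ∅ := by
        rw [filter_eq_empty_iff]
        intro n hn
        push Not
        exact lt_of_le_of_lt (hfw n hn) h1
      rw [h2]
      simpa using hA00
  have hmax : ∀ n ∈ I, ‖f n‖ ≤ 2 ^ (Nat.log 2 W.card + 1) * 1 := by
    intro n hn
    rw [mul_one]
    refine (hfw n hn).trans ?_
    have h1 : W.card < 2 ^ (Nat.log 2 W.card + 1) := Nat.lt_pow_succ_log_self (by norm_num) _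
    exact_mod_cast h1.le
  have hdy := dyadic I (fun n => ‖f n‖) 1 A0 one_pos (Nat.log 2 W.card + 1) hmax hlev
  have hsmall : ∑ n ∈ I.filter (fun n => ¬ (1 : ℝ) ≤ ‖f n‖), ‖f n‖ ^ 2 ≤ I.card := by
    calc ∑ n ∈ I.filter (fun n => ¬ (1 : ℝ) ≤ ‖f n‖), ‖f n‖ ^ 2
        ≤ ∑ n ∈ I.filter (fun n => ¬ (1 : ℝ) ≤ ‖f n‖), (1 : ℝ) := by
          apply sum_le_sum
          intro n hn
          have h1 := (mem_filter.1 hn).2
          push Not at h1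
          exact pow_le_one₀ (norm_nonneg _) h1.le
      _ = ((I.filter (fun n => ¬ (1 : ℝ) ≤ ‖f n‖)).card : ℝ) := by simp
      _ ≤ I.card := by exact_mod_cast card_filter_le _ _
  rw [← sum_filter_add_sum_filter_not I (fun n => (1 : ℝ) ≤ ‖f n‖) (fun n => ‖f n‖ ^ 2)]
  refine add_le_add (hdy.trans (le_of_eq ?_)) hsmall
  push_cast
  ring

/-- the basic property of a random set, for separated real points -/
def BasP (N Q : ℕ) (p B : ℝ) (I : Finset ℕ) : Prop :=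
  ∀ (W : Finset ℝ) (a : ℕ → ℂ) (V : ℝ), (∀ t ∈ W, 0 ≤ t ∧ t ≤ (N : ℝ) ^ Q) → Sep W → W.Nonempty →
    0 < V → ∑ n ∈ I, ‖a n‖ ^ 2 ≤ V ^ 2 →
    (∀ t ∈ W, V ≤ ‖∑ n ∈ I, a n * ph t n‖) → ∃ b : ℝ → Fin 4,
      V ^ 2 * (W.card : ℝ) ^ 2 ≤ B * (∑ n ∈ I, ‖a n‖ ^ 2) *
        (p * ∑ n ∈ Icc 1 N, ‖∑ t ∈ W, phs (b t) * ph t n‖ ^ 2 + (W.card : ℝ) ^ 2 + I.card)


theorem basP_of_good (N Q : ℕ) (hN : 1 ≤ N) (p : ℝ) (hp0 : 0 ≤ p) (hp1 : p ≤ 1) (Lam : ℝ)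
    (hLam : 0 ≤ Lam) (I : Finset ℕ)
    (hIF : I ⊆ Icc 1 N) (hG : GoodP (Icc 1 N) (eg N Q) p Lam I) (B : ℝ)
    (hB : ∀ w : ℕ, w ≤ 4 * N ^ 2 * N ^ Q + 1 →
      12000 * (Real.log (4 * (N : ℝ)) * (Lam + 1) * ((Nat.log 2 w : ℝ) + 2)) ≤ B) :
    BasP N Q p B I := by
  classical
  obtain ⟨k, hIk⟩ : ∃ k : ℕ, I.card = k := ⟨_, rfl⟩
  have hN1 : (1 : ℝ) ≤ N := by exact_mod_cast hN
  have hN0 : (0 : ℝ) < N := by linarith
  intro W a V hW hsep hne hV hGV hVW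
  obtain ⟨G, hGd⟩ : ∃ G : ℝ, G = ∑ n ∈ I, ‖a n‖ ^ 2 := ⟨_, rfl⟩
  have hG0 : 0 ≤ G := by rw [hGd]; exact sum_nonneg fun _ _ => sq_nonneg _
  rw [← hGd] at hGV ⊢
  rw [hIk]
  have hk0 : (0 : ℝ) ≤ k := Nat.cast_nonneg _
  have hkN : (k : ℝ) ≤ N := by
    have h1 : k ≤ N := by
      rw [← hIk]
      refine (card_le_card hIF).trans ?_
      rw [Nat.card_Icc]
      omega
    exact_mod_cast h1
  have hFne : (Icc 1 N).Nonempty := ⟨1, mem_Icc.2 ⟨le_rfl, hN⟩⟩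
  have hFc : ((Icc 1 N).card : ℝ) = N := by
    rw [Nat.card_Icc, Nat.add_sub_cancel]
  have hM : (0 : ℝ) < 4 * (N : ℝ) ^ 2 := by positivity
  have hlogN : Real.log N ≤ N := by
    have := Real.log_le_sub_one_of_pos hN0
    linarith
  have hlogN0 : 0 ≤ Real.log N := Real.log_nonneg hN1
  obtain ⟨ρ, hρ⟩ : ∃ ρ : ℝ → ℝ, ρ = fun t => (((rd N Q t : ℕ) : ℝ) / (4 * (N : ℝ) ^ 2)) := ⟨_, rfl⟩
  -- the change of the exponentials
  have hch : ∀ t ∈ W, ∀ n ∈ Icc 1 N, ‖ph t n - ph (ρ t) n‖ ≤ 1 / (4 * N) := by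
    intro t ht n hn
    have hn1 := (mem_Icc.1 hn).1
    have hn2 := (mem_Icc.1 hn).2
    refine (ph_lip t (ρ t) n hn1).trans ?_
    have h1 : |t - ρ t| ≤ 1 / (4 * (N : ℝ) ^ 2) := by
      rw [hρ]
      exact rd_close N Q hN t (hW t ht).1 (hW t ht).2
    have h2 : Real.log n ≤ N := by
      have h3 : Real.log n ≤ Real.log N := by
        apply Real.log_le_log (by exact_mod_cast hn1)
        exact_mod_cast hn2
      linarith
    have h4 : 0 ≤ Real.log n := Real.log_nonneg (by exact_mod_cast hn1)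
    calc |t - ρ t| * Real.log n ≤ 1 / (4 * (N : ℝ) ^ 2) * N := mul_le_mul h1 h2 h4 (by positivity)
      _ = 1 / (4 * N) := by
          field_simp
  obtain ⟨W', hW'⟩ : ∃ W' : Finset (Fin (4 * N ^ 2 * N ^ Q + 1)), W' = W.image (rd N Q) := ⟨_, rfl⟩
  have hinj := rd_inj N Q hN W hW hsep
  have hcard : W'.card = W.card := by
    rw [hW']
    exact card_image_of_injOn hinj
  have hW'ne : W'.Nonempty := by
    rw [hW']
    exact hne.image _
  -- the large values at the grid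
  have hVg : ∀ i ∈ W', 3 / 4 * V ≤ ‖∑ n ∈ I, a n * eg N Q i n‖ := by
    intro i hi
    rw [hW', mem_image] at hi
    obtain ⟨t, ht, rfl⟩ := hi
    have h1 := hVW t ht
    have h2 : ‖∑ n ∈ I, a n * ph t n - ∑ n ∈ I, a n * eg N Q (rd N Q t) n‖ ≤ V / 4 := by
      rw [← sum_sub_distrib]
      have h3 : ‖∑ n ∈ I, (a n * ph t n - a n * eg N Q (rd N Q t) n)‖ ≤
          ∑ n ∈ I, ‖a n‖ * (1 / (4 * N)) := by
        refine (norm_sum_le _ _).trans (sum_le_sum fun n hn => ?_)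
        rw [← mul_sub, norm_mul]
        apply mul_le_mul_of_nonneg_left _ (norm_nonneg _)
        have h4 := hch t ht n (hIF hn)
        rw [hρ] at h4
        exact h4
      rw [← sum_mul] at h3
      have h4 : (∑ n ∈ I, ‖a n‖) ^ 2 ≤ ((N : ℝ) * V) ^ 2 := by
        have h5 := sq_sum_le_card_mul_sum_sq (s := I) (f := fun n => ‖a n‖)
        rw [hIk, ← hGd] at h5
        refine h5.trans ?_
        calc (k : ℝ) * G ≤ N * V ^ 2 := mul_le_mul hkN hGV hG0 hN0.le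
          _ ≤ ((N : ℝ) * V) ^ 2 := by
              rw [mul_pow]
              apply mul_le_mul_of_nonneg_right _ (sq_nonneg _)
              nlinarith
      have h5 : ∑ n ∈ I, ‖a n‖ ≤ N * V := by
        have := abs_le_of_sq_le_sq' h4 (by positivity)
        exact this.2
      calc _ ≤ (∑ n ∈ I, ‖a n‖) * (1 / (4 * N)) := h3
        _ ≤ (N * V) * (1 / (4 * N)) := mul_le_mul_of_nonneg_right h5 (by positivity)
        _ = V / 4 := by
            field_simp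
    have h3 := norm_sub_norm_le (∑ n ∈ I, a n * ph t n) (∑ n ∈ I, a n * eg N Q (rd N Q t) n)
    linarith
  obtain ⟨b', hb'⟩ := dual_bound (eg N Q) I a (3 / 4 * V) W' (by positivity) hVg
  have hmd := main_detP (Icc 1 N) hFne (eg N Q) (fun i n _ => (ph_norm _ _).le) p hp0 Lam hLam I hIF
    hG W' hW'ne b'
  rw [hIk] at hmd
  rw [hcard] at hb' hmd
  rw [hFc] at hmd
  rw [← hGd] at hb'
  refine ⟨fun t => b' (rd N Q t), ?_⟩
  obtain ⟨S, hS⟩ : ∃ S : ℝ, S = ∑ n ∈ Icc 1 N, ‖∑ t ∈ W, phs (b' (rd N Q t)) * ph t n‖ ^ 2 := ⟨_, rfl⟩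
  rw [← hS]
  have hS0 : 0 ≤ S := by rw [hS]; exact sum_nonneg fun _ _ => sq_nonneg _
  obtain ⟨w, hw⟩ : ∃ w : ℝ, w = (W.card : ℝ) := ⟨_, rfl⟩
  have hw0 : 0 ≤ w := by rw [hw]; exact Nat.cast_nonneg _
  -- comparison of the sums over all frequencies
  have hSS : ∑ n ∈ Icc 1 N, ‖∑ i ∈ W', phs (b' i) * eg N Q i n‖ ^ 2 ≤ 2 * S + w ^ 2 := by
    have h1 : ∀ n ∈ Icc 1 N, ‖∑ i ∈ W', phs (b' i) * eg N Q i n‖ ^ 2 ≤
        2 * ‖∑ t ∈ W, phs (b' (rd N Q t)) * ph t n‖ ^ 2 + w ^ 2 / N := by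
      intro n hn
      have h2 : ∑ i ∈ W', phs (b' i) * eg N Q i n =
          ∑ t ∈ W, phs (b' (rd N Q t)) * eg N Q (rd N Q t) n := by
        rw [hW', sum_image hinj]
      have h3 : ‖∑ t ∈ W, phs (b' (rd N Q t)) * eg N Q (rd N Q t) n -
          ∑ t ∈ W, phs (b' (rd N Q t)) * ph t n‖ ≤ w * (1 / (4 * N)) := by
        rw [← sum_sub_distrib]
        refine (norm_sum_le _ _).trans ?_
        calc ∑ t ∈ W, ‖phs (b' (rd N Q t)) * eg N Q (rd N Q t) n - phs (b' (rd N Q t)) * ph t n‖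
            ≤ ∑ t ∈ W, 1 / (4 * (N : ℝ)) := by
              apply sum_le_sum
              intro t ht
              rw [← mul_sub, norm_mul, (phs_isPh _).norm, one_mul, norm_sub_rev]
              have h4 := hch t ht n hn
              rw [hρ] at h4
              exact h4
          _ = w * (1 / (4 * N)) := by rw [sum_const, nsmul_eq_mul, hw]
      rw [h2]
      obtain ⟨x, hx⟩ : ∃ x : ℝ, x = ‖∑ t ∈ W, phs (b' (rd N Q t)) * eg N Q (rd N Q t) n‖ := ⟨_, rfl⟩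
      obtain ⟨y, hy⟩ : ∃ y : ℝ, y = ‖∑ t ∈ W, phs (b' (rd N Q t)) * ph t n‖ := ⟨_, rfl⟩
      have h4 := norm_sub_norm_le (∑ t ∈ W, phs (b' (rd N Q t)) * eg N Q (rd N Q t) n)
        (∑ t ∈ W, phs (b' (rd N Q t)) * ph t n)
      rw [← hx, ← hy] at h4 ⊢
      have hx0 : 0 ≤ x := by rw [hx]; exact norm_nonneg _
      have hy0 : 0 ≤ y := by rw [hy]; exact norm_nonneg _
      have h5 : x ≤ y + w * (1 / (4 * N)) := by linarith
      have h6 : x ^ 2 ≤ (y + w * (1 / (4 * N))) ^ 2 := pow_le_pow_left₀ hx0 h5 2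
      have h7 : (y + w * (1 / (4 * N))) ^ 2 ≤ 2 * y ^ 2 + 2 * (w * (1 / (4 * N))) ^ 2 := by
        nlinarith [sq_nonneg (y - w * (1 / (4 * N)))]
      have h8 : 2 * (w * (1 / (4 * (N : ℝ)))) ^ 2 ≤ w ^ 2 / N := by
        have h9 : 2 * (w * (1 / (4 * (N : ℝ)))) ^ 2 = w ^ 2 / (8 * (N : ℝ) ^ 2) := by
          field_simp
          ring
        rw [h9]
        apply div_le_div_of_nonneg_left (sq_nonneg _) hN0
        nlinarith
      linarith
    refine (sum_le_sum h1).trans ?_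
    rw [sum_add_distrib, ← mul_sum, ← hS, sum_const, nsmul_eq_mul, hFc]
    have : (N : ℝ) * (w ^ 2 / N) = w ^ 2 := by
      field_simp
    linarith
  rw [← hw] at hb' hmd ⊢
  obtain ⟨g, hg⟩ : ∃ g : ℝ, g = (Nat.log 2 W.card : ℝ) + 2 := ⟨_, rfl⟩
  obtain ⟨ℓ, hℓ⟩ : ∃ ℓ : ℝ, ℓ = Real.log (4 * (N : ℝ)) := ⟨_, rfl⟩
  have hwle : W.card ≤ 4 * N ^ 2 * N ^ Q + 1 := by
    rw [← hcard]
    have := card_le_univ W'
    rwa [Fintype.card_fin] at this
  have hBw := hB W.card hwle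
  rw [← hg, ← hℓ] at hmd hBw
  have hg1 : 1 ≤ g := by
    rw [hg]
    have : (0 : ℝ) ≤ (Nat.log 2 W.card : ℝ) := Nat.cast_nonneg _
    linarith
  have hℓ1 : 1 ≤ ℓ := by
    rw [hℓ, Real.le_log_iff_exp_le (by positivity)]
    have := Real.exp_one_lt_d9
    linarith
  obtain ⟨P, hP⟩ : ∃ P : ℝ, P = ℓ * (Lam + 1) * g := ⟨_, rfl⟩
  have hM1 : 1 ≤ ℓ * (Lam + 1) := one_le_mul_of_one_le_of_one_le hℓ1 (by linarith)
  have hP1 : 1 ≤ P := by rw [hP]; exact one_le_mul_of_one_le_of_one_le hM1 hg1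
  have hgP : g ≤ P := by
    rw [hP]
    exact le_mul_of_one_le_left (by linarith) hM1
  have h1 : p * ∑ n ∈ Icc 1 N, ‖∑ i ∈ W', phs (b' i) * eg N Q i n‖ ^ 2 ≤ 2 * (p * S) + w ^ 2 := by
    have h2 := mul_le_mul_of_nonneg_left hSS hp0
    have h3 : p * w ^ 2 ≤ w ^ 2 := mul_le_of_le_one_left (sq_nonneg _) hp1
    linarith
  have h2 : ∑ n ∈ I, ‖∑ i ∈ W', phs (b' i) * eg N Q i n‖ ^ 2 ≤ 1236 * P * (p * S + w ^ 2 + k) := by
    refine hmd.trans ?_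
    have hpS : 0 ≤ p * S := mul_nonneg hp0 hS0
    have h3 : 36 * (p * ∑ n ∈ Icc 1 N, ‖∑ i ∈ W', phs (b' i) * eg N Q i n‖ ^ 2) ≤
        72 * (p * S) + 36 * w ^ 2 := by linarith
    have h4 : 4 * (36 * (p * ∑ n ∈ Icc 1 N, ‖∑ i ∈ W', phs (b' i) * eg N Q i n‖ ^ 2) +
        273 * w ^ 2 * ℓ * (Lam + 1)) * g ≤
        4 * (72 * (p * S) + 36 * w ^ 2 + 273 * w ^ 2 * ℓ * (Lam + 1)) * g := by
      apply mul_le_mul_of_nonneg_right _ (by linarith)
      linarith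
    have h5 : 4 * (72 * (p * S) + 36 * w ^ 2 + 273 * w ^ 2 * ℓ * (Lam + 1)) * g =
        288 * ((p * S) * g) + 144 * (w ^ 2 * g) + 1092 * (w ^ 2 * P) := by
      rw [hP]
      ring
    have h6 : (p * S) * g ≤ (p * S) * P := mul_le_mul_of_nonneg_left hgP hpS
    have h7 : w ^ 2 * g ≤ w ^ 2 * P := mul_le_mul_of_nonneg_left hgP (sq_nonneg _)
    have h8 : (k : ℝ) ≤ k * P := le_mul_of_one_le_right hk0 hP1
    have h9 : 0 ≤ (p * S) * P := mul_nonneg hpS (by linarith)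
    have h10 : 0 ≤ k * P := mul_nonneg hk0 (by linarith)
    linarith
  have h3 : 0 ≤ p * S + w ^ 2 + k := by
    have := mul_nonneg hp0 hS0
    have := sq_nonneg w
    linarith
  have h4 := mul_le_mul_of_nonneg_left h2 (by positivity : 0 ≤ 100 / 49 * G)
  have h5 : (3 / 4 * V) ^ 2 * w ^ 2 = 9 / 16 * (V ^ 2 * w ^ 2) := by ring
  rw [h5] at hb'
  have h6 : V ^ 2 * w ^ 2 ≤ 16 / 9 * (100 / 49 * G * (1236 * P * (p * S + w ^ 2 + k))) := by linarith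
  refine h6.trans ?_
  have h7 : 16 / 9 * (100 / 49 * G * (1236 * P * (p * S + w ^ 2 + k))) =
      (16 / 9 * (100 / 49) * 1236 * P) * (G * (p * S + w ^ 2 + k)) := by ring
  have h8 : B * G * (p * S + w ^ 2 + k) = B * (G * (p * S + w ^ 2 + k)) := by ring
  rw [h7, h8]
  apply mul_le_mul_of_nonneg_right _ (mul_nonneg hG0 h3)
  rw [← hP] at hBw
  linarith

end Pool.Agent.V7H89.PI
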