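import Pool.Agent.V7H89.PI.Det

set_option autoImplicit false

/-!
# Random sets with one point in every block

`J n` is a random integer of the block `[M n, M (n + 1))`, the `J n` are independent and no value has
probability more than `p`. With probability at least `1 - δ` the random set is good for all short sums.
-/

namespace Pool.Agent.V7H89.PI

open Finset MeasureTheory ProbabilityTheory Pool.Agent.TH705.DL Pool.Agent.Y959.Her
  Pool.Agent.Y959.Smp Pool.Agent.Y959.Rs

variable {Ω : Type*} [MeasurableSpace Ω] {P : Measure Ω}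

/-- the random set -/
def IS (J : ℕ → Ω → ℕ) (N : ℕ) (ω : Ω) : Finset ℕ := (Icc 1 N).image (fun n => J n ω)

theorem sub_prob (N M : ℕ) (J : ℕ → Ω → ℕ) (hJ : ∀ n ω, J n ω / M = n) (hind : iIndepFun J P)
    (p : ENNReal) (hp : ∀ n ∈ Icc 1 N, ∀ i, P {ω | J n ω = i} ≤ p) (Q : Finset ℕ) :
    P {ω | Q ⊆ IS J N ω} ≤ p ^ Q.card := by
  classical
  by_cases h : (∀ q ∈ Q, q / M ∈ Icc 1 N) ∧ Set.InjOn (fun q => q / M) (Q : Set ℕ)
  · obtain ⟨h1, h2⟩ := h
    have hsub : {ω | Q ⊆ IS J N ω} ⊆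
        ⋂ n ∈ Q.image (fun q => q / M), J n ⁻¹' {i | i ∈ Q ∧ i / M = n} := by
      intro ω hω
      rw [Set.mem_iInter₂]
      intro n hn
      rw [mem_image] at hn
      obtain ⟨q, hq, hqn⟩ := hn
      have h3 := hω hq
      unfold IS at h3
      rw [mem_image] at h3
      obtain ⟨n', _, hn'⟩ := h3
      have h4 := hJ n' ω
      rw [hn', hqn] at h4
      rw [Set.mem_preimage, h4, hn']
      exact ⟨hq, by rw [← h4]; exact hqn⟩
    refine (measure_mono hsub).trans ?_
    rw [hind.measure_inter_preimage_eq_mul _ (fun i _ => MeasurableSet.of_discrete), prod_image h2]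
    calc ∏ q ∈ Q, P (J (q / M) ⁻¹' {i | i ∈ Q ∧ i / M = q / M}) ≤ ∏ q ∈ Q, p := by
          apply prod_le_prod' 
          intro q hq
          refine (measure_mono ?_).trans (hp (q / M) (h1 q hq) q)
          intro ω hω
          exact h2 hω.1 hq hω.2
      _ = p ^ Q.card := prod_const _
  · have h3 : {ω | Q ⊆ IS J N ω} = ∅ := by
      rw [Set.eq_empty_iff_forall_notMem]
      intro ω hω
      apply h
      have key : ∀ q ∈ Q, q / M ∈ Icc 1 N ∧ J (q / M) ω = q := by
        intro q hq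
        have h3 := hω hq
        unfold IS at h3
        rw [mem_image] at h3
        obtain ⟨n', hn, hn'⟩ := h3
        have h4 := hJ n' ω
        rw [hn'] at h4
        rw [h4]
        exact ⟨hn, hn'⟩
      refine ⟨fun q hq => (key q hq).1, ?_⟩
      intro q hq q' hq' he
      have he' : q / M = q' / M := he
      rw [← (key q hq).2, ← (key q' hq').2, he']
    rw [h3, measure_empty]
    exact zero_le

theorem bad_meas (N M : ℕ) (J : ℕ → Ω → ℕ) (hJ : ∀ n ω, J n ω / M = n) (hind : iIndepFun J P)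
    (p : ℝ) (hp0 : 0 ≤ p) (hp : ∀ n ∈ Icc 1 N, ∀ i, P {ω | J n ω = i} ≤ ENNReal.ofReal p)
    (B : Finset ℕ) (r : ℕ) (hr : 9 * (p * B.card) ≤ r) :
    P {ω | r ≤ (IS J N ω ∩ B).card} ≤ ENNReal.ofReal (((3 : ℝ)⁻¹) ^ r) := by
  classical
  have hsub : {ω | r ≤ (IS J N ω ∩ B).card} ⊆ ⋃ Q ∈ powersetCard r B, {ω | Q ⊆ IS J N ω} := by
    intro ω hω
    obtain ⟨Q, hQ, hQc⟩ := exists_subset_card_eq (show r ≤ (IS J N ω ∩ B).card from hω)
    rw [Set.mem_iUnion₂]
    exact ⟨Q, mem_powersetCard.2 ⟨hQ.trans inter_subset_right, hQc⟩, hQ.trans inter_subset_left⟩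
  refine (measure_mono hsub).trans ((measure_biUnion_finset_le _ _).trans ?_)
  calc ∑ Q ∈ powersetCard r B, P {ω | Q ⊆ IS J N ω}
      ≤ ∑ Q ∈ powersetCard r B, ENNReal.ofReal (p ^ r) := by
        apply sum_le_sum
        intro Q hQ
        refine (sub_prob N M J hJ hind _ hp Q).trans (le_of_eq ?_)
        rw [(mem_powersetCard.1 hQ).2, ENNReal.ofReal_pow hp0]
    _ = ENNReal.ofReal (((B.card.choose r : ℕ) : ℝ) * p ^ r) := by
        rw [sum_const, card_powersetCard, nsmul_eq_mul, ENNReal.ofReal_mul (Nat.cast_nonneg _),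
          ENNReal.ofReal_natCast]
    _ ≤ ENNReal.ofReal (((3 : ℝ)⁻¹) ^ r) := by
        apply ENNReal.ofReal_le_ofReal
        have h4 : ((B.card.choose r : ℕ) : ℝ) ≤ (B.card : ℝ) ^ r / r.factorial :=
          Nat.choose_le_pow_div r B.card
        have h5 := Pool.Agent.Y959.Smp.fact_bound r (p * B.card) (by positivity) 3
          (by norm_num) (by linarith)
        refine le_trans (mul_le_mul_of_nonneg_right h4 (pow_nonneg hp0 r)) (le_trans (le_of_eq ?_) h5)
        rw [mul_pow]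
        ring

open Classical in
theorem good_meas {ι : Type*} [Fintype ι] (N M : ℕ) (J : ℕ → Ω → ℕ) (hJ : ∀ n ω, J n ω / M = n)
    (hind : iIndepFun J P) (p : ℝ) (hp0 : 0 ≤ p)
    (hp : ∀ n ∈ Icc 1 N, ∀ i, P {ω | J n ω = i} ≤ ENNReal.ofReal p)
    (F : Finset ℕ) (hF : F.Nonempty) (hIF : ∀ ω, IS J N ω ⊆ F) (e : ι → ℕ → ℂ) (δ : ℝ) (hδ : 0 < δ)
    (hδ1 : δ ≤ 1) (hι : 1 ≤ Fintype.card ι) :
    P {ω | ¬ GoodP F e p (Real.log (8 * Fintype.card ι * F.card ^ 2 / δ)) (IS J N ω)} ≤
      ENNReal.ofReal δ := by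
  have hFc : (1 : ℝ) ≤ F.card := by exact_mod_cast card_pos.2 hF
  have hιc : (1 : ℝ) ≤ Fintype.card ι := by exact_mod_cast hι
  obtain ⟨Lam, hLam⟩ : ∃ Lam, Lam = Real.log (8 * Fintype.card ι * F.card ^ 2 / δ) := ⟨_, rfl⟩
  rw [← hLam]
  have harg : (8 : ℝ) ≤ 8 * Fintype.card ι * F.card ^ 2 / δ := by
    rw [le_div_iff₀ hδ]
    have h1 : (1 : ℝ) ≤ Fintype.card ι * F.card ^ 2 :=
      one_le_mul_of_one_le_of_one_le hιc (one_le_pow₀ hFc)
    nlinarith
  have hLam2 : 1 ≤ Lam := by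
    rw [hLam, Real.le_log_iff_exp_le (by linarith)]
    have := Real.exp_one_lt_d9
    linarith
  have hexp : Real.exp (-Lam) = δ / (8 * Fintype.card ι * F.card ^ 2) := by
    rw [Real.exp_neg, hLam, Real.exp_log (by linarith), inv_div]
  -- the superlevel sets
  set B : (m : ℕ) → (Fin m → ι × Fin 4) → ℕ → Finset ℕ := fun m c n0 =>
    F.filter (fun n => ‖gsum e c n0‖ ≤ ‖gsum e c n‖) with hB
  set rr : (m : ℕ) → (Fin m → ι × Fin 4) → ℕ → ℕ := fun m c n0 =>
    ⌈9 * (p * ((B m c n0).card : ℝ)) + m * Lam⌉₊ with hrr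
  have hsub : {ω | ¬ GoodP F e p Lam (IS J N ω)} ⊆
      ⋃ m ∈ Icc 1 F.card, ⋃ c ∈ (univ : Finset (Fin m → ι × Fin 4)), ⋃ n0 ∈ F,
        {ω | rr m c n0 ≤ (IS J N ω ∩ B m c n0).card} := by
    intro ω hbad
    have hIF' := hIF ω
    obtain ⟨I, hI⟩ : ∃ I, I = IS J N ω := ⟨_, rfl⟩
    rw [← hI] at hIF'
    rw [Set.mem_ofPred_eq, ← hI] at hbad
    unfold GoodP at hbad
    push Not at hbad
    obtain ⟨m, c, v, hm, hlt⟩ := hbad
    have hkF : (0 : ℝ) ≤ 9 * (p * ((F.filter (fun n => v ≤ ‖gsum e c n‖)).card : ℝ)) := by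
      positivity
    have hmL : (m : ℝ) ≤ m * Lam := by
      have : (0 : ℝ) ≤ m := Nat.cast_nonneg _
      nlinarith
    have hIpos : 0 < (I.filter (fun n => v ≤ ‖gsum e c n‖)).card := by
      have h1 : (0 : ℝ) < ((I.filter (fun n => v ≤ ‖gsum e c n‖)).card : ℝ) := by
        have : (0 : ℝ) ≤ m := Nat.cast_nonneg _
        linarith
      exact_mod_cast h1
    have hsubF : I.filter (fun n => v ≤ ‖gsum e c n‖) ⊆ F.filter (fun n => v ≤ ‖gsum e c n‖) :=
      filter_subset_filter _ hIF'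
    have hne : (F.filter (fun n => v ≤ ‖gsum e c n‖)).Nonempty :=
      (card_pos.1 hIpos).mono hsubF
    obtain ⟨n0, hn0, hmin⟩ := exists_min_image _ (fun n => ‖gsum e c n‖) hne
    have hBe : B m c n0 = F.filter (fun n => v ≤ ‖gsum e c n‖) := by
      rw [hB]
      ext n
      rw [mem_filter, mem_filter]
      constructor
      · rintro ⟨h1, h2⟩
        exact ⟨h1, (mem_filter.1 hn0).2.trans h2⟩
      · rintro ⟨h1, h2⟩
        exact ⟨h1, hmin n (mem_filter.2 ⟨h1, h2⟩)⟩
    have hIB : I ∩ B m c n0 = I.filter (fun n => v ≤ ‖gsum e c n‖) := by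
      rw [hBe]
      ext n
      rw [mem_inter, mem_filter, mem_filter]
      constructor
      · rintro ⟨h1, h2, h3⟩
        exact ⟨h1, h3⟩
      · rintro ⟨h1, h2⟩
        exact ⟨h1, hIF' h1, h2⟩
    have hmF : m ≤ F.card := by
      have h1 : ((I.filter (fun n => v ≤ ‖gsum e c n‖)).card : ℝ) ≤ F.card := by
        exact_mod_cast (card_le_card hsubF).trans (card_filter_le _ _)
      have h2 : (m : ℝ) ≤ F.card := by linarith
      exact_mod_cast h2
    rw [Set.mem_iUnion₂]
    refine ⟨m, mem_Icc.2 ⟨hm, hmF⟩, ?_⟩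
    rw [Set.mem_iUnion₂]
    refine ⟨c, mem_univ _, ?_⟩
    rw [Set.mem_iUnion₂]
    refine ⟨n0, (mem_filter.1 hn0).1, ?_⟩
    rw [Set.mem_ofPred_eq, ← hI, hIB, hrr]
    simp only
    rw [hBe]
    apply Nat.ceil_le.2
    linarith
  obtain ⟨y, hy⟩ : ∃ y : ℝ, y = δ / (8 * Fintype.card ι * F.card ^ 2) := ⟨_, rfl⟩
  have hy0 : 0 ≤ y := by rw [hy]; positivity
  have h1 : P {ω | ¬ GoodP F e p Lam (IS J N ω)} ≤
      ∑ m ∈ Icc 1 F.card, ∑ c : Fin m → ι × Fin 4, ∑ n0 ∈ F, ENNReal.ofReal (y ^ m) := by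
    refine (measure_mono hsub).trans ((measure_biUnion_finset_le _ _).trans ?_)
    apply sum_le_sum
    intro m hm
    refine (measure_biUnion_finset_le _ _).trans ?_
    apply sum_le_sum
    intro c _
    refine (measure_biUnion_finset_le _ _).trans ?_
    apply sum_le_sum
    intro n0 _
    have h4 := bad_meas N M J hJ hind p hp0 hp (B m c n0) (rr m c n0) (by
      refine le_trans ?_ (Nat.le_ceil _)
      have : 0 ≤ (m : ℝ) * Lam := by positivity
      linarith)
    refine h4.trans (ENNReal.ofReal_le_ofReal ?_)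
    rw [hy, ← hexp, ← Real.exp_nat_mul]
    have h5 : (3 : ℝ)⁻¹ ≤ Real.exp (-1) := by
      rw [Real.exp_neg]
      exact inv_anti₀ (Real.exp_pos _) (by linarith [Real.exp_one_lt_d9])
    calc ((3 : ℝ)⁻¹) ^ (rr m c n0) ≤ (Real.exp (-1)) ^ (rr m c n0) :=
          pow_le_pow_left₀ (by norm_num) h5 _
      _ = Real.exp (-(rr m c n0 : ℝ)) := by
          rw [← Real.exp_nat_mul]
          congr 1
          ring
      _ ≤ Real.exp (m * -Lam) := by
          apply Real.exp_le_exp.2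
          have h6 : (m : ℝ) * Lam ≤ rr m c n0 := by
            refine le_trans ?_ (Nat.le_ceil _)
            have : (0 : ℝ) ≤ 9 * (p * ((B m c n0).card : ℝ)) := by positivity
            linarith
          linarith
  refine h1.trans ?_
  have h2 : ∀ m ∈ Icc 1 F.card, ∑ c : Fin m → ι × Fin 4, ∑ n0 ∈ F, y ^ m ≤ δ / F.card := by
    intro m hm
    have hm1 := (mem_Icc.1 hm).1
    calc ∑ c : Fin m → ι × Fin 4, ∑ n0 ∈ F, y ^ m
        = (4 * Fintype.card ι : ℝ) ^ m * (F.card * (y ^ m)) := by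
          rw [sum_const, sum_const, nsmul_eq_mul, nsmul_eq_mul, card_univ, Fintype.card_fun,
            Fintype.card_prod, Fintype.card_fin, Fintype.card_fin]
          push_cast
          rw [mul_comm (4 : ℝ)]
      _ = (δ / (2 * F.card ^ 2)) ^ m * F.card := by
          have e : (4 * Fintype.card ι : ℝ) ^ m * y ^ m = (δ / (2 * F.card ^ 2)) ^ m := by
            rw [← mul_pow, hy]
            congr 1
            have : (Fintype.card ι : ℝ) ≠ 0 := by linarith
            field_simp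
            ring
          rw [← e]
          ring
      _ ≤ (δ / (2 * F.card ^ 2)) * F.card := by
          apply mul_le_mul_of_nonneg_right _ (by positivity)
          have h7 : δ / (2 * (F.card : ℝ) ^ 2) ≤ 1 := by
            rw [div_le_one (by positivity)]
            have : (1 : ℝ) ≤ (F.card : ℝ) ^ 2 := one_le_pow₀ hFc
            linarith
          exact pow_le_of_le_one (by positivity) h7 (by omega)
      _ ≤ δ / F.card := by
          have e : δ / (2 * (F.card : ℝ) ^ 2) * F.card = (δ / F.card) / 2 := by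
            field_simp
          rw [e]
          have : 0 ≤ δ / F.card := by positivity
          linarith
  calc ∑ m ∈ Icc 1 F.card, ∑ c : Fin m → ι × Fin 4, ∑ n0 ∈ F, ENNReal.ofReal (y ^ m)
      = ∑ m ∈ Icc 1 F.card, ENNReal.ofReal (∑ c : Fin m → ι × Fin 4, ∑ n0 ∈ F, y ^ m) := by
        apply sum_congr rfl
        intro m _
        rw [ENNReal.ofReal_sum_of_nonneg (fun _ _ => sum_nonneg fun _ _ => pow_nonneg hy0 _)]
        apply sum_congr rfl
        intro c _
        rw [ENNReal.ofReal_sum_of_nonneg (fun _ _ => pow_nonneg hy0 _)]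
    _ ≤ ∑ m ∈ Icc 1 F.card, ENNReal.ofReal (δ / F.card) :=
        sum_le_sum fun m hm => ENNReal.ofReal_le_ofReal (h2 m hm)
    _ = ENNReal.ofReal δ := by
        rw [sum_const, Nat.card_Icc, Nat.add_sub_cancel, nsmul_eq_mul, ← ENNReal.ofReal_natCast,
          ← ENNReal.ofReal_mul (Nat.cast_nonneg _)]
        congr 1
        field_simp

end Pool.Agent.V7H89.PI
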