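import Pool.Agent.Y959.Rs.RealB

set_option autoImplicit false

/-!
# Short intervals of ordinates

For `T³ ≤ N` the sums over perturbed integers are close to the sums over the integers, and the mean square
over the integers loses a logarithm of `T` only.
-/

namespace Pool.Agent.V7H89.PI

open Finset Pool.Agent.TH705.DL Pool.Agent.Y959.Her Pool.Agent.Y959.Smp Pool.Agent.Y959.Rs
  Pool.Agent.H469R2.NK

/-- `x^{it}` -/
noncomputable def pr (t x : ℝ) : ℂ := Complex.exp (Complex.I * ((t * Real.log x : ℝ) : ℂ))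

theorem pr_norm (t x : ℝ) : ‖pr t x‖ = 1 := by
  unfold pr
  rw [mul_comm, Complex.norm_exp_ofReal_mul_I]

theorem pr_ph (t : ℝ) (n : ℕ) : pr t n = ph t n := by
  rw [ph_eq]
  unfold pr
  rw [mul_comm]

theorem pr_lip (t u x y : ℝ) : ‖pr t x - pr u y‖ ≤ |t * Real.log x - u * Real.log y| := by
  have h1 : pr t x - pr u y =
      pr u y * (Complex.exp (Complex.I * ((t * Real.log x - u * Real.log y : ℝ) : ℂ)) - 1) := by
    unfold pr
    rw [mul_sub, mul_one, ← Complex.exp_add]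
    congr 2
    push_cast
    ring
  rw [h1, norm_mul, pr_norm, one_mul]
  have h2 := Real.norm_exp_I_mul_ofReal_sub_one_le (x := t * Real.log x - u * Real.log y)
  exact h2.trans (le_of_eq (Real.norm_eq_abs _))

theorem log_near (x y : ℝ) (hx : 0 < x) (hy : 0 < y) (c : ℝ) (hc : 0 < c) (hcx : c ≤ x) (hcy : c ≤ y) :
    |Real.log x - Real.log y| ≤ |x - y| / c := by
  have key : ∀ a b : ℝ, c ≤ a → a ≤ b → Real.log b - Real.log a ≤ (b - a) / c := by
    intro a b hca hab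
    have ha : 0 < a := by linarith
    have hb : 0 < b := by linarith
    rw [← Real.log_div hb.ne' ha.ne']
    refine (Real.log_le_sub_one_of_pos (by positivity)).trans ?_
    have h1 : b / a - 1 = (b - a) / a := by field_simp
    rw [h1]
    exact div_le_div_of_nonneg_left (by linarith) hc hca
  rcases le_total x y with h | h
  · have h1 := key x y hcx h
    have h2 : Real.log x ≤ Real.log y := Real.log_le_log hx h
    rw [abs_sub_comm, abs_of_nonneg (by linarith), abs_sub_comm x y, abs_of_nonneg (by linarith)]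
    exact h1
  · have h1 := key y x hcy h
    have h2 : Real.log y ≤ Real.log x := Real.log_le_log hy h
    rw [abs_of_nonneg (by linarith), abs_of_nonneg (by linarith)]
    exact h1

/-- blocks in the range of Kusmin and Landau -/
theorem blk2 (M : ℕ) (hM : 1 ≤ M) (L : ℕ) (hL : L ≤ M) (t : ℝ) (ht : 0 < t) (htM : t ≤ M) :
    ‖∑ n ∈ Ico M (M + L), ph t n‖ ≤ 42 * M / t := by
  have hpi := Real.pi_gt_three
  have hpi2 := Real.pi_lt_d2
  have hN1 : (1 : ℝ) ≤ M := by exact_mod_cast hM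
  have hsum : ∑ n ∈ Ico M (M + L), ph t n =
      ∑ n ∈ range L, e (t / (2 * Real.pi) * Real.log ((M : ℝ) + n)) := by
    rw [sum_Ico_eq_sum_range, Nat.add_sub_cancel_left]
    apply sum_congr rfl
    intro n _
    rw [ph_eq]
    unfold e
    congr 1
    congr 1
    push_cast
    have hpi : (Real.pi : ℂ) ≠ 0 := by exact_mod_cast Real.pi_ne_zero
    field_simp
  rw [hsum]
  have hh : 0 < t / (2 * Real.pi) := by positivity
  have h1 : 2 * (t / (2 * Real.pi)) ≤ M := by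
    have h3 : 2 * (t / (2 * Real.pi)) = t / Real.pi := by field_simp
    rw [h3, div_le_iff₀ (by positivity)]
    nlinarith
  have h2 := ker_klL hh hM h1 L (by omega)
  refine h2.trans ?_
  have e : 6 * (M : ℝ) / (t / (2 * Real.pi)) = (12 * Real.pi) * M / t := by
    field_simp
    ring
  rw [e]
  apply div_le_div_of_nonneg_right _ ht.le
  nlinarith

/-- the sum over `[1, N]` without a logarithm of `N` -/
theorem ker_small (t : ℝ) (ht : 0 < t) : ∀ N : ℕ, 1 ≤ N →
    ‖∑ n ∈ Icc 1 N, ph t n‖ ≤ 84 * N / t + 2 * t := by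
  intro N
  induction N using Nat.strong_induction_on with
  | _ N ih =>
    intro hN
    have hN1 : (1 : ℝ) ≤ N := by exact_mod_cast hN
    have hN0 : (0 : ℝ) < N := by linarith
    have htriv : ‖∑ n ∈ Icc 1 N, ph t n‖ ≤ N := by
      refine (norm_sum_le _ _).trans ?_
      rw [sum_congr rfl fun n _ => ph_norm t n, sum_const, Nat.card_Icc, nsmul_eq_mul, mul_one,
        Nat.add_sub_cancel]
    obtain ⟨m, hm⟩ : ∃ m : ℕ, m = N / 2 := ⟨_, rfl⟩
    have h0 : 0 ≤ 84 * (N : ℝ) / t := by positivity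
    rcases lt_or_ge ((m : ℝ) + 1) t with h1 | h1
    · have h2 : (N : ℝ) ≤ 2 * (m : ℝ) + 1 := by exact_mod_cast (by omega : N ≤ 2 * m + 1)
      linarith
    have hsplit : ∑ n ∈ Icc 1 N, ph t n =
        ∑ n ∈ Icc 1 m, ph t n + ∑ n ∈ Ico (m + 1) (m + 1 + (N - m)), ph t n := by
      have h1 : Icc 1 N = Icc 1 m ∪ Ico (m + 1) (m + 1 + (N - m)) := by
        ext n
        simp only [mem_union, mem_Icc, mem_Ico]
        omega
      rw [h1, sum_union]
      rw [disjoint_left]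
      intro n hn hn'
      rw [mem_Icc] at hn
      rw [mem_Ico] at hn'
      omega
    have hb := blk2 (m + 1) (by omega) (N - m) (by omega) t ht (by push_cast; exact h1)
    rw [hsplit]
    refine (norm_add_le _ _).trans ?_
    have hm2 : 2 * (m : ℝ) ≤ N := by exact_mod_cast (by omega : 2 * m ≤ N)
    rcases Nat.eq_zero_or_pos m with hz | hz
    · rw [hz] at hb ⊢
      simp only [Icc_eq_empty_of_lt (by norm_num : (0 : ℕ) < 1), sum_empty, norm_zero, zero_add] at hb ⊢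
      push_cast at hb
      have h2 : 42 * (1 : ℝ) / t ≤ 84 * N / t := div_le_div_of_nonneg_right (by linarith) ht.le
      linarith
    · have h2 := ih m (by omega) hz
      have h3 : 84 * (m : ℝ) / t + 42 * ((m + 1 : ℕ) : ℝ) / t ≤ 84 * N / t := by
        rw [← add_div]
        apply div_le_div_of_nonneg_right _ ht.le
        push_cast
        have : (1 : ℝ) ≤ m := by exact_mod_cast hz
        linarith
      linarith

/-- the mean square over the integers without a logarithm of `N` -/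
theorem ms_small (N : ℕ) (hN : 1 ≤ N) (T : ℝ) (hT : 0 ≤ T) (W : Finset ℝ)
    (hW : ∀ t ∈ W, 0 ≤ t ∧ t ≤ T) (hsep : Sep W) (b : ℝ → Fin 4) :
    ∑ n ∈ Icc 1 N, ‖∑ t ∈ W, phs (b t) * ph t n‖ ^ 2 ≤
      W.card * (N + 168 * N * (1 + Real.log (T + 1)) + W.card * (2 * T)) := by
  classical
  have h1 : ((∑ n ∈ Icc 1 N, ‖∑ t ∈ W, phs (b t) * ph t n‖ ^ 2 : ℝ) : ℂ) =
      ∑ t ∈ W, ∑ u ∈ W, phs (b t) * (starRingEnd ℂ) (phs (b u)) * ∑ n ∈ Icc 1 N, ph (t - u) n := by
    push_cast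
    have h2 : ∀ n ∈ Icc 1 N, ((‖∑ t ∈ W, phs (b t) * ph t n‖ : ℂ)) ^ 2 =
        ∑ t ∈ W, ∑ u ∈ W, phs (b t) * (starRingEnd ℂ) (phs (b u)) * ph (t - u) n := by
      intro n _
      rw [← Complex.mul_conj', map_sum, sum_mul_sum]
      apply sum_congr rfl
      intro i _
      apply sum_congr rfl
      intro j _
      rw [map_mul, ← ph_sub]
      ring
    rw [sum_congr rfl h2, sum_comm]
    apply sum_congr rfl
    intro i _
    rw [sum_comm]
    apply sum_congr rfl
    intro j _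
    rw [mul_sum]
  have h3 : ∑ n ∈ Icc 1 N, ‖∑ t ∈ W, phs (b t) * ph t n‖ ^ 2 ≤
      ∑ t ∈ W, ∑ u ∈ W, ‖∑ n ∈ Icc 1 N, ph (t - u) n‖ := by
    have h0 : 0 ≤ ∑ n ∈ Icc 1 N, ‖∑ t ∈ W, phs (b t) * ph t n‖ ^ 2 :=
      sum_nonneg fun _ _ => sq_nonneg _
    rw [← Real.norm_of_nonneg h0, ← Complex.norm_real, h1]
    refine (norm_sum_le _ _).trans (sum_le_sum fun i _ => ?_)
    refine (norm_sum_le _ _).trans (sum_le_sum fun j _ => ?_)
    rw [norm_mul, norm_mul, RCLike.norm_conj, (phs_isPh _).norm, (phs_isPh _).norm, one_mul, one_mul]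
  refine h3.trans ?_
  have h4 : ∀ t ∈ W, ∑ u ∈ W, ‖∑ n ∈ Icc 1 N, ph (t - u) n‖ ≤
      N + 168 * N * (1 + Real.log (T + 1)) + W.card * (2 * T) := by
    intro t ht
    rw [← add_sum_erase W _ ht]
    have h5 : ∑ u ∈ W.erase t, ‖∑ n ∈ Icc 1 N, ph (t - u) n‖ ≤
        ∑ u ∈ W.erase t, (84 * N * (1 / |t - u|) + 2 * T) := by
      apply sum_le_sum
      intro u hu
      have hne : t - u ≠ 0 := sub_ne_zero.2 (Ne.symm (ne_of_mem_erase hu))
      have huW := mem_of_mem_erase hu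
      have h6 := hW t ht
      have h7 := hW u huW
      have hab : |t - u| ≤ T := by
        rw [abs_le]
        constructor <;> linarith
      have hneg : ‖∑ n ∈ Icc 1 N, ph (t - u) n‖ = ‖∑ n ∈ Icc 1 N, ph |t - u| n‖ := by
        rcases lt_or_gt_of_ne hne with h | h
        · rw [abs_of_neg h]
          have : ∑ n ∈ Icc 1 N, ph (-(t - u)) n = (starRingEnd ℂ) (∑ n ∈ Icc 1 N, ph (t - u) n) := by
            rw [map_sum]
            exact sum_congr rfl fun n _ => (ph_conj _ _).symm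
          rw [this, Complex.norm_conj]
        · rw [abs_of_pos h]
      rw [hneg]
      refine (ker_small |t - u| (abs_pos.2 hne) N hN).trans ?_
      rw [mul_one_div]
      linarith
    rw [sum_add_distrib, ← mul_sum, sum_const, nsmul_eq_mul] at h5
    have h6 := mul_le_mul_of_nonneg_left (harm_real T hT W hW hsep t ht)
      (by positivity : (0 : ℝ) ≤ 84 * N)
    have h7 : ‖∑ n ∈ Icc 1 N, ph (t - t) n‖ ≤ N := by
      refine (norm_sum_le _ _).trans ?_
      rw [sum_congr rfl fun n _ => ph_norm (t - t) n, sum_const, Nat.card_Icc, nsmul_eq_mul, mul_one,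
        Nat.add_sub_cancel]
    have h8 : ((W.erase t).card : ℝ) * (2 * T) ≤ W.card * (2 * T) := by
      apply mul_le_mul_of_nonneg_right _ (by positivity)
      exact_mod_cast card_le_card (erase_subset _ _)
    linarith
  calc ∑ t ∈ W, ∑ u ∈ W, ‖∑ n ∈ Icc 1 N, ph (t - u) n‖
      ≤ ∑ t ∈ W, ((N : ℝ) + 168 * N * (1 + Real.log (T + 1)) + W.card * (2 * T)) := sum_le_sum h4
    _ = _ := by rw [sum_const, nsmul_eq_mul]

/-- the number of separated points -/
theorem sep_card (T : ℝ) (hT : 0 ≤ T) (W : Finset ℝ) (hW : ∀ t ∈ W, 0 ≤ t ∧ t ≤ T) (hsep : Sep W) :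
    (W.card : ℝ) ≤ T + 1 := by
  have h1 : W.card ≤ (range (⌊T⌋₊ + 1)).card := by
    apply card_le_card_of_injOn (fun t => ⌊t⌋₊)
    · intro t ht
      have h := hW t ht
      simp only [coe_range, Set.mem_Iio]
      have := Nat.floor_le_floor h.2
      omega
    · intro t ht u hu htu
      by_contra hne
      have h1 := hsep t ht u hu hne
      have h2 : ⌊t⌋₊ = ⌊u⌋₊ := htu
      have h3 := Nat.floor_le (hW t ht).1
      have h4 := Nat.lt_floor_add_one t
      have h5 := Nat.floor_le (hW u hu).1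
      have h6 := Nat.lt_floor_add_one u
      rw [← h2] at h5 h6
      have h8 : |t - u| < 1 := by
        rw [abs_lt]
        constructor <;> linarith
      linarith
  rw [card_range] at h1
  have h2 : (W.card : ℝ) ≤ (⌊T⌋₊ : ℝ) + 1 := by exact_mod_cast h1
  have h3 := Nat.floor_le hT
  linarith

theorem inv_sq_sum (N : ℕ) (hN : 1 ≤ N) : ∑ n ∈ Icc 1 N, (1 : ℝ) / (n : ℝ) ^ 2 ≤ 2 - 1 / (N : ℝ) := by
  induction N, hN using Nat.le_induction with
  | base => norm_num
  | succ N hN ih =>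
    rw [sum_Icc_succ_top (by omega)]
    refine (add_le_add_left ih _).trans ?_
    push_cast
    have h0 : (0 : ℝ) < (N : ℝ) := by exact_mod_cast hN
    have h1 : (1 : ℝ) / ((N : ℝ) + 1) ^ 2 ≤ 1 / (N : ℝ) - 1 / ((N : ℝ) + 1) := by
      rw [div_sub_div _ _ h0.ne' (by positivity), div_le_div_iff₀ (by positivity) (by positivity)]
      nlinarith
    linarith

theorem pr_near (t x : ℝ) (n : ℕ) (hn : 1 ≤ n) (ht : 0 ≤ t) (hx : (n : ℝ) ≤ x) (hx2 : x ≤ n + 1) :
    ‖pr t x - ph t n‖ ≤ t / n := by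
  have hn0 : (0 : ℝ) < n := by exact_mod_cast hn
  rw [← pr_ph]
  refine (pr_lip t t x n).trans ?_
  rw [← mul_sub, abs_mul, abs_of_nonneg ht]
  have h1 := log_near x n (by linarith) hn0 n hn0 hx le_rfl
  rw [abs_of_nonneg (by linarith : 0 ≤ x - (n : ℝ))] at h1
  have h2 : (x - n) / n ≤ 1 / n := div_le_div_of_nonneg_right (by linarith) hn0.le
  calc t * |Real.log x - Real.log n| ≤ t * (1 / n) := mul_le_mul_of_nonneg_left (h1.trans h2) ht
    _ = t / n := by ring

/-- **Short intervals of ordinates.** -/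
theorem small_T (N : ℕ) (hN : 1 ≤ N) (T : ℝ) (hT : 1 ≤ T) (hTN : T ^ 3 ≤ N) (x : ℕ → ℝ)
    (hx : ∀ n : ℕ, 1 ≤ n → (n : ℝ) ≤ x n ∧ x n ≤ n + 1) (W : Finset ℝ)
    (hW : ∀ t ∈ W, 0 ≤ t ∧ t ≤ T) (hsep : Sep W) (a : ℕ → ℂ) (ha : ∀ n, ‖a n‖ ≤ 1) (V : ℝ) (hV : 0 < V)
    (hVW : ∀ t ∈ W, V ≤ ‖∑ n ∈ Icc 1 N, a n * pr t (x n)‖) :
    V ^ 2 * (W.card : ℝ) ≤ 723 * (N : ℝ) ^ 2 * (1 + Real.log (T + 1)) := by
  classical
  have hN1 : (1 : ℝ) ≤ N := by exact_mod_cast hN
  have hN0 : (0 : ℝ) < N := by linarith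
  have hlog : 0 ≤ Real.log (T + 1) := Real.log_nonneg (by linarith)
  rcases W.eq_empty_or_nonempty with h0 | hne
  · subst h0
    simp only [card_empty, Nat.cast_zero, mul_zero]
    positivity
  have hwc : (0 : ℝ) < W.card := by exact_mod_cast card_pos.2 hne
  have hw1 := sep_card T (by linarith) W hW hsep
  obtain ⟨w, hw⟩ : ∃ w : ℝ, w = (W.card : ℝ) := ⟨_, rfl⟩
  obtain ⟨b, hb⟩ := dual_bound (fun t n => pr t (x n)) (Icc 1 N) a V W hV.le hVW
  have hms := ms_small N hN T (by linarith) W hW hsep b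
  rw [← hw] at hwc hw1 hb hms ⊢
  have hG : ∑ n ∈ Icc 1 N, ‖a n‖ ^ 2 ≤ N := by
    calc ∑ n ∈ Icc 1 N, ‖a n‖ ^ 2 ≤ ∑ n ∈ Icc 1 N, (1 : ℝ) :=
          sum_le_sum fun n _ => pow_le_one₀ (norm_nonneg _) (ha n)
      _ = _ := by simp
  have h1 : ∀ n ∈ Icc 1 N, ‖∑ t ∈ W, phs (b t) * pr t (x n)‖ ^ 2 ≤
      2 * ‖∑ t ∈ W, phs (b t) * ph t n‖ ^ 2 + 2 * w ^ 2 * T ^ 2 * (1 / (n : ℝ) ^ 2) := by
    intro n hn
    have hn1 := (mem_Icc.1 hn).1
    have hn0 : (0 : ℝ) < n := by exact_mod_cast hn1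
    have h2 : ‖∑ t ∈ W, phs (b t) * pr t (x n) - ∑ t ∈ W, phs (b t) * ph t n‖ ≤ w * (T / n) := by
      rw [← sum_sub_distrib]
      refine (norm_sum_le _ _).trans ?_
      calc ∑ t ∈ W, ‖phs (b t) * pr t (x n) - phs (b t) * ph t n‖ ≤ ∑ t ∈ W, T / n := by
            apply sum_le_sum
            intro t ht
            rw [← mul_sub, norm_mul, (phs_isPh _).norm, one_mul]
            refine (pr_near t (x n) n hn1 (hW t ht).1 (hx n hn1).1 (hx n hn1).2).trans ?_
            exact div_le_div_of_nonneg_right (hW t ht).2 hn0.le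
        _ = _ := by rw [sum_const, nsmul_eq_mul, hw]
    obtain ⟨u, hu⟩ : ∃ u : ℝ, u = ‖∑ t ∈ W, phs (b t) * pr t (x n)‖ := ⟨_, rfl⟩
    obtain ⟨v, hv⟩ : ∃ v : ℝ, v = ‖∑ t ∈ W, phs (b t) * ph t n‖ := ⟨_, rfl⟩
    have h3 := norm_sub_norm_le (∑ t ∈ W, phs (b t) * pr t (x n)) (∑ t ∈ W, phs (b t) * ph t n)
    rw [← hu, ← hv] at h3 ⊢
    have hu0 : 0 ≤ u := by rw [hu]; exact norm_nonneg _
    have h4 : u ≤ v + w * (T / n) := by linarith
    have h5 : u ^ 2 ≤ (v + w * (T / n)) ^ 2 := pow_le_pow_left₀ hu0 h4 2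
    have h6 : 2 * w ^ 2 * T ^ 2 * (1 / (n : ℝ) ^ 2) = 2 * (w * (T / n)) ^ 2 := by
      field_simp
    rw [h6]
    nlinarith [sq_nonneg (v - w * (T / n))]
  have h2 : ∑ n ∈ Icc 1 N, ‖∑ t ∈ W, phs (b t) * pr t (x n)‖ ^ 2 ≤
      354 * (w * N * (1 + Real.log (T + 1))) := by
    refine (sum_le_sum h1).trans ?_
    rw [sum_add_distrib, ← mul_sum, ← mul_sum]
    have h3 : ∑ n ∈ Icc 1 N, (1 : ℝ) / (n : ℝ) ^ 2 ≤ 2 := by
      have := inv_sq_sum N hN
      have h4 : 0 ≤ 1 / (N : ℝ) := by positivity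
      linarith
    have h5 : 2 * w ^ 2 * T ^ 2 * ∑ n ∈ Icc 1 N, (1 : ℝ) / (n : ℝ) ^ 2 ≤ 2 * w ^ 2 * T ^ 2 * 2 :=
      mul_le_mul_of_nonneg_left h3 (by positivity)
    have hw2 : w ≤ 2 * T := by linarith
    have h6 : w ^ 2 * T ^ 2 ≤ 2 * (w * N) := by
      calc w ^ 2 * T ^ 2 = w * (w * T ^ 2) := by ring
        _ ≤ w * ((2 * T) * T ^ 2) := by
            apply mul_le_mul_of_nonneg_left _ hwc.le
            exact mul_le_mul_of_nonneg_right hw2 (by positivity)
        _ = 2 * (w * T ^ 3) := by ring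
        _ ≤ 2 * (w * N) := by
            apply mul_le_mul_of_nonneg_left _ (by norm_num)
            exact mul_le_mul_of_nonneg_left hTN hwc.le
    have h7 : w * (w * (2 * T)) ≤ 4 * (w * N) := by
      have h8 : w * (2 * T) ≤ 4 * N := by
        have h9 : T * T ≤ T ^ 3 := by nlinarith [sq_nonneg T]
        have h10 : w * (2 * T) ≤ (2 * T) * (2 * T) := mul_le_mul_of_nonneg_right hw2 (by linarith)
        linarith
      have := mul_le_mul_of_nonneg_left h8 hwc.le
      linarith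
    have h8 : w * (N + 168 * N * (1 + Real.log (T + 1)) + w * (2 * T)) =
        w * N + 168 * (w * N * (1 + Real.log (T + 1))) + w * (w * (2 * T)) := by ring
    rw [h8] at hms
    have h9 : w * N ≤ w * N * (1 + Real.log (T + 1)) := le_mul_of_one_le_right (by positivity) (by linarith)
    linarith
  have h3 : V ^ 2 * w ^ 2 ≤ 100 / 49 * N * (354 * (w * N * (1 + Real.log (T + 1)))) := by
    refine hb.trans ?_
    apply mul_le_mul _ h2 (sum_nonneg fun _ _ => sq_nonneg _) (by positivity)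
    exact mul_le_mul_of_nonneg_left hG (by norm_num)
  have h4 : w * (V ^ 2 * w) ≤ w * (723 * (N : ℝ) ^ 2 * (1 + Real.log (T + 1))) := by
    have h5 : 100 / 49 * N * (354 * (w * N * (1 + Real.log (T + 1)))) =
        (100 / 49 * 354) * (w * ((N : ℝ) ^ 2 * (1 + Real.log (T + 1)))) := by ring
    have h6 : 0 ≤ w * ((N : ℝ) ^ 2 * (1 + Real.log (T + 1))) := by positivity
    nlinarith
  exact le_of_mul_le_mul_left h4 hwc

/-- the polynomials in the form of the problem -/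
theorem cpow_pr (x t : ℝ) (hx : 0 < x) : (x : ℂ) ^ (-((t : ℂ) * Complex.I)) = pr (-t) x := by
  rw [Complex.cpow_def_of_ne_zero (by exact_mod_cast hx.ne'), ← Complex.ofReal_log hx.le]
  unfold pr
  congr 1
  push_cast
  ring

theorem pr_conj (t x : ℝ) : (starRingEnd ℂ) (pr t x) = pr (-t) x := by
  unfold pr
  rw [← Complex.exp_conj, map_mul, Complex.conj_I, Complex.conj_ofReal]
  congr 1
  push_cast
  ring

theorem D_norm (N : ℕ) (x : ℕ → ℝ) (hx : ∀ n, 1 ≤ n → 0 < x n) (a : ℕ → ℂ) (t : ℝ) :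
    ‖∑ n ∈ Icc 1 N, a n * ((x n : ℝ) : ℂ) ^ (-((t : ℂ) * Complex.I))‖ =
      ‖∑ n ∈ Icc 1 N, (starRingEnd ℂ) (a n) * pr t (x n)‖ := by
  rw [← Complex.norm_conj, map_sum]
  congr 1
  apply sum_congr rfl
  intro n hn
  rw [cpow_pr (x n) t (hx n (mem_Icc.1 hn).1), map_mul, pr_conj, neg_neg]

end Pool.Agent.V7H89.PI
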