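import Pool.Agent.V7H89.PI.Prob
import Pool.Agent.V7H89.PI.Small

set_option autoImplicit false

/-!
# Rounding the perturbed integers to a fine grid
-/

namespace Pool.Agent.V7H89.PI

open Finset MeasureTheory ProbabilityTheory Pool.Agent.TH705.DL Pool.Agent.Y959.Her
  Pool.Agent.Y959.Smp Pool.Agent.Y959.Rs

/-- the grid point `j` with `j / M` next to `n + y` -/
noncomputable def jn (M n : ℕ) (y : ℝ) : ℕ := M * n + min ⌊(M : ℝ) * y⌋₊ (M - 1)

theorem jn_div (M n : ℕ) (hM : 1 ≤ M) (y : ℝ) : jn M n y / M = n := by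
  unfold jn
  rw [Nat.mul_add_div (by omega)]
  have h1 : min ⌊(M : ℝ) * y⌋₊ (M - 1) < M := by
    have := min_le_right ⌊(M : ℝ) * y⌋₊ (M - 1)
    omega
  rw [Nat.div_eq_of_lt h1, add_zero]

theorem jn_cast (M n : ℕ) (hM : 1 ≤ M) (y : ℝ) (h0 : 0 ≤ y) (h1 : y ≤ 1) :
    ((jn M n y : ℕ) : ℝ) ≤ M * n + M * y ∧ (M : ℝ) * n + M * y ≤ ((jn M n y : ℕ) : ℝ) + 1 := by
  have hM0 : (0 : ℝ) < M := by exact_mod_cast hM
  have h2 := Nat.floor_le (by positivity : 0 ≤ (M : ℝ) * y)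
  have h3 := Nat.lt_floor_add_one ((M : ℝ) * y)
  unfold jn
  push_cast
  rw [Nat.cast_sub hM]
  constructor
  · have h4 := min_le_left ((⌊(M : ℝ) * y⌋₊ : ℕ) : ℝ) ((M : ℝ) - ((1 : ℕ) : ℝ))
    linarith
  · rcases le_total ((⌊(M : ℝ) * y⌋₊ : ℕ) : ℝ) ((M : ℝ) - ((1 : ℕ) : ℝ)) with h | h
    · rw [min_eq_left h]
      linarith
    · rw [min_eq_right h]
      push_cast
      nlinarith

theorem jn_meas (M n : ℕ) : Measurable (fun y : ℝ => jn M n y) := by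
  unfold jn
  exact (Measurable.of_discrete (f := fun k : ℕ => M * n + min k (M - 1))).comp
    (Nat.measurable_floor.comp (measurable_const_mul (M : ℝ)))

theorem jn_close (M n : ℕ) (hM : 1 ≤ M) (y : ℝ) (h0 : 0 ≤ y) (h1 : y ≤ 1) :
    |((n : ℝ) + y) - ((jn M n y : ℕ) : ℝ) / M| ≤ 1 / M := by
  have hM0 : (0 : ℝ) < M := by exact_mod_cast hM
  obtain ⟨h2, h3⟩ := jn_cast M n hM y h0 h1
  have h4 : ((n : ℝ) + y) - ((jn M n y : ℕ) : ℝ) / M = (M * n + M * y - ((jn M n y : ℕ) : ℝ)) / M := by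
    field_simp
  rw [h4, abs_div, abs_of_pos hM0, abs_of_nonneg (by linarith)]
  exact div_le_div_of_nonneg_right (by linarith) hM0.le

/-- the polynomial at the grid points -/
theorem grid_norm (M N : ℕ) (hM : 1 ≤ M) (j : ℕ → ℕ) (hj : ∀ n, j n / M = n) (a : ℕ → ℂ) (t : ℝ) :
    ‖∑ n ∈ Icc 1 N, a n * pr t (((j n : ℕ) : ℝ) / M)‖ =
      ‖∑ i ∈ (Icc 1 N).image j, a (i / M) * ph t i‖ := by
  have hM0 : (0 : ℝ) < M := by exact_mod_cast hM
  have hinj : Set.InjOn j (Icc 1 N : Finset ℕ) := by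
    intro n _ m _ h
    rw [← hj n, ← hj m, h]
  rw [sum_image hinj]
  have h1 : ∑ n ∈ Icc 1 N, a n * pr t (((j n : ℕ) : ℝ) / M) =
      pr (-t) M * ∑ n ∈ Icc 1 N, a (j n / M) * ph t (j n) := by
    rw [mul_sum]
    apply sum_congr rfl
    intro n hn
    have hn1 := (mem_Icc.1 hn).1
    have hjn : 1 ≤ j n := by
      by_contra h
      have h0 : j n = 0 := by omega
      have := hj n
      rw [h0, Nat.zero_div] at this
      omega
    have hjn0 : (0 : ℝ) < ((j n : ℕ) : ℝ) := by exact_mod_cast hjn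
    rw [hj n]
    have h2 : pr t (((j n : ℕ) : ℝ) / M) = pr (-t) M * ph t (j n) := by
      rw [← pr_ph]
      unfold pr
      rw [← Complex.exp_add, Real.log_div hjn0.ne' hM0.ne']
      congr 1
      push_cast
      ring
    rw [h2]
    ring
  rw [h1, norm_mul, pr_norm, one_mul]

/-- **The inequality for perturbed integers.** -/
theorem round_ineq (N M Q : ℕ) (hN : 1 ≤ N) (hM : 1 ≤ M) (hMN : 2 * N ^ (Q + 1) ≤ M) (y : ℕ → ℝ)
    (hy : ∀ n, 0 ≤ y n ∧ y n ≤ 1) (p B : ℝ) (hp : 0 ≤ p) (hB : 0 ≤ B)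
    (hBas : BasP (M * (N + 1)) Q p B ((Icc 1 N).image (fun n => jn M n (y n))))
    (T : ℝ) (hT : 0 ≤ T) (hTQ : T ≤ (N : ℝ) ^ Q) (W : Finset ℝ) (hW : ∀ t ∈ W, 0 ≤ t ∧ t ≤ T)
    (hsep : Sep W) (hne : W.Nonempty) (a : ℕ → ℂ) (ha : ∀ n, ‖a n‖ ≤ 1) (V : ℝ) (hV : 0 < V)
    (hV4 : 4 * (N : ℝ) ≤ V ^ 2) (hVW : ∀ t ∈ W, V ≤ ‖∑ n ∈ Icc 1 N, a n * pr t ((n : ℝ) + y n)‖) :
    V ^ 2 * (W.card : ℝ) ^ 2 ≤ 4 * B * N *
      (p * (W.card * (((M * (N + 1) : ℕ) : ℝ) + ((Nat.log 2 (M * (N + 1)) : ℝ) + 1) *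
        (84 * ((M * (N + 1) : ℕ) : ℝ) * (1 + Real.log (T + 1)) +
        W.card * (14 * Real.sqrt (T * (1 + Real.log ((M * (N + 1) : ℕ) : ℝ))))))) +
        (W.card : ℝ) ^ 2 + N) := by
  classical
  have hN1 : (1 : ℝ) ≤ N := by exact_mod_cast hN
  have hM0 : (0 : ℝ) < M := by exact_mod_cast hM
  have hMN' : 2 * (N : ℝ) ^ (Q + 1) ≤ M := by exact_mod_cast hMN
  have hN'1 : 1 ≤ M * (N + 1) := by
    have : 1 * 1 ≤ M * (N + 1) := Nat.mul_le_mul hM (by omega)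
    omega
  have hV1 : 1 ≤ V := by nlinarith
  obtain ⟨j, hjd⟩ : ∃ j : ℕ → ℕ, j = fun n => jn M n (y n) := ⟨_, rfl⟩
  have hj : ∀ n, j n / M = n := fun n => by rw [hjd]; exact jn_div M n hM (y n)
  have hbig : ∀ t ∈ W, V / 2 ≤ ‖∑ i ∈ (Icc 1 N).image j, a (i / M) * ph t i‖ := by
    intro t ht
    rw [← grid_norm M N hM j hj a t]
    have h1 : ‖∑ n ∈ Icc 1 N, a n * pr t ((n : ℝ) + y n) -
        ∑ n ∈ Icc 1 N, a n * pr t (((j n : ℕ) : ℝ) / M)‖ ≤ V / 2 := by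
      rw [← sum_sub_distrib]
      refine (norm_sum_le _ _).trans ?_
      calc ∑ n ∈ Icc 1 N, ‖a n * pr t ((n : ℝ) + y n) - a n * pr t (((j n : ℕ) : ℝ) / M)‖
          ≤ ∑ n ∈ Icc 1 N, (N : ℝ) ^ Q * (1 / M) := by
            apply sum_le_sum
            intro n hn
            have hn1 : (1 : ℝ) ≤ n := by exact_mod_cast (mem_Icc.1 hn).1
            rw [← mul_sub, norm_mul]
            have h2 := pr_lip t t ((n : ℝ) + y n) (((j n : ℕ) : ℝ) / M)
            rw [← mul_sub, abs_mul, abs_of_nonneg (hW t ht).1] at h2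
            have h3 : (1 : ℝ) ≤ ((j n : ℕ) : ℝ) / M := by
              rw [le_div_iff₀ hM0, one_mul]
              have h4 : M * n ≤ j n := by rw [hjd]; exact Nat.le_add_right _ _
              have h5 : (M : ℝ) * n ≤ ((j n : ℕ) : ℝ) := by exact_mod_cast h4
              nlinarith
            have h4 := log_near ((n : ℝ) + y n) (((j n : ℕ) : ℝ) / M) (by linarith [(hy n).1])
              (by linarith) 1 one_pos (by linarith [(hy n).1]) h3
            have h5 := jn_close M n hM (y n) (hy n).1 (hy n).2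
            have h6 : ((j n : ℕ) : ℝ) = ((jn M n (y n) : ℕ) : ℝ) := by rw [hjd]
            rw [← h6] at h5
            rw [div_one] at h4
            calc ‖a n‖ * ‖pr t ((n : ℝ) + y n) - pr t (((j n : ℕ) : ℝ) / M)‖
                ≤ 1 * ((N : ℝ) ^ Q * (1 / M)) := by
                  apply mul_le_mul (ha n) _ (norm_nonneg _) zero_le_one
                  refine h2.trans ?_
                  exact mul_le_mul ((hW t ht).2.trans hTQ) (h4.trans h5) (abs_nonneg _) (by positivity)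
              _ = _ := one_mul _
        _ = (N : ℝ) ^ (Q + 1) / M := by
            rw [sum_const, Nat.card_Icc, Nat.add_sub_cancel, nsmul_eq_mul, pow_succ]
            ring
        _ ≤ V / 2 := by
            rw [div_le_iff₀ hM0]
            nlinarith
    have h2 := norm_sub_norm_le (∑ n ∈ Icc 1 N, a n * pr t ((n : ℝ) + y n))
      (∑ n ∈ Icc 1 N, a n * pr t (((j n : ℕ) : ℝ) / M))
    have h3 := hVW t ht
    linarith
  rw [← hjd] at hBas
  have hcard : (((Icc 1 N).image j).card : ℝ) ≤ N := by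
    have h1 : ((Icc 1 N).image j).card ≤ (Icc 1 N).card := card_image_le
    rw [Nat.card_Icc, Nat.add_sub_cancel] at h1
    exact_mod_cast h1
  have hG : ∑ i ∈ (Icc 1 N).image j, ‖a (i / M)‖ ^ 2 ≤ N := by
    refine le_trans ?_ hcard
    calc ∑ i ∈ (Icc 1 N).image j, ‖a (i / M)‖ ^ 2 ≤ ∑ i ∈ (Icc 1 N).image j, (1 : ℝ) :=
          sum_le_sum fun n _ => pow_le_one₀ (norm_nonneg _) (ha _)
      _ = _ := by simp
  have hNM : (N : ℝ) ^ Q ≤ ((M * (N + 1) : ℕ) : ℝ) ^ Q := by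
    apply pow_le_pow_left₀ (by linarith)
    push_cast
    have : (1 : ℝ) ≤ M := by exact_mod_cast hM
    nlinarith
  obtain ⟨b, hb⟩ := hBas W (fun i => a (i / M)) (V / 2)
    (fun t ht => ⟨(hW t ht).1, ((hW t ht).2.trans hTQ).trans hNM⟩) hsep hne (by linarith)
    (by refine hG.trans ?_; rw [div_pow]; linarith) hbig
  have hh := halaszR (M * (N + 1)) hN'1 T hT W hW hsep b
  obtain ⟨S, hS⟩ : ∃ S : ℝ, S = ∑ n ∈ Icc 1 (M * (N + 1)), ‖∑ t ∈ W, phs (b t) * ph t n‖ ^ 2 := ⟨_, rfl⟩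
  rw [← hS] at hb hh
  obtain ⟨H, hH⟩ : ∃ H : ℝ, H = (W.card : ℝ) * (((M * (N + 1) : ℕ) : ℝ) +
    ((Nat.log 2 (M * (N + 1)) : ℝ) + 1) * (84 * ((M * (N + 1) : ℕ) : ℝ) * (1 + Real.log (T + 1)) +
        W.card * (14 * Real.sqrt (T * (1 + Real.log ((M * (N + 1) : ℕ) : ℝ)))))) := ⟨_, rfl⟩
  rw [← hH] at hh ⊢
  have hS0 : 0 ≤ S := by rw [hS]; exact sum_nonneg fun _ _ => sq_nonneg _
  obtain ⟨w, hw⟩ : ∃ w : ℝ, w = (W.card : ℝ) := ⟨_, rfl⟩
  rw [← hw] at hb ⊢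
  have h1 : B * (∑ i ∈ (Icc 1 N).image j, ‖a (i / M)‖ ^ 2) *
      (p * S + w ^ 2 + (((Icc 1 N).image j).card : ℝ)) ≤ B * N * (p * H + w ^ 2 + N) := by
    apply mul_le_mul
    · exact mul_le_mul_of_nonneg_left hG hB
    · have := mul_le_mul_of_nonneg_left hh hp
      linarith
    · have := mul_nonneg hp hS0
      positivity
    · positivity
  have h2 := hb.trans h1
  have h3 : (V / 2) ^ 2 * w ^ 2 = (V ^ 2 * w ^ 2) / 4 := by ring
  rw [h3] at h2
  linarith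

end Pool.Agent.V7H89.PI
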