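import Pool.Agent.V7H89.PI.AS

set_option autoImplicit false

/-!
# The large sieve inequality for perturbed integers: short intervals of ordinates
-/

namespace Pool.Agent.V7H89.PI

open Finset Pool.Agent.TH705.DL Pool.Agent.Y959.Her Pool.Agent.Y959.Smp Pool.Agent.Y959.Rs

/-- duality -/
theorem dual_ls {τ ι : Type*} (W : Finset τ) (I : Finset ι) (e : τ → ι → ℂ) (A : ℝ) (hA : 0 ≤ A)
    (h : ∀ b : τ → ℂ, ∑ n ∈ I, ‖∑ t ∈ W, b t * e t n‖ ^ 2 ≤ A * ∑ t ∈ W, ‖b t‖ ^ 2) (a : ι → ℂ) :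
    ∑ t ∈ W, ‖∑ n ∈ I, a n * e t n‖ ^ 2 ≤ A * ∑ n ∈ I, ‖a n‖ ^ 2 := by
  obtain ⟨D, hD⟩ : ∃ D : τ → ℂ, D = fun t => ∑ n ∈ I, a n * e t n := ⟨_, rfl⟩
  have hD' : ∀ t, ∑ n ∈ I, a n * e t n = D t := fun t => by rw [hD]
  simp only [hD']
  obtain ⟨S, hS⟩ : ∃ S : ℝ, S = ∑ t ∈ W, ‖D t‖ ^ 2 := ⟨_, rfl⟩
  obtain ⟨G, hG⟩ : ∃ G : ℝ, G = ∑ n ∈ I, ‖a n‖ ^ 2 := ⟨_, rfl⟩
  rw [← hS, ← hG]
  have hS0 : 0 ≤ S := by rw [hS]; exact sum_nonneg fun _ _ => sq_nonneg _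
  have hG0 : 0 ≤ G := by rw [hG]; exact sum_nonneg fun _ _ => sq_nonneg _
  rcases hS0.lt_or_eq with hSp | hSz
  swap
  · rw [← hSz]
    exact mul_nonneg hA hG0
  have h1 := h (fun t => (starRingEnd ℂ) (D t))
  simp only [RCLike.norm_conj] at h1
  rw [← hS] at h1
  have e1 : (S : ℂ) = ∑ n ∈ I, a n * ∑ t ∈ W, (starRingEnd ℂ) (D t) * e t n := by
    rw [hS]
    push_cast
    simp only [mul_sum]
    rw [sum_comm]
    apply sum_congr rfl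
    intro t _
    have e2 : ((‖D t‖ : ℂ)) ^ 2 = (starRingEnd ℂ) (D t) * D t := by
      rw [mul_comm, Complex.mul_conj, Complex.normSq_eq_norm_sq]
      push_cast
      rfl
    rw [e2]
    conv_lhs => rw [← hD' t]
    rw [mul_sum, hD']
    apply sum_congr rfl
    intro n _
    ring
  have h2 : S ≤ ∑ n ∈ I, ‖a n‖ * ‖∑ t ∈ W, (starRingEnd ℂ) (D t) * e t n‖ := by
    calc S = ‖(S : ℂ)‖ := by rw [Complex.norm_real, Real.norm_of_nonneg hS0]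
      _ ≤ ∑ n ∈ I, ‖a n * ∑ t ∈ W, (starRingEnd ℂ) (D t) * e t n‖ := by
          rw [e1]
          exact norm_sum_le _ _
      _ = _ := sum_congr rfl fun n _ => norm_mul _ _
  have h3 : S ^ 2 ≤ G * (A * S) := by
    calc S ^ 2 ≤ (∑ n ∈ I, ‖a n‖ * ‖∑ t ∈ W, (starRingEnd ℂ) (D t) * e t n‖) ^ 2 :=
          pow_le_pow_left₀ hS0 h2 2
      _ ≤ (∑ n ∈ I, ‖a n‖ ^ 2) * ∑ n ∈ I, ‖∑ t ∈ W, (starRingEnd ℂ) (D t) * e t n‖ ^ 2 :=
          sum_mul_sq_le_sq_mul_sq _ _ _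
      _ ≤ _ := by
          rw [← hG]
          exact mul_le_mul_of_nonneg_left h1 hG0
  have h4 : S * S ≤ S * (A * G) := by nlinarith
  exact le_of_mul_le_mul_left h4 hSp

/-- the rows of the kernel -/
theorem ker_row (N : ℕ) (hN : 1 ≤ N) (T : ℝ) (hT : 0 ≤ T) (W : Finset ℝ)
    (hW : ∀ t ∈ W, 0 ≤ t ∧ t ≤ T) (hsep : Sep W) : ∀ t ∈ W, ∑ u ∈ W, ‖∑ n ∈ Icc 1 N, ph (t - u) n‖ ≤
      N + 168 * N * (1 + Real.log (T + 1)) + W.card * (2 * T) := by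
  classical
  intro t ht
  rw [← add_sum_erase W _ ht]
  have h5 : ∑ u ∈ W.erase t, ‖∑ n ∈ Icc 1 N, ph (t - u) n‖ ≤
      ∑ u ∈ W.erase t, (84 * N * (1 / |t - u|) + 2 * T) := by
    apply sum_le_sum
    intro u hu
    have hne : t - u ≠ 0 := sub_ne_zero.2 (Ne.symm (ne_of_mem_erase hu))
    have huW := mem_of_mem_erase hu
    have h6 := hW t ht
    have h7 := hW u huW
    have hab : |t - u| ≤ T := by
      rw [abs_le]
      constructor <;> linarith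
    have hneg : ‖∑ n ∈ Icc 1 N, ph (t - u) n‖ = ‖∑ n ∈ Icc 1 N, ph |t - u| n‖ := by
      rcases lt_or_gt_of_ne hne with h | h
      · rw [abs_of_neg h]
        have : ∑ n ∈ Icc 1 N, ph (-(t - u)) n = (starRingEnd ℂ) (∑ n ∈ Icc 1 N, ph (t - u) n) := by
          rw [map_sum]
          exact sum_congr rfl fun n _ => (ph_conj _ _).symm
        rw [this, Complex.norm_conj]
      · rw [abs_of_pos h]
    rw [hneg]
    refine (ker_small |t - u| (abs_pos.2 hne) N hN).trans ?_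
    rw [mul_one_div]
    linarith
  rw [sum_add_distrib, ← mul_sum, sum_const, nsmul_eq_mul] at h5
  have h6 := mul_le_mul_of_nonneg_left (harm_real T hT W hW hsep t ht)
    (by positivity : (0 : ℝ) ≤ 84 * N)
  have h7 : ‖∑ n ∈ Icc 1 N, ph (t - t) n‖ ≤ N := by
    refine (norm_sum_le _ _).trans ?_
    rw [sum_congr rfl fun n _ => ph_norm (t - t) n, sum_const, Nat.card_Icc, nsmul_eq_mul, mul_one,
      Nat.add_sub_cancel]
  have h8 : ((W.erase t).card : ℝ) * (2 * T) ≤ W.card * (2 * T) := by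
    apply mul_le_mul_of_nonneg_right _ (by positivity)
    exact_mod_cast card_le_card (erase_subset _ _)
  linarith

/-- the mean square over the integers, all coefficients -/
theorem ms_gen (N : ℕ) (hN : 1 ≤ N) (T : ℝ) (hT : 0 ≤ T) (W : Finset ℝ)
    (hW : ∀ t ∈ W, 0 ≤ t ∧ t ≤ T) (hsep : Sep W) (b : ℝ → ℂ) :
    ∑ n ∈ Icc 1 N, ‖∑ t ∈ W, b t * ph t n‖ ^ 2 ≤
      (N + 168 * N * (1 + Real.log (T + 1)) + W.card * (2 * T)) * ∑ t ∈ W, ‖b t‖ ^ 2 := by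
  classical
  have hrow := ker_row N hN T hT W hW hsep
  obtain ⟨A, hA⟩ : ∃ A : ℝ, A = N + 168 * N * (1 + Real.log (T + 1)) + W.card * (2 * T) := ⟨_, rfl⟩
  rw [← hA] at hrow ⊢
  obtain ⟨κ, hκ⟩ : ∃ κ : ℝ → ℝ → ℝ, κ = fun t u => ‖∑ n ∈ Icc 1 N, ph (t - u) n‖ := ⟨_, rfl⟩
  have hκ' : ∀ t u, ‖∑ n ∈ Icc 1 N, ph (t - u) n‖ = κ t u := fun t u => by rw [hκ]
  have hsym : ∀ t u, κ t u = κ u t := by
    intro t u
    rw [← hκ', ← hκ']
    have : ∑ n ∈ Icc 1 N, ph (u - t) n = (starRingEnd ℂ) (∑ n ∈ Icc 1 N, ph (t - u) n) := by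
      rw [map_sum]
      apply sum_congr rfl
      intro n _
      rw [ph_conj, neg_sub]
    rw [this, Complex.norm_conj]
  have hκ0 : ∀ t u, 0 ≤ κ t u := fun t u => by rw [← hκ']; exact norm_nonneg _
  simp only [hκ'] at hrow
  have h1 : ((∑ n ∈ Icc 1 N, ‖∑ t ∈ W, b t * ph t n‖ ^ 2 : ℝ) : ℂ) =
      ∑ t ∈ W, ∑ u ∈ W, b t * (starRingEnd ℂ) (b u) * ∑ n ∈ Icc 1 N, ph (t - u) n := by
    push_cast
    have h2 : ∀ n ∈ Icc 1 N, ((‖∑ t ∈ W, b t * ph t n‖ : ℂ)) ^ 2 =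
        ∑ t ∈ W, ∑ u ∈ W, b t * (starRingEnd ℂ) (b u) * ph (t - u) n := by
      intro n _
      rw [← Complex.mul_conj', map_sum, sum_mul_sum]
      apply sum_congr rfl
      intro i _
      apply sum_congr rfl
      intro j _
      rw [map_mul, ← ph_sub]
      ring
    rw [sum_congr rfl h2, sum_comm]
    apply sum_congr rfl
    intro i _
    rw [sum_comm]
    apply sum_congr rfl
    intro j _
    rw [mul_sum]
  have h3 : ∑ n ∈ Icc 1 N, ‖∑ t ∈ W, b t * ph t n‖ ^ 2 ≤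
      ∑ t ∈ W, ∑ u ∈ W, ‖b t‖ * ‖b u‖ * κ t u := by
    have h0 : 0 ≤ ∑ n ∈ Icc 1 N, ‖∑ t ∈ W, b t * ph t n‖ ^ 2 :=
      sum_nonneg fun _ _ => sq_nonneg _
    rw [← Real.norm_of_nonneg h0, ← Complex.norm_real, h1]
    refine (norm_sum_le _ _).trans (sum_le_sum fun i _ => ?_)
    refine (norm_sum_le _ _).trans (sum_le_sum fun j _ => ?_)
    rw [norm_mul, norm_mul, RCLike.norm_conj, hκ']
  refine h3.trans ?_
  have h4 : ∑ t ∈ W, ∑ u ∈ W, ‖b t‖ * ‖b u‖ * κ t u ≤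
      ∑ t ∈ W, ∑ u ∈ W, (1 / 2 * (‖b t‖ ^ 2 * κ t u) + 1 / 2 * (‖b u‖ ^ 2 * κ t u)) := by
    apply sum_le_sum
    intro t _
    apply sum_le_sum
    intro u _
    have h5 : ‖b t‖ * ‖b u‖ ≤ 1 / 2 * ‖b t‖ ^ 2 + 1 / 2 * ‖b u‖ ^ 2 := by
      nlinarith [sq_nonneg (‖b t‖ - ‖b u‖)]
    have h6 := mul_le_mul_of_nonneg_right h5 (hκ0 t u)
    linarith
  refine h4.trans ?_
  have h5 : ∑ t ∈ W, ∑ u ∈ W, (1 / 2 * (‖b t‖ ^ 2 * κ t u) + 1 / 2 * (‖b u‖ ^ 2 * κ t u)) =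
      ∑ t ∈ W, ‖b t‖ ^ 2 * ∑ u ∈ W, κ t u := by
    simp only [sum_add_distrib]
    have h6 : ∑ t ∈ W, ∑ u ∈ W, 1 / 2 * (‖b u‖ ^ 2 * κ t u) =
        ∑ t ∈ W, ∑ u ∈ W, 1 / 2 * (‖b t‖ ^ 2 * κ t u) := by
      rw [sum_comm]
      apply sum_congr rfl
      intro t _
      apply sum_congr rfl
      intro u _
      rw [hsym u t]
    rw [h6, ← sum_add_distrib]
    apply sum_congr rfl
    intro t _
    rw [← sum_add_distrib, mul_sum]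
    apply sum_congr rfl
    intro u _
    ring
  rw [h5, mul_sum]
  apply sum_le_sum
  intro t ht
  rw [mul_comm A]
  exact mul_le_mul_of_nonneg_left (hrow t ht) (sq_nonneg _)

/-- **Short intervals of ordinates.** -/
theorem small_LS (N : ℕ) (hN : 1 ≤ N) (T : ℝ) (hT : 1 ≤ T) (hTN : T ^ 3 ≤ N) (x : ℕ → ℝ)
    (hx : ∀ n : ℕ, 1 ≤ n → (n : ℝ) ≤ x n ∧ x n ≤ n + 1) (W : Finset ℝ)
    (hW : ∀ t ∈ W, 0 ≤ t ∧ t ≤ T) (hsep : Sep W) (a : ℕ → ℂ) :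
    ∑ t ∈ W, ‖∑ n ∈ Icc 1 N, a n * pr t (x n)‖ ^ 2 ≤
      (354 * N * (1 + Real.log (T + 1))) * ∑ n ∈ Icc 1 N, ‖a n‖ ^ 2 := by
  classical
  have hN1 : (1 : ℝ) ≤ N := by exact_mod_cast hN
  have hN0 : (0 : ℝ) < N := by linarith
  have hlog : 0 ≤ Real.log (T + 1) := Real.log_nonneg (by linarith)
  apply dual_ls W (Icc 1 N) (fun t n => pr t (x n)) _ (by positivity)
  intro b
  have hw1 := sep_card T (by linarith) W hW hsep
  have hms := ms_gen N hN T (by linarith) W hW hsep b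
  obtain ⟨w, hw⟩ : ∃ w : ℝ, w = (W.card : ℝ) := ⟨_, rfl⟩
  obtain ⟨H, hH⟩ : ∃ H : ℝ, H = ∑ t ∈ W, ‖b t‖ ^ 2 := ⟨_, rfl⟩
  have hH0 : 0 ≤ H := by rw [hH]; exact sum_nonneg fun _ _ => sq_nonneg _
  rw [← hw] at hw1
  rw [← hw, ← hH] at hms
  rw [← hH]
  have hw0 : 0 ≤ w := by rw [hw]; exact Nat.cast_nonneg _
  have hl1 : (∑ t ∈ W, ‖b t‖) ^ 2 ≤ w * H := by
    rw [hw, hH]
    exact sq_sum_le_card_mul_sum_sq
  have h1 : ∀ n ∈ Icc 1 N, ‖∑ t ∈ W, b t * pr t (x n)‖ ^ 2 ≤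
      2 * ‖∑ t ∈ W, b t * ph t n‖ ^ 2 + 2 * (w * H) * T ^ 2 * (1 / (n : ℝ) ^ 2) := by
    intro n hn
    have hn1 := (mem_Icc.1 hn).1
    have hn0 : (0 : ℝ) < n := by exact_mod_cast hn1
    have h2 : ‖∑ t ∈ W, b t * pr t (x n) - ∑ t ∈ W, b t * ph t n‖ ≤ (∑ t ∈ W, ‖b t‖) * (T / n) := by
      rw [← sum_sub_distrib, sum_mul]
      refine (norm_sum_le _ _).trans (sum_le_sum fun t ht => ?_)
      rw [← mul_sub, norm_mul]
      apply mul_le_mul_of_nonneg_left _ (norm_nonneg _)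
      refine (pr_near t (x n) n hn1 (hW t ht).1 (hx n hn1).1 (hx n hn1).2).trans ?_
      exact div_le_div_of_nonneg_right (hW t ht).2 hn0.le
    obtain ⟨u, hu⟩ : ∃ u : ℝ, u = ‖∑ t ∈ W, b t * pr t (x n)‖ := ⟨_, rfl⟩
    obtain ⟨v, hv⟩ : ∃ v : ℝ, v = ‖∑ t ∈ W, b t * ph t n‖ := ⟨_, rfl⟩
    obtain ⟨z, hz⟩ : ∃ z : ℝ, z = (∑ t ∈ W, ‖b t‖) * (T / n) := ⟨_, rfl⟩
    have h3 := norm_sub_norm_le (∑ t ∈ W, b t * pr t (x n)) (∑ t ∈ W, b t * ph t n)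
    rw [← hz] at h2
    rw [← hu, ← hv] at h3 ⊢
    have hu0 : 0 ≤ u := by rw [hu]; exact norm_nonneg _
    have h4 : u ≤ v + z := by linarith
    have h5 : u ^ 2 ≤ (v + z) ^ 2 := pow_le_pow_left₀ hu0 h4 2
    have h6 : z ^ 2 ≤ (w * H) * T ^ 2 * (1 / (n : ℝ) ^ 2) := by
      rw [hz, mul_pow, div_pow, mul_assoc, mul_one_div]
      exact mul_le_mul_of_nonneg_right hl1 (by positivity)
    nlinarith [sq_nonneg (v - z)]
  refine (sum_le_sum h1).trans ?_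
  rw [sum_add_distrib, ← mul_sum, ← mul_sum]
  have h3 : ∑ n ∈ Icc 1 N, (1 : ℝ) / (n : ℝ) ^ 2 ≤ 2 := by
    have := inv_sq_sum N hN
    have h4 : 0 ≤ 1 / (N : ℝ) := by positivity
    linarith
  have h5 : 2 * (w * H) * T ^ 2 * ∑ n ∈ Icc 1 N, (1 : ℝ) / (n : ℝ) ^ 2 ≤ 2 * (w * H) * T ^ 2 * 2 :=
    mul_le_mul_of_nonneg_left h3 (by positivity)
  have hw2 : w ≤ 2 * T := by linarith
  have h6 : w * T ^ 2 ≤ 2 * N := by
    calc w * T ^ 2 ≤ (2 * T) * T ^ 2 := mul_le_mul_of_nonneg_right hw2 (by positivity)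
      _ = 2 * T ^ 3 := by ring
      _ ≤ 2 * N := by linarith
  have h7 : w * (2 * T) ≤ 4 * N := by
    have h9 : T * T ≤ T ^ 3 := by nlinarith [sq_nonneg T]
    have h10 : w * (2 * T) ≤ (2 * T) * (2 * T) := mul_le_mul_of_nonneg_right hw2 (by linarith)
    linarith
  have h8 : (N + 168 * N * (1 + Real.log (T + 1)) + w * (2 * T)) ≤
      173 * N * (1 + Real.log (T + 1)) := by
    have : (N : ℝ) ≤ N * (1 + Real.log (T + 1)) := le_mul_of_one_le_right (by positivity) (by linarith)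
    linarith
  have h9 : 2 * (w * H) * T ^ 2 * 2 ≤ 8 * N * H := by
    calc 2 * (w * H) * T ^ 2 * 2 = 4 * (w * T ^ 2) * H := by ring
      _ ≤ 4 * (2 * N) * H := by
          apply mul_le_mul_of_nonneg_right _ hH0
          linarith
      _ = _ := by ring
  have h10 := mul_le_mul_of_nonneg_right h8 hH0
  have h11 : (N : ℝ) * H ≤ N * (1 + Real.log (T + 1)) * H := by
    apply mul_le_mul_of_nonneg_right _ hH0
    exact le_mul_of_one_le_right (by positivity) (by linarith)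
  nlinarith

end Pool.Agent.V7H89.PI
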