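import Pool.Agent.V7H89.PI.SieveB

set_option autoImplicit false

/-!
# The large sieve inequality for almost every perturbation of the integers
-/

namespace Pool.Agent.V7H89.PI

open Finset MeasureTheory ProbabilityTheory Pool.Agent.TH705.DL Pool.Agent.Y959.Her
  Pool.Agent.Y959.Smp Pool.Agent.Y959.Rs

/-- The large sieve inequality for the frequencies `log (x n)` with the exponents `κ` and `ε`. -/
def LS (x : ℕ → ℝ) (κ ε : ℝ) : Prop := ∃ C : ℝ, 0 < C ∧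
  ∀ (N : ℕ) (T : ℝ) (a : ℕ → ℂ) (S : Finset ℝ),
    1 ≤ N → 1 ≤ T → (∀ t ∈ S, 0 ≤ t ∧ t ≤ T) →
    (∀ t ∈ S, ∀ u ∈ S, t ≠ u → 1 ≤ |t - u|) →
    ∑ t ∈ S, ‖∑ n ∈ Finset.Icc 1 N, a n * ((x n : ℝ) : ℂ) ^ (-((t : ℂ) * Complex.I))‖ ^ 2 ≤
      C * T ^ ε * ((N : ℝ) ^ (1 + κ) + S.card) * ∑ n ∈ Finset.Icc 1 N, ‖a n‖ ^ 2

theorem LS_mono {x : ℕ → ℝ} {κ ε ε' : ℝ} (h : LS x κ ε) (hε : ε ≤ ε') : LS x κ ε' := by
  obtain ⟨C, hC, h1⟩ := h
  refine ⟨C, hC, ?_⟩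
  intro N T a S hN hT hS hsep
  have h2 : T ^ ε ≤ T ^ ε' := Real.rpow_le_rpow_of_exponent_le hT hε
  refine (h1 N T a S hN hT hS hsep).trans ?_
  apply mul_le_mul_of_nonneg_right _ (sum_nonneg fun _ _ => sq_nonneg _)
  apply mul_le_mul_of_nonneg_right _ (by positivity)
  exact mul_le_mul_of_nonneg_left h2 hC.le

theorem conclLS (κ ε K C0 : ℝ) (Q R N0 : ℕ) (hκ : 0 ≤ κ) (hε : 0 < ε) (hε1 : ε ≤ 1) (hK : 1 ≤ K)
    (hC0 : 1 ≤ C0) (hQ : 1 / ε ≤ Q) (hR : κ + 2 * Q + 6 ≤ R) (y : ℕ → ℝ) (hy : ∀ n, 0 ≤ y n ∧ y n ≤ 1)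
    (hBas : ∀ N : ℕ, N0 ≤ N → BasP (N ^ R * (N + 1)) Q (K * (N : ℝ) ^ (κ + ε / 12) / (N : ℝ) ^ R)
      (C0 * ((N ^ R * (N + 1) : ℕ) : ℝ) ^ (ε / 12 / (R + 2)))
      ((Icc 1 N).image (fun n => jn (N ^ R) n (y n)))) :
    LS (fun n => (n : ℝ) + y n) κ ε := by
  classical
  obtain ⟨C3, hC3, h3⟩ := asymG κ (ε / 12) K C0 Q R hκ (by positivity) (by linarith) hK hC0 hR
  obtain ⟨CL, hCL, hL3⟩ := log_pow3 (ε / 12) (by positivity)
  obtain ⟨N2, hN2⟩ : ∃ N2 : ℕ, N2 = N0 + 2 := ⟨_, rfl⟩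
  have hRQ : Q + 2 ≤ R := by
    have h1 : ((Q + 2 : ℕ) : ℝ) ≤ R := by
      push_cast
      have : (0 : ℝ) ≤ Q := Nat.cast_nonneg _
      linarith
    exact_mod_cast h1
  have h1ε : 0 < 1 / ε := by positivity
  have hC3CL : 0 ≤ 8 * C3 * CL := by positivity
  refine ⟨354 * (2 + 1 / ε) + 1 + N2 + (8 * C3 * CL + 4), by positivity, ?_⟩
  intro N T a S hN hT hW hsep
  have hN1' : (1 : ℝ) ≤ N := by exact_mod_cast hN
  have hN0' : (0 : ℝ) < N := by linarith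
  have hTε : 1 ≤ T ^ ε := Real.one_le_rpow hT hε.le
  have hNκ : (N : ℝ) ≤ (N : ℝ) ^ (1 + κ) := by
    nth_rw 1 [← Real.rpow_one (N : ℝ)]
    exact Real.rpow_le_rpow_of_exponent_le hN1' (by linarith)
  have hxpos : ∀ n : ℕ, 1 ≤ n → 0 < (n : ℝ) + y n := by
    intro n hn
    have h1 : (1 : ℝ) ≤ n := by exact_mod_cast hn
    linarith [(hy n).1]
  have hD := fun t => D_norm N (fun n => (n : ℝ) + y n) hxpos a t
  obtain ⟨a', ha'⟩ : ∃ a' : ℕ → ℂ, a' = fun n => (starRingEnd ℂ) (a n) := ⟨_, rfl⟩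
  have hGa : ∑ n ∈ Icc 1 N, ‖a n‖ ^ 2 = ∑ n ∈ Icc 1 N, ‖a' n‖ ^ 2 := by
    apply sum_congr rfl
    intro n _
    rw [ha', Complex.norm_conj]
  obtain ⟨G, hG⟩ : ∃ G : ℝ, G = ∑ n ∈ Icc 1 N, ‖a' n‖ ^ 2 := ⟨_, rfl⟩
  have hG0 : 0 ≤ G := by rw [hG]; exact sum_nonneg fun _ _ => sq_nonneg _
  obtain ⟨d, hd⟩ : ∃ d : ℝ → ℝ, d = fun t => ‖∑ n ∈ Icc 1 N, a' n * pr t ((n : ℝ) + y n)‖ := ⟨_, rfl⟩
  have hd0 : ∀ t, 0 ≤ d t := fun t => by rw [hd]; exact norm_nonneg _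
  have hsum : ∑ t ∈ S, ‖∑ n ∈ Finset.Icc 1 N, a n *
      ((((fun n : ℕ => (n : ℝ) + y n) n : ℝ)) : ℂ) ^ (-((t : ℂ) * Complex.I))‖ ^ 2 =
      ∑ t ∈ S, d t ^ 2 := by
    apply sum_congr rfl
    intro t _
    rw [hD t, hd, ha']
  rw [hsum, hGa, ← hG]
  obtain ⟨w, hw⟩ : ∃ w : ℝ, w = (S.card : ℝ) := ⟨_, rfl⟩
  have hw0 : 0 ≤ w := by rw [hw]; exact Nat.cast_nonneg _
  rw [← hw]
  have hd1 : ∀ t, d t ^ 2 ≤ N * G := by
    intro t
    have h1 : d t ≤ ∑ n ∈ Icc 1 N, ‖a' n‖ := by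
      rw [hd]
      refine (norm_sum_le _ _).trans (le_of_eq ?_)
      apply sum_congr rfl
      intro n _
      rw [norm_mul, pr_norm, mul_one]
    have h2 := sq_sum_le_card_mul_sum_sq (s := Icc 1 N) (f := fun n => ‖a' n‖)
    rw [Nat.card_Icc, Nat.add_sub_cancel, ← hG] at h2
    exact (pow_le_pow_left₀ (hd0 t) h1 2).trans h2
  have htriv : ∑ t ∈ S, d t ^ 2 ≤ w * (N * G) := by
    refine (sum_le_sum fun t _ => hd1 t).trans (le_of_eq ?_)
    rw [sum_const, nsmul_eq_mul, hw]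
  obtain ⟨X, hX⟩ : ∃ X : ℝ, X = T ^ ε * ((N : ℝ) ^ (1 + κ) + w) * G := ⟨_, rfl⟩
  have hX0 : 0 ≤ X := by rw [hX]; positivity
  have hN20 : (0 : ℝ) ≤ N2 := Nat.cast_nonneg _
  -- reduction
  suffices hsuf : ∃ c : ℝ, c ≤ 354 * (2 + 1 / ε) + 1 + N2 + (8 * C3 * CL + 4) ∧
      ∑ t ∈ S, d t ^ 2 ≤ c * X by
    obtain ⟨c, hc, hcS⟩ := hsuf
    refine hcS.trans ((mul_le_mul_of_nonneg_right hc hX0).trans (le_of_eq ?_))
    rw [hX]
    ring
  rcases le_or_gt (T ^ 3) N with hT3 | hT3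
  · -- short intervals
    refine ⟨354 * (2 + 1 / ε), by linarith, ?_⟩
    have h4 := small_LS N hN T hT hT3 (fun n => (n : ℝ) + y n)
      (fun n _ => ⟨by linarith [(hy n).1], by linarith [(hy n).2]⟩) S hW hsep a'
    rw [← hG] at h4
    have h5 : 1 + Real.log (T + 1) ≤ (2 + 1 / ε) * T ^ ε := by
      have h6 : Real.log (T + 1) ≤ Real.log (2 * T) := Real.log_le_log (by linarith) (by linarith)
      rw [Real.log_mul (by norm_num) (by linarith)] at h6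
      have h7 := Real.log_two_lt_d9
      have h8 := Real.log_le_rpow_div (by linarith : (0 : ℝ) ≤ T) hε
      have h9 : (2 + 1 / ε) * T ^ ε = 2 * T ^ ε + T ^ ε / ε := by ring
      rw [h9]
      linarith
    have h6 : ∑ t ∈ S, d t ^ 2 ≤ (354 * N * (1 + Real.log (T + 1))) * G := by
      rw [hd]
      exact h4
    refine h6.trans ?_
    rw [hX]
    calc 354 * N * (1 + Real.log (T + 1)) * G ≤ 354 * N * ((2 + 1 / ε) * T ^ ε) * G := by
          apply mul_le_mul_of_nonneg_right _ hG0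
          exact mul_le_mul_of_nonneg_left h5 (by positivity)
      _ = 354 * (2 + 1 / ε) * (T ^ ε * N * G) := by ring
      _ ≤ 354 * (2 + 1 / ε) * (T ^ ε * ((N : ℝ) ^ (1 + κ) + w) * G) := by
          apply mul_le_mul_of_nonneg_left _ (by positivity)
          apply mul_le_mul_of_nonneg_right _ hG0
          apply mul_le_mul_of_nonneg_left _ (by linarith)
          linarith
  rcases lt_or_ge ((N : ℝ) ^ Q) T with hTQ | hTQ
  · -- very long intervals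
    refine ⟨1, by linarith [mul_pos (by norm_num : (0:ℝ) < 354) (by positivity : 0 < 2 + 1 / ε)], ?_⟩
    have h4 : (N : ℝ) ≤ T ^ ε := by
      have h5 : (N : ℝ) ^ (1 / ε) ≤ T := by
        refine le_trans ?_ hTQ.le
        rw [← Real.rpow_natCast]
        exact Real.rpow_le_rpow_of_exponent_le hN1' hQ
      have h6 := Real.rpow_le_rpow (by positivity) h5 hε.le
      rw [← Real.rpow_mul hN0'.le, one_div_mul_cancel hε.ne', Real.rpow_one] at h6
      exact h6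
    refine htriv.trans ?_
    rw [hX, one_mul]
    calc w * (N * G) = N * (w * G) := by ring
      _ ≤ T ^ ε * (w * G) := mul_le_mul_of_nonneg_right h4 (by positivity)
      _ ≤ T ^ ε * (((N : ℝ) ^ (1 + κ) + w) * G) := by
          apply mul_le_mul_of_nonneg_left _ (by linarith)
          apply mul_le_mul_of_nonneg_right _ hG0
          linarith
      _ = _ := by ring
  rcases lt_or_ge N N2 with hNs | hNl
  · -- small `N`
    refine ⟨N2, by linarith [mul_pos (by norm_num : (0:ℝ) < 354) (by positivity : 0 < 2 + 1 / ε)], ?_⟩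
    have h4 : (N : ℝ) ≤ N2 := by exact_mod_cast hNs.le
    refine htriv.trans ?_
    rw [hX]
    calc w * (N * G) ≤ w * (N2 * G) := by
          apply mul_le_mul_of_nonneg_left _ hw0
          exact mul_le_mul_of_nonneg_right h4 hG0
      _ = N2 * (1 * w * G) := by ring
      _ ≤ N2 * (T ^ ε * ((N : ℝ) ^ (1 + κ) + w) * G) := by
          apply mul_le_mul_of_nonneg_left _ hN20
          apply mul_le_mul_of_nonneg_right _ hG0
          apply mul_le_mul hTε (by linarith) hw0 (by linarith)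
  -- the main range
  refine ⟨8 * C3 * CL + 4, by linarith [mul_pos (by norm_num : (0:ℝ) < 354) (by positivity : 0 < 2 + 1 / ε)], ?_⟩
  rcases hG0.lt_or_eq with hGp | hGz
  swap
  · refine htriv.trans ?_
    rw [← hGz, mul_zero, mul_zero]
    positivity
  have hMbig : 2 * N ^ (Q + 1) ≤ N ^ R := by
    calc 2 * N ^ (Q + 1) ≤ N * N ^ (Q + 1) := Nat.mul_le_mul_right _ (by omega)
      _ = N ^ (Q + 2) := by ring
      _ ≤ N ^ R := Nat.pow_le_pow_right (by omega) hRQ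
  obtain ⟨Z, hZ⟩ : ∃ Z : ℝ, Z = (N : ℝ) ^ (1 + κ + 2 * (ε / 12)) := ⟨_, rfl⟩
  have hZ0 : 0 ≤ Z := by rw [hZ]; positivity
  obtain ⟨A0, hA0⟩ : ∃ A0 : ℝ, A0 = C3 * (N : ℝ) ^ (ε / 12) * G * (Z + w) := ⟨_, rfl⟩
  have hA00 : 0 ≤ A0 := by rw [hA0]; positivity
  have hsG : 0 < Real.sqrt G := Real.sqrt_pos.2 hGp
  have hlev : ∀ V, 2 * Real.sqrt G ≤ V → V ^ 2 * ((S.filter (fun t => V ≤ d t)).card : ℝ) ≤ A0 := by
    intro V hV
    obtain ⟨W', hW'⟩ : ∃ W' : Finset ℝ, W' = S.filter (fun t => V ≤ d t) := ⟨_, rfl⟩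
    rw [← hW']
    have hWS : W' ⊆ S := by rw [hW']; exact filter_subset _ _
    rcases W'.eq_empty_or_nonempty with h0 | hne
    · rw [h0]
      simpa using hA00
    have hVp : 0 < V := by linarith
    have hV4 : 4 * G ≤ V ^ 2 := by
      calc 4 * G = (2 * Real.sqrt G) ^ 2 := by rw [mul_pow, Real.sq_sqrt hG0]; ring
        _ ≤ V ^ 2 := pow_le_pow_left₀ (by linarith) hV 2
    have hri := round_ineqG N (N ^ R) Q hN (Nat.one_le_pow _ _ hN) hMbig y hy _ _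
      (by positivity) (by positivity) (hBas N (by omega)) T (by linarith) hTQ W'
      (fun t ht => hW t (hWS ht)) (fun t ht u hu => hsep t (hWS ht) u (hWS hu)) hne a' G hG V hVp hV4
      (fun t ht => by
        rw [hW'] at ht
        have h5 := (mem_filter.1 ht).2
        rw [hd] at h5
        exact h5)
    have hw1' : (1 : ℝ) ≤ W'.card := by exact_mod_cast card_pos.2 hne
    have has := h3 N (by omega) T V W'.card G hG0 hT hTQ hw1' hri
    refine has.trans ?_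
    rw [hA0, ← hZ]
    apply mul_le_mul_of_nonneg_left _ (by positivity)
    have h5 : (W'.card : ℝ) ≤ w := by
      rw [hw]
      exact_mod_cast card_le_card hWS
    linarith
  have hmax : ∀ t ∈ S, d t ≤ 2 ^ (Nat.log 2 N + 1) * (2 * Real.sqrt G) := by
    intro t _
    have h1 : d t ≤ N * Real.sqrt G := by
      apply (abs_le_of_sq_le_sq' _ (by positivity)).2
      rw [mul_pow, Real.sq_sqrt hG0]
      refine (hd1 t).trans ?_
      apply mul_le_mul_of_nonneg_right _ hG0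
      nlinarith
    have h2 : N < 2 ^ (Nat.log 2 N + 1) := Nat.lt_pow_succ_log_self (by norm_num) _
    have h5 : (N : ℝ) ≤ 2 ^ (Nat.log 2 N + 1) := by exact_mod_cast h2.le
    calc d t ≤ N * Real.sqrt G := h1
      _ ≤ 2 ^ (Nat.log 2 N + 1) * Real.sqrt G := mul_le_mul_of_nonneg_right h5 hsG.le
      _ ≤ 2 ^ (Nat.log 2 N + 1) * (2 * Real.sqrt G) := by
          apply mul_le_mul_of_nonneg_left _ (by positivity)
          linarith
  have hdy := dyadic S d (2 * Real.sqrt G) A0 (by positivity) (Nat.log 2 N + 1) hmax hlev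
  have hsmall : ∑ t ∈ S.filter (fun t => ¬ 2 * Real.sqrt G ≤ d t), d t ^ 2 ≤ 4 * G * w := by
    calc ∑ t ∈ S.filter (fun t => ¬ 2 * Real.sqrt G ≤ d t), d t ^ 2
        ≤ ∑ t ∈ S.filter (fun t => ¬ 2 * Real.sqrt G ≤ d t), 4 * G := by
          apply sum_le_sum
          intro t ht
          have h1 := (mem_filter.1 ht).2
          push Not at h1
          calc d t ^ 2 ≤ (2 * Real.sqrt G) ^ 2 := pow_le_pow_left₀ (hd0 t) h1.le 2
            _ = 4 * G := by rw [mul_pow, Real.sq_sqrt hG0]; ring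
      _ ≤ 4 * G * w := by
          rw [sum_const, nsmul_eq_mul, mul_comm, hw]
          apply mul_le_mul_of_nonneg_left _ (by positivity)
          exact_mod_cast card_filter_le _ _
  rw [← sum_filter_add_sum_filter_not S (fun t => 2 * Real.sqrt G ≤ d t)]
  have hJ : ((Nat.log 2 N + 1 : ℕ) : ℝ) + 1 ≤ 2 * (CL * (N : ℝ) ^ (ε / 12)) := by
    have h1 := log2_leR N hN
    have h2 := hL3 N hN
    have hl0 : 0 ≤ Real.log N := Real.log_nonneg hN1'
    have h5 : 1 + Real.log N ≤ (1 + Real.log N) ^ 3 := le_self_pow₀ (by linarith) (by norm_num)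
    push_cast
    linarith
  have hNe : 0 ≤ (N : ℝ) ^ (ε / 12) := by positivity
  have h4 : 4 * A0 * (((Nat.log 2 N + 1 : ℕ) : ℝ) + 1) ≤
      8 * C3 * CL * ((N : ℝ) ^ (ε / 12) * (N : ℝ) ^ (ε / 12) * (Z + w)) * G := by
    calc 4 * A0 * (((Nat.log 2 N + 1 : ℕ) : ℝ) + 1) ≤ 4 * A0 * (2 * (CL * (N : ℝ) ^ (ε / 12))) :=
          mul_le_mul_of_nonneg_left hJ (by positivity)
      _ = _ := by rw [hA0]; ring
  have hTN3 : (N : ℝ) ^ (ε / 3) ≤ T ^ ε := by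
    have h6 : (N : ℝ) ^ (ε / 3) ≤ (T ^ 3) ^ (ε / 3) :=
      Real.rpow_le_rpow hN0'.le hT3.le (by positivity)
    refine h6.trans (le_of_eq ?_)
    rw [← Real.rpow_natCast, ← Real.rpow_mul (by linarith)]
    congr 1
    push_cast
    ring
  have h5 : (N : ℝ) ^ (ε / 12) * (N : ℝ) ^ (ε / 12) * (Z + w) ≤
      T ^ ε * ((N : ℝ) ^ (1 + κ) + w) := by
    have e1 : (N : ℝ) ^ (ε / 12) * (N : ℝ) ^ (ε / 12) * Z = (N : ℝ) ^ (ε / 3) * (N : ℝ) ^ (1 + κ) := by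
      rw [hZ, ← Real.rpow_add hN0', ← Real.rpow_add hN0', ← Real.rpow_add hN0']
      congr 1
      ring
    have e2 : (N : ℝ) ^ (ε / 12) * (N : ℝ) ^ (ε / 12) ≤ (N : ℝ) ^ (ε / 3) := by
      rw [← Real.rpow_add hN0']
      exact Real.rpow_le_rpow_of_exponent_le hN1' (by linarith)
    have e3 : (N : ℝ) ^ (ε / 3) * (N : ℝ) ^ (1 + κ) ≤ T ^ ε * (N : ℝ) ^ (1 + κ) :=
      mul_le_mul_of_nonneg_right hTN3 (by positivity)
    have e4 : (N : ℝ) ^ (ε / 12) * (N : ℝ) ^ (ε / 12) * w ≤ T ^ ε * w :=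
      mul_le_mul_of_nonneg_right (e2.trans hTN3) hw0
    rw [mul_add, e1, mul_add]
    linarith
  have h6 : 8 * C3 * CL * ((N : ℝ) ^ (ε / 12) * (N : ℝ) ^ (ε / 12) * (Z + w)) * G ≤
      8 * C3 * CL * X := by
    rw [hX, mul_assoc]
    apply mul_le_mul_of_nonneg_left _ hC3CL
    exact mul_le_mul_of_nonneg_right h5 hG0
  have h7 : 4 * G * w ≤ 4 * X := by
    rw [hX]
    have e1 : 1 * (0 + w) ≤ T ^ ε * ((N : ℝ) ^ (1 + κ) + w) := by
      apply mul_le_mul hTε (by linarith) (by linarith) (by linarith)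
    have e2 := mul_le_mul_of_nonneg_right e1 hG0
    linarith
  linarith

end Pool.Agent.V7H89.PI
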